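import Mathlib

/-!
# The ordered algebra of set functions with the convolution over disjoint unions
-/

set_option autoImplicit false
set_option linter.unusedSectionVars false

namespace Pool.Agent.T6.H6.PE

open Finset

/-- real functions on the subsets of `P` -/
def Alg (P : Type) : Type := Finset P → ℝ

variable {P : Type} [Fintype P] [DecidableEq P]

/-- the coefficients -/
def co (f : Alg P) : Finset P → ℝ := f

instance : AddCommGroup (Alg P) := inferInstanceAs (AddCommGroup (Finset P → ℝ))
instance : Module ℝ (Alg P) := inferInstanceAs (Module ℝ (Finset P → ℝ))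
instance : PartialOrder (Alg P) := inferInstanceAs (PartialOrder (Finset P → ℝ))
instance : TopologicalSpace (Alg P) := inferInstanceAs (TopologicalSpace (Finset P → ℝ))
instance : T2Space (Alg P) := inferInstanceAs (T2Space (Finset P → ℝ))
instance : ContinuousAdd (Alg P) := inferInstanceAs (ContinuousAdd (Finset P → ℝ))
instance : ContinuousSub (Alg P) := inferInstanceAs (ContinuousSub (Finset P → ℝ))
instance : ContinuousConstSMul ℝ (Alg P) := inferInstanceAs (ContinuousConstSMul ℝ (Finset P → ℝ))

instance : Mul (Alg P) := ⟨fun f g => (fun C => ∑ B ∈ C.powerset, co f B * co g (C \ B) :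
  Finset P → ℝ)⟩
instance : One (Alg P) := ⟨(fun A => if A = ∅ then 1 else 0 : Finset P → ℝ)⟩

namespace Alg

lemma ext' {f g : Alg P} (h : ∀ A, co f A = co g A) : f = g := funext h
lemma add_co (f g : Alg P) (A : Finset P) : co (f + g) A = co f A + co g A := rfl
lemma sub_co (f g : Alg P) (A : Finset P) : co (f - g) A = co f A - co g A := rfl
lemma zero_co (A : Finset P) : co (0 : Alg P) A = 0 := rfl
lemma smul_co (c : ℝ) (f : Alg P) (A : Finset P) : co (c • f) A = c * co f A := rfl
lemma one_co (A : Finset P) : co (1 : Alg P) A = if A = ∅ then 1 else 0 := rfl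
lemma mul_co (f g : Alg P) (C : Finset P) :
    co (f * g) C = ∑ B ∈ C.powerset, co f B * co g (C \ B) := rfl
lemma le_def {f g : Alg P} : f ≤ g ↔ ∀ A, co f A ≤ co g A := Iff.rfl

protected lemma mul_comm' (f g : Alg P) : f * g = g * f := by
  refine ext' fun C => ?_
  rw [mul_co, mul_co]
  refine sum_nbij' (fun B => C \ B) (fun B => C \ B) ?_ ?_ ?_ ?_ ?_
  · intro B _; exact mem_powerset.2 sdiff_subset
  · intro B _; exact mem_powerset.2 sdiff_subset
  · intro B hB; exact Finset.sdiff_sdiff_eq_self (mem_powerset.1 hB)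
  · intro B hB; exact Finset.sdiff_sdiff_eq_self (mem_powerset.1 hB)
  · intro B hB
    rw [Finset.sdiff_sdiff_eq_self (mem_powerset.1 hB), mul_comm]

protected lemma mul_assoc' (f g h : Alg P) : f * g * h = f * (g * h) := by
  refine ext' fun C => ?_
  rw [mul_co, mul_co]
  simp only [mul_co, sum_mul, mul_sum]
  rw [sum_sigma', sum_sigma']
  refine sum_nbij' (fun p => ⟨p.2, p.1 \ p.2⟩) (fun p => ⟨p.1 ∪ p.2, p.1⟩) ?_ ?_ ?_ ?_ ?_
  · rintro ⟨B, A⟩ hp
    simp only [mem_sigma, mem_powerset] at hp ⊢
    exact ⟨hp.2.trans hp.1, sdiff_subset_sdiff hp.1 subset_rfl⟩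
  · rintro ⟨A, D⟩ hp
    simp only [mem_sigma, mem_powerset] at hp ⊢
    exact ⟨union_subset hp.1 (hp.2.trans sdiff_subset), subset_union_left⟩
  · rintro ⟨B, A⟩ hp
    simp only [mem_sigma, mem_powerset] at hp ⊢
    rw [union_sdiff_of_subset hp.2]
  · rintro ⟨A, D⟩ hp
    simp only [mem_sigma, mem_powerset] at hp ⊢
    have : (A ∪ D) \ A = D := by
      rw [union_sdiff_left]
      exact sdiff_eq_self_of_disjoint (disjoint_of_subset_left hp.2 sdiff_disjoint)
    rw [this]
  · rintro ⟨B, A⟩ hp
    simp only [mem_sigma, mem_powerset] at hp ⊢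
    have : (C \ A) \ (B \ A) = C \ B := by
      ext a
      simp only [mem_sdiff]
      constructor
      · rintro ⟨⟨h1, h2⟩, h3⟩
        exact ⟨h1, fun h => h3 ⟨h, h2⟩⟩
      · rintro ⟨h1, h2⟩
        exact ⟨⟨h1, fun h => h2 (hp.2 h)⟩, fun h => h2 h.1⟩
    rw [this, mul_assoc]

protected lemma one_mul' (f : Alg P) : 1 * f = f := by
  refine ext' fun C => ?_
  rw [mul_co, sum_eq_single ∅]
  · rw [one_co, if_pos rfl, one_mul, sdiff_empty]
  · intro B _ hB
    rw [one_co, if_neg hB, zero_mul]
  · intro h
    exact absurd (empty_mem_powerset C) h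

instance : CommRing (Alg P) :=
  { (inferInstance : AddCommGroup (Alg P)), (inferInstance : Mul (Alg P)),
    (inferInstance : One (Alg P)) with
    left_distrib := fun f g h => ext' fun C => by
      simp only [mul_co, add_co, mul_add, sum_add_distrib]
    right_distrib := fun f g h => ext' fun C => by
      simp only [mul_co, add_co, add_mul, sum_add_distrib]
    zero_mul := fun f => ext' fun C => by
      simp only [mul_co, zero_co, zero_mul, sum_const_zero]
    mul_zero := fun f => ext' fun C => by
      simp only [mul_co, zero_co, mul_zero, sum_const_zero]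
    mul_assoc := Alg.mul_assoc'
    one_mul := Alg.one_mul'
    mul_one := fun f => by rw [Alg.mul_comm', Alg.one_mul']
    mul_comm := Alg.mul_comm' }

instance : Algebra ℝ (Alg P) := Algebra.ofModule
  (fun c f g => ext' fun C => by
    simp only [mul_co, smul_co, mul_sum, mul_assoc])
  (fun c f g => ext' fun C => by
    simp only [mul_co, smul_co, mul_sum]
    exact sum_congr rfl fun B _ => by ring)

instance : IsOrderedRing (Alg P) where
  add_le_add_left f g h k := le_def.2 fun A => by
    have := le_def.1 h A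
    rw [add_co, add_co]
    linarith
  zero_le_one := le_def.2 fun A => by
    rw [zero_co, one_co]
    split_ifs <;> norm_num
  mul_le_mul_of_nonneg_left f hf g h hgh := le_def.2 fun C => by
    rw [mul_co, mul_co]
    exact sum_le_sum fun B _ => mul_le_mul_of_nonneg_left (le_def.1 hgh _) (le_def.1 hf _)
  mul_le_mul_of_nonneg_right f hf g h hgh := le_def.2 fun C => by
    rw [mul_co, mul_co]
    exact sum_le_sum fun B _ => mul_le_mul_of_nonneg_right (le_def.1 hgh _) (le_def.1 hf _)

lemma continuous_co (A : Finset P) : Continuous fun f : Alg P => co f A := continuous_apply A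

instance : ContinuousMul (Alg P) := ⟨by
  refine continuous_pi fun C => ?_
  refine continuous_finsetSum _ fun B _ => ?_
  exact ((continuous_co B).comp continuous_fst).mul ((continuous_co (C \ B)).comp continuous_snd)⟩

lemma smul_nonneg' {c : ℝ} (hc : 0 ≤ c) {f : Alg P} (hf : 0 ≤ f) : 0 ≤ c • f :=
  le_def.2 fun A => by
  rw [zero_co, smul_co]
  exact mul_nonneg hc (le_def.1 hf A)

lemma smul_le_smul' {c : ℝ} (hc : 0 ≤ c) {f g : Alg P} (h : f ≤ g) : c • f ≤ c • g :=
  le_def.2 fun A => by
  rw [smul_co, smul_co]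
  exact mul_le_mul_of_nonneg_left (le_def.1 h A) hc

lemma smul_le_smul_r {c c' : ℝ} (hc : c ≤ c') {f : Alg P} (h : 0 ≤ f) : c • f ≤ c' • f :=
  le_def.2 fun A => by
  rw [smul_co, smul_co]
  exact mul_le_mul_of_nonneg_right hc (le_def.1 h A)

lemma sum_co {ι : Type} (s : Finset ι) (f : ι → Alg P) (A : Finset P) :
    co (∑ i ∈ s, f i) A = ∑ i ∈ s, co (f i) A := Finset.sum_apply A s f

/-- total mass -/
def tot (f : Alg P) : ℝ := ∑ A : Finset P, co f A

lemma tot_add (f g : Alg P) : tot (f + g) = tot f + tot g := by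
  simp only [tot, add_co, sum_add_distrib]

lemma tot_sub (f g : Alg P) : tot (f - g) = tot f - tot g := by
  simp only [tot, sub_co, sum_sub_distrib]

lemma tot_smul (c : ℝ) (f : Alg P) : tot (c • f) = c * tot f := by
  simp only [tot, smul_co, mul_sum]

lemma tot_sum {ι : Type} (s : Finset ι) (f : ι → Alg P) :
    tot (∑ i ∈ s, f i) = ∑ i ∈ s, tot (f i) := by
  simp only [tot, sum_co]
  rw [sum_comm]

lemma tot_one : tot (1 : Alg P) = 1 := by
  simp only [tot, one_co]
  rw [sum_ite_eq' univ ∅ fun _ => (1 : ℝ), if_pos (mem_univ _)]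

lemma tot_nonneg {f : Alg P} (hf : 0 ≤ f) : 0 ≤ tot f := sum_nonneg fun A _ => le_def.1 hf A

lemma tot_mono {f g : Alg P} (h : f ≤ g) : tot f ≤ tot g := sum_le_sum fun A _ => le_def.1 h A

lemma co_le_tot {f : Alg P} (hf : 0 ≤ f) (A : Finset P) : co f A ≤ tot f :=
  single_le_sum (f := fun B => co f B) (fun B _ => le_def.1 hf B) (mem_univ A)

lemma tot_mul_le {f g : Alg P} (hf : 0 ≤ f) (hg : 0 ≤ g) : tot (f * g) ≤ tot f * tot g := by
  simp only [tot, mul_co]
  rw [sum_sigma', sum_mul_sum, ← sum_product']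
  have h1 : ∑ p ∈ (univ : Finset (Finset P)).sigma fun C => C.powerset,
      co f p.2 * co g (p.1 \ p.2) =
      ∑ q ∈ ((univ : Finset (Finset P)).sigma fun C => C.powerset).image
        (fun p => (p.2, p.1 \ p.2)), co f q.1 * co g q.2 := by
    rw [sum_image]
    rintro ⟨C, B⟩ h ⟨C', B'⟩ h' he
    simp only [Prod.mk.injEq] at he
    obtain ⟨rfl, he⟩ := he
    simp only [coe_sigma, Set.mem_sigma_iff, mem_coe, mem_powerset] at h h'
    have e1 : C = C \ B ∪ B := (sdiff_union_of_subset h.2).symm
    have e2 : C' = C' \ B ∪ B := (sdiff_union_of_subset h'.2).symm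
    rw [he, ← e2] at e1
    rw [e1]
  rw [h1]
  refine sum_le_sum_of_subset_of_nonneg (fun _ _ => ?_) fun q _ _ =>
    mul_nonneg (le_def.1 hf _) (le_def.1 hg _)
  exact mem_product.2 ⟨mem_univ _, mem_univ _⟩

lemma tot_prod_le {ι : Type} (s : Finset ι) {f : ι → Alg P} (hf : ∀ i, 0 ≤ f i) :
    tot (∏ i ∈ s, f i) ≤ ∏ i ∈ s, tot (f i) := by
  classical
  induction s using Finset.induction_on with
  | empty => rw [prod_empty, prod_empty, tot_one]
  | insert c s hc ih =>
    rw [prod_insert hc, prod_insert hc]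
    refine (tot_mul_le (hf c) (prod_nonneg fun i _ => hf i)).trans ?_
    exact mul_le_mul_of_nonneg_left ih (tot_nonneg (hf c))

/-- point mass -/
def dl (D : Finset P) : Alg P := (fun A => if A = D then 1 else 0 : Finset P → ℝ)

lemma dl_co (D A : Finset P) : co (dl D) A = if A = D then 1 else 0 := rfl

lemma dl_nonneg (D : Finset P) : (0 : Alg P) ≤ dl D := le_def.2 fun A => by
  rw [zero_co, dl_co]
  split_ifs <;> norm_num

lemma tot_dl (D : Finset P) : tot (dl D) = 1 := by
  simp only [tot, dl_co]
  rw [sum_ite_eq' univ D fun _ => (1 : ℝ), if_pos (mem_univ _)]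

lemma dl_mul {c : P} {A : Finset P} (h : c ∉ A) : dl {c} * dl A = dl (insert c A) := by
  refine ext' fun C => ?_
  rw [mul_co]
  simp only [dl_co]
  by_cases hC : C = insert c A
  · rw [if_pos hC, sum_eq_single {c}]
    · rw [if_pos rfl, one_mul, if_pos]
      rw [hC, sdiff_singleton_eq_erase, erase_insert h]
    · intro B _ hB
      rw [if_neg hB, zero_mul]
    · intro h'
      exfalso
      apply h'
      rw [mem_powerset, singleton_subset_iff, hC]
      exact mem_insert_self c A
  · rw [if_neg hC]
    refine sum_eq_zero fun B hB => ?_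
    by_cases h1 : B = {c}
    · rw [if_pos h1, one_mul, if_neg]
      intro h2
      apply hC
      rw [mem_powerset] at hB
      rw [← union_sdiff_of_subset hB, h2, h1]
      rfl
    · rw [if_neg h1, zero_mul]

lemma prod_dl (A : Finset P) : ∏ a ∈ A, dl {a} = dl A := by
  induction A using Finset.induction_on with
  | empty => rfl
  | insert c A hc ih => rw [prod_insert hc, ih, dl_mul hc]

end Alg

end Pool.Agent.T6.H6.PE
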