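import Pool.Agent.TH235.PP.Spec

/-!
# Consequences of the trace bound for the spectrum
-/

set_option autoImplicit false
set_option linter.unusedSectionVars false

namespace Pool.Agent.T6.H6.PE

open Finset Filter Topology Pool.Agent.TH235.PP
open scoped Matrix

section Real
variable {ι : Type} [Fintype ι]

lemma one_add_pow_sub {x : ℝ} (h0 : 0 ≤ x) (h2 : x ≤ 2) (M : ℕ) :
    (1 + x) ^ M - 1 ≤ M * x * 3 ^ M := by
  induction M with
  | zero => simp
  | succ M ih =>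
    have h1 : (1 + x) ^ M ≤ 3 ^ M := pow_le_pow_left₀ (by linarith) (by linarith) M
    have h3 : (0 : ℝ) ≤ 3 ^ M := by positivity
    have h4 : (0 : ℝ) ≤ M := Nat.cast_nonneg M
    rw [pow_succ, pow_succ]
    push_cast
    have h5 : x * (1 + x) ^ M ≤ x * 3 ^ M := mul_le_mul_of_nonneg_left h1 h0
    have h6 : 0 ≤ (M : ℝ) * x * 3 ^ M := by positivity
    have h7 : 0 ≤ x * 3 ^ M := by positivity
    nlinarith

/-- the bound for the sums of powers -/
def TB (lam : ι → ℝ) (E s₀ : ℝ) (M : ℕ) : Prop :=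
  ∀ s : ℝ, 0 ≤ s → s ≤ s₀ → ∀ m : ℕ,
    ∑ j, (1 - s * (lam j - E)) ^ (2 * m) ≤ (1 + 2 * (1 - s / 2) ^ (2 * m)) ^ M

variable {lam : ι → ℝ} {E s₀ : ℝ} {M : ℕ}

lemma sq_pow_nonneg (x : ℝ) (m : ℕ) : 0 ≤ x ^ (2 * m) := by
  rw [pow_mul]
  positivity

lemma TB.ge (h : TB lam E s₀ M) (hs : 0 < s₀) (j : ι) : E ≤ lam j := by
  by_contra hcon
  push Not at hcon
  set s := min s₀ 1 with hs'
  have hs0 : 0 < s := lt_min hs one_pos
  set q := 1 - s * (lam j - E) with hq
  have hq1 : 1 < q ^ 2 := by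
    have : 1 < q := by rw [hq]; nlinarith
    nlinarith
  obtain ⟨m, hm⟩ := pow_unbounded_of_one_lt ((3 : ℝ) ^ M) hq1
  have h1 := h s hs0.le (min_le_left _ _) m
  have h2 : q ^ (2 * m) ≤ ∑ j, (1 - s * (lam j - E)) ^ (2 * m) :=
    single_le_sum (f := fun j => (1 - s * (lam j - E)) ^ (2 * m))
      (fun i _ => sq_pow_nonneg _ m) (mem_univ j)
  have h3 : (1 + 2 * (1 - s / 2) ^ (2 * m)) ^ M ≤ 3 ^ M := by
    have h4 : (1 - s / 2) ^ (2 * m) ≤ 1 := pow_le_one₀ (by
      have : s ≤ 1 := min_le_right _ _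
      linarith) (by linarith)
    have h5 := sq_pow_nonneg (1 - s / 2) m
    exact pow_le_pow_left₀ (by linarith) (by linarith) M
  rw [pow_mul] at h2
  linarith

lemma TB.gap (h : TB lam E s₀ M) (hs : 0 < s₀) {j₀ : ι} (h0 : lam j₀ = E) {j : ι} (hj : j ≠ j₀) :
    E + 1 / 2 ≤ lam j := by
  classical
  by_contra hcon
  push Not at hcon
  set s := min s₀ 1 with hs'
  have hs0 : 0 < s := lt_min hs one_pos
  have hs1 : s ≤ 1 := min_le_right _ _
  set q := 1 - s * (lam j - E) with hq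
  set p := 1 - s / 2 with hp
  have hp0 : 0 < p := by linarith
  have hp1 : p ≤ 1 := by linarith
  have hpq : p < q := by rw [hp, hq]; nlinarith
  have hr : 1 < (q / p) ^ 2 := by
    have : 1 < q / p := by rwa [lt_div_iff₀ hp0, one_mul]
    nlinarith
  obtain ⟨m, hm⟩ := pow_unbounded_of_one_lt ((M : ℝ) * 2 * 3 ^ M) hr
  have h1 := h s hs0.le (min_le_left _ _) m
  have h2 : 1 + q ^ (2 * m) ≤ ∑ j, (1 - s * (lam j - E)) ^ (2 * m) := by
    have h3 : ∑ i ∈ {j₀, j}, (1 - s * (lam i - E)) ^ (2 * m) ≤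
        ∑ j, (1 - s * (lam j - E)) ^ (2 * m) :=
      sum_le_sum_of_subset_of_nonneg (subset_univ _) fun i _ _ => sq_pow_nonneg _ m
    rw [sum_pair hj.symm, h0, sub_self, mul_zero, sub_zero, one_pow] at h3
    exact h3
  have h5 : p ^ (2 * m) ≤ 1 := pow_le_one₀ hp0.le hp1
  have h6 := sq_pow_nonneg p m
  have h3 := one_add_pow_sub (x := 2 * p ^ (2 * m)) (by positivity) (by linarith) M
  have h7 : q ^ (2 * m) ≤ M * 2 * 3 ^ M * p ^ (2 * m) := by nlinarith
  rw [← pow_mul, div_pow, lt_div_iff₀ (by positivity)] at hm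
  linarith

lemma TB.partition (h : TB lam E s₀ M) (hs : 0 < s₀) {β : ℝ} (hβ : 0 ≤ β) :
    ∑ j, Real.exp (-(β * (lam j - E))) ≤ (1 + 2 * Real.exp (-(β / 2))) ^ M := by
  have hlim : ∀ y : ℝ, Tendsto (fun m : ℕ => (1 + y / ((2 * m : ℕ) : ℝ)) ^ (2 * m)) atTop
      (𝓝 (Real.exp y)) := by
    intro y
    have h1 := Real.tendsto_one_add_div_pow_exp y
    exact h1.comp (tendsto_atTop_mono (fun m : ℕ => (by omega : m ≤ 2 * m)) tendsto_id)
  have h1 : Tendsto (fun m : ℕ => ∑ j, (1 + -(β * (lam j - E)) / ((2 * m : ℕ) : ℝ)) ^ (2 * m))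
      atTop (𝓝 (∑ j, Real.exp (-(β * (lam j - E))))) :=
    tendsto_finsetSum _ fun j _ => hlim _
  have h2 : Tendsto (fun m : ℕ => (1 + 2 * (1 + -(β / 2) / ((2 * m : ℕ) : ℝ)) ^ (2 * m)) ^ M)
      atTop (𝓝 ((1 + 2 * Real.exp (-(β / 2))) ^ M)) :=
    (((hlim _).const_mul 2).const_add 1).pow M
  refine le_of_tendsto_of_tendsto h1 h2 ?_
  obtain ⟨m₀, hm₀⟩ := exists_nat_gt (β / s₀)
  filter_upwards [eventually_ge_atTop (max m₀ 1)] with m hm
  have hm1 : m₀ ≤ m := (le_max_left _ _).trans hm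
  have hm2 : 1 ≤ m := (le_max_right _ _).trans hm
  have hm3 : (m₀ : ℝ) ≤ m := by exact_mod_cast hm1
  have hm4 : (1 : ℝ) ≤ m := by exact_mod_cast hm2
  have h2m : (0 : ℝ) < ((2 * m : ℕ) : ℝ) := by push_cast; linarith
  have h3 := h (β / ((2 * m : ℕ) : ℝ)) (by positivity) (by
    rw [div_le_iff₀ h2m]
    rw [div_lt_iff₀ hs] at hm₀
    push_cast
    nlinarith) m
  have e1 : ∀ j, 1 + -(β * (lam j - E)) / ((2 * m : ℕ) : ℝ) =
      1 - β / ((2 * m : ℕ) : ℝ) * (lam j - E) := fun j => by ring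
  have e2 : 1 + -(β / 2) / ((2 * m : ℕ) : ℝ) = 1 - β / ((2 * m : ℕ) : ℝ) / 2 := by ring
  simp only [e1, e2]
  exact h3

end Real

section Mat
variable {n : Type} [Fintype n] [DecidableEq n]

lemma trace_pow {H : Matrix n n ℂ} (hH : H.IsHermitian) (E s : ℝ) (m : ℕ) :
    (((1 : Matrix n n ℂ) - (s : ℂ) • (H - (E : ℂ) • (1 : Matrix n n ℂ))) ^ m).trace =
      ((∑ j, (1 - s * (hH.eigenvalues j - E)) ^ m : ℝ) : ℂ) := by
  set φ := Unitary.conjStarAlgAut ℂ (Matrix n n ℂ) hH.eigenvectorUnitary with hφ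
  have h1 : H = φ (Matrix.diagonal (RCLike.ofReal ∘ hH.eigenvalues)) := hH.spectral_theorem
  set f : n → ℂ := fun j => ((1 - s * (hH.eigenvalues j - E) : ℝ) : ℂ) with hf
  have h2 : Matrix.diagonal f = (1 : Matrix n n ℂ) - (s : ℂ) •
      (Matrix.diagonal (RCLike.ofReal ∘ hH.eigenvalues) - (E : ℂ) • (1 : Matrix n n ℂ)) := by
    ext i j
    by_cases hij : i = j
    · subst hij
      simp [hf]
    · simp [hij]
  have h3 : φ (Matrix.diagonal f) =
      (1 : Matrix n n ℂ) - (s : ℂ) • (H - (E : ℂ) • (1 : Matrix n n ℂ)) := by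
    rw [h2, map_sub, map_one, map_smul, map_sub, map_smul, map_one, ← h1]
  have h4 : ∀ Y : Matrix n n ℂ, (φ Y).trace = Y.trace := by
    intro Y
    rw [hφ, Unitary.conjStarAlgAut_apply, Matrix.trace_mul_cycle]
    have : star (hH.eigenvectorUnitary : Matrix n n ℂ) * (hH.eigenvectorUnitary : Matrix n n ℂ) =
        1 := Unitary.coe_star_mul_self _
    rw [this, one_mul]
  rw [← h3, ← map_pow, h4, Matrix.diagonal_pow, Matrix.trace_diagonal]
  push_cast
  refine sum_congr rfl fun j _ => ?_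
  simp [hf]

/-- the trace bound gives a gap -/
theorem gapped {H : Matrix n n ℂ} (hH : H.IsHermitian) {E s₀ : ℝ} {M : ℕ} (hs : 0 < s₀)
    (h : TB hH.eigenvalues E s₀ M) {φ : n → ℂ} (hφ : φ ≠ 0) (hE : H *ᵥ φ = (E : ℂ) • φ) :
    IsGappedGround H (1 / 2) φ := by
  set b := hH.eigenvectorBasis with hb
  have hAb : ∀ j, H *ᵥ (b j).ofLp = (hH.eigenvalues j : ℂ) • (b j).ofLp := by
    intro j
    have := hH.mulVec_eigenvectorBasis j
    rw [this]
    rfl
  -- components of an eigenvector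
  have hcomp : ∀ (E' : ℝ) (x : n → ℂ), H *ᵥ x = (E' : ℂ) • x → ∀ j,
      (hH.eigenvalues j : ℂ) * ip (b j).ofLp x = (E' : ℂ) * ip (b j).ofLp x := by
    intro E' x hx j
    have e1 : ip (b j).ofLp (H *ᵥ x) = (E' : ℂ) * ip (b j).ofLp x := by
      rw [hx]
      unfold ip
      rw [mul_sum]
      refine sum_congr rfl fun s _ => ?_
      rw [Pi.smul_apply, smul_eq_mul]
      ring
    have e2 : ip (b j).ofLp (H *ᵥ x) = ip (H *ᵥ (b j).ofLp) x := by
      unfold ip
      simp only [Matrix.mulVec, dotProduct, map_sum, map_mul, mul_sum, sum_mul]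
      rw [sum_comm]
      refine sum_congr rfl fun s _ => sum_congr rfl fun t _ => ?_
      have : (starRingEnd ℂ) (H s t) = H t s := by
        have := congrFun (congrFun hH t) s
        rw [Matrix.conjTranspose_apply] at this
        exact this
      rw [this]
      ring
    rw [← e1, e2, hAb]
    unfold ip
    rw [mul_sum]
    refine sum_congr rfl fun s _ => ?_
    rw [Pi.smul_apply, smul_eq_mul, map_mul, Complex.conj_ofReal]
    ring
  have hexp : ∀ x : n → ℂ, x = ∑ j, ip (b j).ofLp x • (b j).ofLp := by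
    intro x
    have h1 := b.sum_repr' (WithLp.toLp 2 x)
    have h2 := congrArg (fun z : EuclideanSpace ℂ n => z.ofLp) h1
    simp only [WithLp.ofLp_sum, WithLp.ofLp_smul] at h2
    conv_lhs => rw [← h2]
    refine sum_congr rfl fun j _ => ?_
    rw [ip_eq]
  have hne : ∀ (E' : ℝ) (x : n → ℂ), x ≠ 0 → H *ᵥ x = (E' : ℂ) • x → ∃ j,
      hH.eigenvalues j = E' := by
    intro E' x hx0 hx
    by_contra hcon
    push Not at hcon
    apply hx0
    rw [hexp x]
    refine sum_eq_zero fun j _ => ?_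
    have h1 := hcomp E' x hx j
    have h2 : ((hH.eigenvalues j : ℂ) - E') * ip (b j).ofLp x = 0 := by
      rw [sub_mul, h1, sub_self]
    rcases mul_eq_zero.1 h2 with h3 | h3
    · exfalso
      apply hcon j
      have := sub_eq_zero.1 h3
      exact_mod_cast this
    · rw [h3, zero_smul]
  obtain ⟨j₀, hj₀⟩ := hne E φ hφ hE
  have hone : ∀ x : n → ℂ, H *ᵥ x = (E : ℂ) • x → x = ip (b j₀).ofLp x • (b j₀).ofLp := by
    intro x hx
    conv_lhs => rw [hexp x]
    refine sum_eq_single j₀ (fun j _ hj => ?_) fun h => absurd (mem_univ _) h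
    have h1 := hcomp E x hx j
    have h2 := h.gap hs hj₀ hj
    have h3 : ((hH.eigenvalues j : ℂ) - E) * ip (b j).ofLp x = 0 := by
      rw [sub_mul, h1, sub_self]
    rcases mul_eq_zero.1 h3 with h4 | h4
    · exfalso
      have h5 := sub_eq_zero.1 h4
      have h6 : hH.eigenvalues j = E := by exact_mod_cast h5
      linarith
    · rw [h4, zero_smul]
  refine ⟨E, hE, fun x hx => ?_, fun E' x hx0 hx => ?_⟩
  · have h1 := hone x hx
    have h2 := hone φ hE
    have h3 : ip (b j₀).ofLp φ ≠ 0 := by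
      intro h3
      rw [h3, zero_smul] at h2
      exact hφ h2
    refine ⟨ip (b j₀).ofLp x / ip (b j₀).ofLp φ, ?_⟩
    rw [h1, h2, smul_smul]
    congr 1
    rw [← h2, ← h1]
    field_simp
  · obtain ⟨j, hj⟩ := hne E' x hx0 hx
    by_cases h1 : j = j₀
    · left
      rw [← hj, h1, hj₀]
    · right
      rw [← hj]
      exact h.gap hs hj₀ h1

end Mat

end Pool.Agent.T6.H6.PE
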