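import Pool.Agent.T6.H6.PE.Sup

/-!
# The bound of the trace
-/

set_option autoImplicit false
set_option linter.unusedSectionVars false

namespace Pool.Agent.T6.H6.PE

open Finset Alg Filter Topology

variable {P : Type} [Fintype P] [DecidableEq P] {Γ : Type} [Fintype Γ]

lemma QQ_union (k : P → Alg P) (l : ℝ) {A B : Finset P} (h : Disjoint A B) :
    QQ k l (A ∪ B) = QQ k l A * QQ k l B := prod_union h

/-- the absolute values of the entries of the local operators -/
structure Maj (X : Γ → Finset P) (w : Γ → Finset P → Finset P → ℝ) (R : Γ → Finset P → ℝ) :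
    Prop where
  nonneg : ∀ x A B, 0 ≤ w x A B
  struct : ∀ x A B, w x A B = if A \ X x ⊆ B then w x (A ∩ X x) (B \ (A \ X x)) else 0
  vac : ∀ x B, w x ∅ B = 0
  le : ∀ x τ C, τ ⊆ X x → w x τ C ≤ R x C

variable {X : Γ → Finset P} {w : Γ → Finset P → Finset P → ℝ} {R : Γ → Finset P → ℝ}

lemma Maj.R_nonneg (h : Maj X w R) (x : Γ) (C : Finset P) : 0 ≤ R x C :=
  (h.nonneg x ∅ C).trans (h.le x ∅ C (empty_subset _))

lemma W_sum (h : Maj X w R) {k : P → Alg P} (hk : ∀ a, 0 ≤ k a) {l : ℝ} (hl : 0 ≤ l) (x : Γ)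
    (A : Finset P) : ∑ C, w x A C • QQ k l C ≤
      ∑ a ∈ A ∩ X x, (∑ C, R x C • QQ k l C) * QQ k l (A.erase a) := by
  have hnn : 0 ≤ ∑ C, R x C • QQ k l C :=
    sum_nonneg fun C _ => smul_nonneg' (h.R_nonneg x C) (QQ_nonneg hk hl C)
  rcases (A ∩ X x).eq_empty_or_nonempty with he | ⟨a, ha⟩
  · rw [he, sum_empty]
    refine le_of_eq (sum_eq_zero fun C _ => ?_)
    rw [h.struct, he]
    split_ifs
    · rw [h.vac, zero_smul]
    · rw [zero_smul]
  · set D := A \ X x with hD
    have h1 : ∑ C, w x A C • QQ k l C = ∑ C ∈ univ.filter (fun C => D ⊆ C),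
        (w x (A ∩ X x) (C \ D) • QQ k l (C \ D)) * QQ k l D := by
      rw [sum_filter]
      refine sum_congr rfl fun C _ => ?_
      rw [h.struct, ← hD]
      by_cases hC : D ⊆ C
      · rw [if_pos hC, if_pos hC, smul_mul_assoc, ← QQ_union k l sdiff_disjoint,
          sdiff_union_of_subset hC]
      · rw [if_neg hC, if_neg hC, zero_smul]
    have h2 : ∑ C ∈ univ.filter (fun C => D ⊆ C),
        (w x (A ∩ X x) (C \ D) • QQ k l (C \ D)) * QQ k l D =
        ∑ C' ∈ (univ.filter (fun C => D ⊆ C)).image (fun C => C \ D),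
          (w x (A ∩ X x) C' • QQ k l C') * QQ k l D := by
      rw [sum_image]
      intro B hB B' hB' he
      rw [coe_filter, Set.mem_ofPred_eq] at hB hB'
      simp only at he
      have h3 : B = B \ D ∪ D := (sdiff_union_of_subset hB.2).symm
      have h4 : B' = B' \ D ∪ D := (sdiff_union_of_subset hB'.2).symm
      rw [h3, he, ← h4]
    have h3 : ∑ C' ∈ (univ.filter (fun C => D ⊆ C)).image (fun C => C \ D),
          (w x (A ∩ X x) C' • QQ k l C') * QQ k l D ≤
        (∑ C, R x C • QQ k l C) * QQ k l D := by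
      rw [sum_mul]
      refine (sum_le_sum_of_subset_of_nonneg (subset_univ _) fun C _ _ => ?_).trans
        (sum_le_sum fun C _ => ?_)
      · exact mul_nonneg (smul_nonneg' (h.nonneg _ _ _) (QQ_nonneg hk hl C)) (QQ_nonneg hk hl D)
      · exact mul_le_mul_of_nonneg_right (smul_le_smul_r (h.le x _ C inter_subset_right)
          (QQ_nonneg hk hl C)) (QQ_nonneg hk hl D)
    have h4 : QQ k l D ≤ QQ k l (A.erase a) := by
      refine QQ_mono_A hk hl ?_
      intro b hb
      rw [hD, Finset.mem_sdiff] at hb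
      refine mem_erase.2 ⟨?_, hb.1⟩
      rintro rfl
      exact hb.2 (mem_inter.1 ha).2
    rw [h1, h2]
    refine (h3.trans (mul_le_mul_of_nonneg_left h4 hnn)).trans ?_
    exact single_le_sum (f := fun a => (∑ C, R x C • QQ k l C) * QQ k l (A.erase a))
      (fun b _ => mul_nonneg hnn (QQ_nonneg hk hl _)) ha

lemma step (h : Maj X w R) {ε : ℝ} (hε : 0 ≤ ε)
    (hρ : ∀ a, ε * ∑ x ∈ univ.filter (fun x => a ∈ X x), ∑ C : Finset P, R x C * 3 ^ C.card ≤
      1 / 2) {k : P → Alg P} (hk : ∀ a, 0 ≤ k a) (hfix : PhiK X R ε k = k) {l : ℝ} (hl : 0 ≤ l)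
    (hl1 : l ≤ 1) {s : ℝ} (hs : 0 ≤ s) (hs1 : s ≤ 1) (A : Finset P) :
    (1 - s * A.card) • QQ k l A + (s * ε) • ∑ x, ∑ C, w x A C • QQ k l C ≤
      QQ k (l * (1 - s / 2)) A := by
  set x : P → Alg P := fun a => 1 + l • k a with hx
  set y : P → Alg P := fun a => (l / 2) • k a with hy
  set r : P → Alg P := fun a =>
    ε • ∑ x ∈ univ.filter (fun x => a ∈ X x), ∑ C, R x C • QQ k l C with hr
  have hxy : ∀ a, x a - s • y a = 1 + (l * (1 - s / 2)) • k a := by
    intro a
    rw [hx, hy]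
    simp only
    rw [smul_smul, add_sub_assoc, ← sub_smul]
    congr 2
    ring
  have hR := h.R_nonneg
  -- the rate
  have hr1 : ∀ a, r a ≤ x a - y a := by
    intro a
    have e1 : r a ≤ ε • ∑ x ∈ univ.filter (fun x => a ∈ X x), ∑ C : Finset P,
        (R x C • (1 : Alg P) + l • (R x C • (QQ k 1 C - 1))) := by
      refine smul_le_smul' hε (sum_le_sum fun z _ => sum_le_sum fun C _ => ?_)
      have e2 := QQ_sub_one hk hl hl1 C
      have e3 : QQ k l C ≤ 1 + l • (QQ k 1 C - 1) := by
        have := add_le_add_right e2 1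
        rwa [add_comm 1 (QQ k l C - 1), sub_add_cancel] at this
      refine (smul_le_smul' (hR z C) e3).trans (le_of_eq ?_)
      rw [smul_add, smul_comm l (R z C)]
    have e4 : ε • ∑ x ∈ univ.filter (fun x => a ∈ X x), ∑ C : Finset P,
        (R x C • (1 : Alg P) + l • (R x C • (QQ k 1 C - 1))) =
        (ε * ∑ x ∈ univ.filter (fun x => a ∈ X x), ∑ C : Finset P, R x C) • (1 : Alg P) +
          (l / 2) • ((2 * ε) • ∑ x ∈ univ.filter (fun x => a ∈ X x), ∑ C : Finset P,
            R x C • (QQ k 1 C - 1)) := by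
      simp only [sum_add_distrib, ← smul_sum, ← sum_smul]
      rw [smul_add, smul_smul, smul_smul, smul_smul]
      congr 2
      ring
    have e5 : (2 * ε) • ∑ x ∈ univ.filter (fun x => a ∈ X x), ∑ C : Finset P,
        R x C • (QQ k 1 C - 1) ≤ k a := by
      have := congrFun hfix a
      rw [PhiK] at this
      rw [← this]
      exact le_add_of_nonneg_left (dl_nonneg _)
    have e6 : ε * ∑ x ∈ univ.filter (fun x => a ∈ X x), ∑ C : Finset P, R x C ≤ 1 := by
      have e7 : ∑ x ∈ univ.filter (fun x => a ∈ X x), ∑ C : Finset P, R x C ≤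
          ∑ x ∈ univ.filter (fun x => a ∈ X x), ∑ C : Finset P, R x C * 3 ^ C.card := by
        refine sum_le_sum fun z _ => sum_le_sum fun C _ => ?_
        have : (1 : ℝ) ≤ 3 ^ C.card := one_le_pow₀ (by norm_num)
        nlinarith [hR z C]
      have := mul_le_mul_of_nonneg_left e7 hε
      linarith [hρ a]
    rw [e4] at e1
    have e8 : (ε * ∑ x ∈ univ.filter (fun x => a ∈ X x), ∑ C : Finset P, R x C) • (1 : Alg P) ≤
        1 := by
      have := smul_le_smul_r e6 (zero_le_one : (0 : Alg P) ≤ 1)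
      rwa [one_smul] at this
    have e9 : x a - y a = 1 + (l / 2) • k a := by
      rw [hx, hy]
      simp only
      rw [add_sub_assoc, ← sub_smul]
      congr 2
      ring
    rw [e9]
    exact e1.trans (add_le_add e8 (smul_le_smul' (by positivity) e5))
  -- all terms
  have h1 : ∑ x, ∑ C, w x A C • QQ k l C ≤ ∑ a ∈ A, (∑ x ∈ univ.filter (fun x => a ∈ X x),
      ∑ C, R x C • QQ k l C) * QQ k l (A.erase a) := by
    refine (sum_le_sum fun z _ => W_sum h hk hl z A).trans (le_of_eq ?_)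
    have e1 : ∀ z, ∑ a ∈ A ∩ X z, (∑ C, R z C • QQ k l C) * QQ k l (A.erase a) =
        ∑ a ∈ A, if a ∈ X z then (∑ C, R z C • QQ k l C) * QQ k l (A.erase a) else 0 := by
      intro z
      rw [← sum_filter, ← filter_mem_eq_inter]
    simp only [e1]
    rw [sum_comm]
    refine sum_congr rfl fun a _ => ?_
    rw [← sum_filter, sum_mul]
  have h2 : (A.card : ℝ) • QQ k l A = ∑ a ∈ A, x a * QQ k l (A.erase a) := by
    have e1 : ∀ a ∈ A, x a * QQ k l (A.erase a) = QQ k l A := by
      intro a ha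
      exact mul_prod_erase A x ha
    rw [sum_congr rfl e1, sum_const, ← Nat.cast_smul_eq_nsmul ℝ]
  have h3 : (s * ε) • ∑ x, ∑ C, w x A C • QQ k l C ≤ s • ∑ a ∈ A, r a * QQ k l (A.erase a) := by
    rw [mul_smul]
    refine smul_le_smul' hs ((smul_le_smul' hε h1).trans (le_of_eq ?_))
    rw [smul_sum]
    refine sum_congr rfl fun a _ => ?_
    rw [hr]
    simp only
    rw [smul_mul_assoc]
  have h4 : ∑ a ∈ A, y a * QQ k l (A.erase a) ≤ ∑ a ∈ A, (x a - r a) * QQ k l (A.erase a) := by
    refine sum_le_sum fun a _ => mul_le_mul_of_nonneg_right ?_ (QQ_nonneg hk hl _)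
    exact le_sub_comm.1 (hr1 a)
  have h5 := bern x y hs (fun a => smul_nonneg' (by positivity) (hk a)) (fun a => by
    rw [hxy a]
    refine one_add_nonneg hk ?_ a
    have : 0 ≤ 1 - s / 2 := by linarith
    positivity) A
  calc (1 - s * A.card) • QQ k l A + (s * ε) • ∑ x, ∑ C, w x A C • QQ k l C
      ≤ (1 - s * A.card) • QQ k l A + s • ∑ a ∈ A, r a * QQ k l (A.erase a) :=
        add_le_add le_rfl h3
    _ = QQ k l A - s • ∑ a ∈ A, (x a - r a) * QQ k l (A.erase a) := by
        rw [sub_smul, one_smul, mul_smul, h2]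
        simp only [sub_mul, sum_sub_distrib, smul_sub]
        abel
    _ ≤ QQ k l A - s • ∑ a ∈ A, y a * QQ k l (A.erase a) :=
        sub_le_sub_left (smul_le_smul' hs h4) _
    _ ≤ ∏ a ∈ A, (x a - s • y a) := h5
    _ = QQ k (l * (1 - s / 2)) A := prod_congr rfl fun a _ => hxy a

/-- the matrix which dominates one time step -/
noncomputable def Kh (w : Γ → Finset P → Finset P → ℝ) (ε s : ℝ) :
    Matrix (Finset P) (Finset P) ℝ := fun A B =>
  (if A = B then 1 - s * A.card else 0) + s * ε * ∑ x, w x A B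

lemma Kh_pow (h : Maj X w R) {ε : ℝ} (hε : 0 ≤ ε)
    (hρ : ∀ a, ε * ∑ x ∈ univ.filter (fun x => a ∈ X x), ∑ C : Finset P, R x C * 3 ^ C.card ≤
      1 / 2) {k : P → Alg P} (hk : ∀ a, 0 ≤ k a) (hfix : PhiK X R ε k = k) {s : ℝ} (hs : 0 ≤ s)
    (hs1 : s ≤ 1) (hsP : s * Fintype.card P ≤ 1) (n : ℕ) (A B : Finset P) :
    (Kh w ε s ^ n) A B ≤ co (QQ k ((1 - s / 2) ^ n) A) B := by
  induction n generalizing A with
  | zero =>
    rw [pow_zero, pow_zero, Matrix.one_apply]
    have h1 : dl A ≤ QQ k 1 A := by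
      rw [← prod_dl]
      refine prod_le_prod (fun a _ => dl_nonneg _) fun a _ => ?_
      have h2 : dl {a} ≤ k a := by
        have := congrFun hfix a
        rw [PhiK] at this
        rw [← this]
        refine le_add_of_nonneg_right (smul_nonneg' (by positivity) ?_)
        refine sum_nonneg fun x _ => sum_nonneg fun C _ => smul_nonneg' (h.R_nonneg x C) ?_
        exact sub_nonneg.2 (one_le_QQ hk zero_le_one C)
      rw [one_smul]
      exact h2.trans (le_add_of_nonneg_left zero_le_one)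
    have h2 := le_def.1 h1 B
    rw [dl_co] at h2
    refine le_trans (le_of_eq ?_) h2
    exact if_congr eq_comm rfl rfl
  | succ n ih =>
    have hl0 : (0 : ℝ) ≤ (1 - s / 2) ^ n := pow_nonneg (by linarith) n
    have hl1 : (1 - s / 2) ^ n ≤ 1 := pow_le_one₀ (by linarith) (by linarith)
    have hKnn : ∀ C, 0 ≤ Kh w ε s A C := by
      intro C
      refine add_nonneg ?_ (mul_nonneg (by positivity) (sum_nonneg fun x _ => h.nonneg x A C))
      split_ifs
      · have : (A.card : ℝ) ≤ Fintype.card P := by exact_mod_cast card_le_univ A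
        nlinarith
      · exact le_rfl
    rw [pow_succ', Matrix.mul_apply]
    calc ∑ C, Kh w ε s A C * (Kh w ε s ^ n) C B
        ≤ ∑ C, Kh w ε s A C * co (QQ k ((1 - s / 2) ^ n) C) B :=
          sum_le_sum fun C _ => mul_le_mul_of_nonneg_left (ih C) (hKnn C)
      _ = co (∑ C, Kh w ε s A C • QQ k ((1 - s / 2) ^ n) C) B := by
          rw [sum_co]
          rfl
      _ = co ((1 - s * A.card) • QQ k ((1 - s / 2) ^ n) A +
            (s * ε) • ∑ x, ∑ C, w x A C • QQ k ((1 - s / 2) ^ n) C) B := by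
          congr 1
          simp only [Kh, add_smul, sum_add_distrib]
          congr 1
          · have : ∀ C : Finset P, (if A = C then 1 - s * (A.card : ℝ) else 0) •
                QQ k ((1 - s / 2) ^ n) C =
                if A = C then (1 - s * (A.card : ℝ)) • QQ k ((1 - s / 2) ^ n) C else 0 := by
              intro C
              split_ifs <;> simp
            simp only [this]
            rw [sum_ite_eq univ A, if_pos (mem_univ _)]
          · rw [sum_comm, smul_sum]
            refine sum_congr rfl fun C _ => ?_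
            rw [mul_smul, ← sum_smul]
      _ ≤ co (QQ k ((1 - s / 2) ^ (n + 1)) A) B := by
          rw [pow_succ]
          exact le_def.1 (step h hε hρ hk hfix hl0 hl1 hs hs1 A) B

lemma trace_QQ {k : P → Alg P} (hk : ∀ a, 0 ≤ k a) (ht : ∀ a, tot (k a) ≤ 2) {l : ℝ}
    (hl : 0 ≤ l) : ∑ A, co (QQ k l A) A ≤ (1 + 2 * l) ^ Fintype.card P := by
  have h1 : ∀ A : Finset P, QQ k l A = ∑ U ∈ A.powerset, ∏ a ∈ U, l • k a := fun A =>
    prod_one_add _
  have hnn : ∀ U : Finset P, 0 ≤ ∏ a ∈ U, l • k a := fun U =>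
    prod_nonneg fun a _ => smul_nonneg' hl (hk a)
  calc ∑ A, co (QQ k l A) A = ∑ A : Finset P, ∑ U ∈ A.powerset, co (∏ a ∈ U, l • k a) A := by
        refine sum_congr rfl fun A _ => ?_
        rw [h1, sum_co]
    _ ≤ ∑ A : Finset P, ∑ U : Finset P, co (∏ a ∈ U, l • k a) A := by
        refine sum_le_sum fun A _ => ?_
        exact sum_le_sum_of_subset_of_nonneg (subset_univ _) fun U _ _ => le_def.1 (hnn U) A
    _ = ∑ U : Finset P, tot (∏ a ∈ U, l • k a) := sum_comm
    _ ≤ ∑ U : Finset P, ∏ a ∈ U, (2 * l) := by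
        refine sum_le_sum fun U _ => ?_
        refine (tot_prod_le U fun a => smul_nonneg' hl (hk a)).trans ?_
        refine prod_le_prod (fun a _ => tot_nonneg (smul_nonneg' hl (hk a))) fun a _ => ?_
        rw [tot_smul]
        nlinarith [ht a]
    _ = (1 + 2 * l) ^ Fintype.card P := by
        have := (prod_one_add (f := fun _ : P => 2 * l) (univ : Finset P)).symm
        rw [powerset_univ, prod_const, card_univ] at this
        exact this

/-- **The bound of the trace.** -/
theorem trace_bound (h : Maj X w R) {ε : ℝ} (hε : 0 ≤ ε)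
    (hρ : ∀ a, ε * ∑ x ∈ univ.filter (fun x => a ∈ X x), ∑ C : Finset P, R x C * 3 ^ C.card ≤
      1 / 2) {s : ℝ} (hs : 0 ≤ s) (hs1 : s ≤ 1) (hsP : s * Fintype.card P ≤ 1)
    (M : Matrix (Finset P) (Finset P) ℂ) (hM : ∀ A B, ‖M A B‖ ≤ Kh w ε s A B) (n : ℕ) :
    ∑ A, ‖(M ^ n) A A‖ ≤ (1 + 2 * (1 - s / 2) ^ n) ^ Fintype.card P := by
  obtain ⟨k, hk, ht, hfix⟩ := exists_k hε h.R_nonneg hρ
  have h1 : ∀ n A B, ‖(M ^ n) A B‖ ≤ (Kh w ε s ^ n) A B := by
    intro n
    induction n with
    | zero =>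
      intro A B
      rw [pow_zero, pow_zero, Matrix.one_apply, Matrix.one_apply]
      split_ifs <;> simp
    | succ n ih =>
      intro A B
      rw [pow_succ, pow_succ, Matrix.mul_apply, Matrix.mul_apply]
      refine (norm_sum_le _ _).trans (sum_le_sum fun C _ => ?_)
      rw [norm_mul]
      exact mul_le_mul (ih A C) (hM C B) (norm_nonneg _) ((norm_nonneg _).trans (ih A C))
  refine (sum_le_sum fun A _ => (h1 n A A).trans (Kh_pow h hε hρ hk hfix hs hs1 hsP n A A)).trans ?_
  exact trace_QQ hk ht (pow_nonneg (by linarith) n)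

end Pool.Agent.T6.H6.PE
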