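import Pool.Agent.T6.H6.PE.Dress
import Pool.Agent.T6.H6.PE.Tr
import Pool.Agent.T6.H6.PE.Sp

/-!
# The trace bound for weakly interacting particles
-/

set_option autoImplicit false
set_option linter.unusedSectionVars false

namespace Pool.Agent.T6.H6.PE

open Finset
open scoped Matrix

variable {P : Type} [Fintype P] [DecidableEq P] {Γ : Type} [Fintype Γ] [AddGroup Γ]

/-- the weights -/
def wt (A : Finset P) : ℝ := 3 ^ A.card

lemma wt_pos (A : Finset P) : 0 < wt A := by unfold wt; positivity

lemma wt_union {A B : Finset P} (h : Disjoint A B) : wt (A ∪ B) = wt A * wt B := by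
  rw [wt, wt, wt, card_union_of_disjoint h, pow_add]

lemma wt_split (A X : Finset P) : wt A = wt (A ∩ X) * wt (A \ X) := by
  rw [← wt_union (disjoint_sdiff_inter A X).symm, union_comm, sdiff_union_inter]

/-- the system in the weighted basis -/
noncomputable def Sys.wtd (sy : Sys P Γ) : Sys P Γ where
  g := sy.g
  X := sy.X
  V := fun x A B => ((wt B / wt A : ℝ) : ℂ) * sy.V x A B
  e := sy.e
  e1 := sy.e1
  eg := sy.eg
  gX := sy.gX
  gV := fun u x A B => by
    have h : ∀ A, wt ((sy.g u).finsetCongr A) = wt A := fun A => by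
      rw [wt, wt, Equiv.finsetCongr_apply, card_map]
    simp only [h]
    rw [sy.gV]
  loc := fun x A B => by
    simp only
    rw [sy.loc x A B]
    split_ifs with h
    · congr 2
      rw [wt_split B (sy.X x), wt_split A (sy.X x), ← h]
      have h1 := wt_pos (A \ sy.X x)
      have h2 := wt_pos (A ∩ sy.X x)
      field_simp
    · rw [mul_zero]
  free := sy.free

lemma norm_wtd (sy : Sys P Γ) {r : ℕ} (hr : ∀ x, (sy.X x).card ≤ r) {v₀ : ℝ} (hv0 : 0 ≤ v₀)
    (hv : ∀ x A B, ‖sy.V x A B‖ ≤ v₀) (x : Γ) :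
    Norm.norm (self := (Matrix.linftyOpNormedAddCommGroup.toNorm : Norm (Op P)))
      (sy.wtd.V x) ≤ 6 ^ r * v₀ := by
  refine norm_le_of_rows _ (by positivity) fun A => ?_
  have h1 : ∀ B, ‖sy.wtd.V x A B‖ ≤ if B \ sy.X x = A \ sy.X x then 3 ^ r * v₀ else 0 := by
    intro B
    by_cases h : B \ sy.X x = A \ sy.X x
    · rw [if_pos h]
      have e1 : sy.wtd.V x A B = ((wt B / wt A : ℝ) : ℂ) * sy.V x A B := rfl
      rw [e1, norm_mul, Complex.norm_real, Real.norm_eq_abs,
        abs_of_nonneg (div_nonneg (wt_pos B).le (wt_pos A).le)]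
      refine mul_le_mul ?_ (hv x A B) (norm_nonneg _) (by positivity)
      rw [div_le_iff₀ (wt_pos A), wt_split B (sy.X x), h]
      have e2 : wt (B ∩ sy.X x) ≤ 3 ^ r := by
        rw [wt]
        exact pow_le_pow_right₀ (by norm_num) ((card_le_card inter_subset_right).trans (hr x))
      have e3 : wt (A \ sy.X x) ≤ wt A := by
        rw [wt, wt]
        exact pow_le_pow_right₀ (by norm_num) (card_le_card sdiff_subset)
      exact mul_le_mul e2 e3 (wt_pos _).le (by positivity)
    · rw [if_neg h, sy.wtd.loc x A B]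
      have : ¬ A \ sy.wtd.X x = B \ sy.wtd.X x := fun h' => h h'.symm
      rw [if_neg this, norm_zero]
  calc ∑ B, ‖sy.wtd.V x A B‖ ≤ ∑ B : Finset P, if B \ sy.X x = A \ sy.X x then 3 ^ r * v₀ else 0 :=
        sum_le_sum fun B _ => h1 B
    _ = (univ.filter fun B : Finset P => B \ sy.X x = A \ sy.X x).card * (3 ^ r * v₀) := by
        rw [← sum_filter, sum_const, nsmul_eq_mul]
    _ ≤ 2 ^ r * (3 ^ r * v₀) := by
        refine mul_le_mul_of_nonneg_right ?_ (by positivity)
        have h2 : (univ.filter fun B : Finset P => B \ sy.X x = A \ sy.X x).card ≤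
            (sy.X x).powerset.card := by
          refine card_le_card_of_injOn (fun B => B ∩ sy.X x) ?_ ?_
          · intro B _
            rw [mem_coe, mem_powerset]
            exact inter_subset_right
          · intro B hB B' hB' he
            rw [mem_coe, mem_filter] at hB hB'
            simp only at he
            rw [← sdiff_union_inter B (sy.X x), ← sdiff_union_inter B' (sy.X x), hB.2, hB'.2, he]
        rw [card_powerset] at h2
        have h3 := h2.trans (Nat.pow_le_pow_right (by norm_num) (hr x))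
        exact_mod_cast h3
    _ = 6 ^ r * v₀ := by
        rw [← mul_assoc, ← mul_pow]; norm_num

lemma card_filter_X (sy : Sys P Γ) {r : ℕ} (hr : ∀ x, (sy.X x).card ≤ r) (a : P) :
    (univ.filter fun x => a ∈ sy.X x).card ≤ r := by
  classical
  have h1 : (univ.filter fun x => a ∈ sy.X x).card ≤ (sy.X 0).card := by
    refine card_le_card_of_injOn (fun x => (sy.g x).symm a) ?_ ?_
    · intro x hx
      rw [mem_coe, mem_filter] at hx
      have h2 := sy.gX x 0
      rw [add_zero] at h2
      have h3 := hx.2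
      rw [h2, Equiv.finsetCongr_apply, mem_map_equiv] at h3
      exact h3
    · intro x _ y _ he
      simp only at he
      set b := (sy.g x).symm a with hb
      have h1 : sy.g x b = a := by rw [hb, Equiv.apply_symm_apply]
      have h2 : sy.g y b = a := by rw [he, Equiv.apply_symm_apply]
      exact sy.free b (h1.trans h2.symm)
  exact h1.trans (hr 0)

/-- the constant in the condition for the strength of the interaction -/
noncomputable def Kr (r : ℕ) : ℝ :=
  6 ^ r * ((4 * r + 1) * Real.exp (6 * r)) + 4 * r * (6 ^ r * (6 ^ r * Real.exp (2 * r)))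

/-- **The similarity transformation and the trace bound.** -/
theorem comb0 (sy : Sys P Γ) {r : ℕ} (hr : ∀ x, (sy.X x).card ≤ r) {v₀ : ℝ} (hv0 : 0 ≤ v₀)
    (hv : ∀ x A B, ‖sy.V x A B‖ ≤ v₀) {ε : ℝ} (hε : |ε| * (v₀ * Kr r) ≤ 1) :
    ∃ (Z Z' : Op P) (E : ℂ), Z * Z' = 1 ∧ Z' * Z = 1 ∧ Z ∅ ∅ = 1 ∧
      (∀ B, (Z * (num sy.e + (ε : ℂ) • ∑ x, sy.V x)) ∅ B = E * Z ∅ B) ∧
      ∀ s : ℝ, 0 ≤ s → s ≤ 1 → s * Fintype.card P ≤ 1 → s * en sy.e univ ≤ 1 → ∀ m : ℕ,
        ∑ A, ‖((Z * ((1 : Op P) - (s : ℂ) • ((num sy.e + (ε : ℂ) • ∑ x, sy.V x) -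
          E • (1 : Op P))) * Z') ^ m) A A‖ ≤ (1 + 2 * (1 - s / 2) ^ m) ^ Fintype.card P := by
  have hr0 : (0 : ℝ) ≤ r := Nat.cast_nonneg r
  set v : ℝ := 6 ^ r * v₀ with hvdef
  have hv0' : 0 ≤ v := by positivity
  have hK1 : |ε| * (v * ((4 * r + 1) * Real.exp (6 * r))) ≤ 1 := by
    refine le_trans ?_ hε
    refine mul_le_mul_of_nonneg_left ?_ (abs_nonneg _)
    rw [hvdef, Kr]
    have : 0 ≤ v₀ * (4 * r * (6 ^ r * (6 ^ r * Real.exp (2 * r)))) := by positivity
    nlinarith
  have hK2 : |ε| * (r * (6 ^ r * (2 * (Real.exp (2 * r) * v)))) ≤ 1 / 2 := by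
    have h1 : 2 * (|ε| * (r * (6 ^ r * (2 * (Real.exp (2 * r) * v))))) ≤ |ε| * (v₀ * Kr r) := by
      rw [← mul_assoc 2, mul_comm 2, mul_assoc]
      refine mul_le_mul_of_nonneg_left ?_ (abs_nonneg _)
      rw [hvdef, Kr]
      have : 0 ≤ v₀ * (6 ^ r * ((4 * r + 1) * Real.exp (6 * r))) := by positivity
      nlinarith
    linarith
  obtain ⟨U, U', E, W, hUU', hU'U, hU1, hconj, hWv, hWc, hWn⟩ :=
    dress (r := (r : ℝ)) (v := v) sy.wtd (fun x => by exact_mod_cast hr x)
      (norm_wtd sy hr hv0 hv) (ε := (ε : ℂ)) (by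
        rw [Complex.norm_real, Real.norm_eq_abs]
        exact hK1)
  set D : Op P := Matrix.diagonal fun A => ((wt A : ℝ) : ℂ) with hD
  set D' : Op P := Matrix.diagonal fun A => (((wt A)⁻¹ : ℝ) : ℂ) with hD'
  have hwt : ∀ A : Finset P, ((wt A : ℝ) : ℂ) ≠ 0 := fun A => by exact_mod_cast (wt_pos A).ne'
  have hDD' : D * D' = 1 := by
    rw [hD, hD', Matrix.diagonal_mul_diagonal, ← Matrix.diagonal_one]
    congr 1
    funext A
    push_cast
    exact mul_inv_cancel₀ (hwt A)
  have hD'D : D' * D = 1 := by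
    rw [hD, hD', Matrix.diagonal_mul_diagonal, ← Matrix.diagonal_one]
    congr 1
    funext A
    push_cast
    exact inv_mul_cancel₀ (hwt A)
  set H : Op P := num sy.e + (ε : ℂ) • ∑ x, sy.V x with hH
  have hHw : D' * H * D = num sy.wtd.e + (ε : ℂ) • ∑ x, sy.wtd.V x := by
    have h1 : D' * num sy.e * D = num sy.wtd.e := by
      rw [hD, hD', num, Matrix.diagonal_mul_diagonal, Matrix.diagonal_mul_diagonal, num]
      congr 1
      funext A
      have := hwt A
      push_cast
      field_simp
      rfl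
    have h2 : ∀ x, D' * sy.V x * D = sy.wtd.V x := by
      intro x
      ext A B
      rw [hD, hD', Matrix.mul_diagonal, Matrix.diagonal_mul]
      have e1 : sy.wtd.V x A B = ((wt B / wt A : ℝ) : ℂ) * sy.V x A B := rfl
      rw [e1]
      push_cast
      ring
    rw [hH, mul_add, add_mul, h1, mul_smul_comm, smul_mul_assoc, mul_sum, sum_mul,
      sum_congr rfl fun x _ => h2 x]
  set W' : Γ → Op P := fun x => D * W x * D' with hW'
  have hW'e : ∀ x A B, W' x A B = ((wt A / wt B : ℝ) : ℂ) * W x A B := by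
    intro x A B
    rw [hW']
    simp only
    rw [hD, hD', Matrix.mul_diagonal, Matrix.diagonal_mul]
    push_cast
    ring
  have hZH : D * U * D' * H * (D * U' * D') = num sy.e + E • (1 : Op P) + (ε : ℂ) • ∑ x, W' x := by
    have h1 : D * U * D' * H * (D * U' * D') = D * (U * (D' * H * D) * U') * D' := by
      noncomm_ring
    have h2 : D * num sy.wtd.e * D' = num sy.e := by
      rw [hD, hD', num, Matrix.diagonal_mul_diagonal, Matrix.diagonal_mul_diagonal, num]
      congr 1
      funext A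
      have := hwt A
      push_cast
      field_simp
      rfl
    rw [h1, hHw, hconj]
    simp only [mul_add, add_mul, mul_smul_comm, smul_mul_assoc, mul_sum, sum_mul, mul_one, h2,
      hDD', hW']
  have hZZ' : D * U * D' * (D * U' * D') = 1 := by
    have : D * U * D' * (D * U' * D') = D * (U * (D' * D) * U') * D' := by noncomm_ring
    rw [this, hD'D, mul_one, hUU', mul_one, hDD']
  have hZ'Z : D * U' * D' * (D * U * D') = 1 := by
    have : D * U' * D' * (D * U * D') = D * (U' * (D' * D) * U) * D' := by noncomm_ring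
    rw [this, hD'D, mul_one, hU'U, mul_one, hDD']
  -- the majorant
  set w : Γ → Finset P → Finset P → ℝ := fun x A B => ‖W' x A B‖ with hw
  have hwe : ∀ x A B, w x A B = wt A / wt B * ‖W x A B‖ := by
    intro x A B
    rw [hw]
    simp only
    rw [hW'e, norm_mul, Complex.norm_real, Real.norm_eq_abs,
      abs_of_nonneg (div_nonneg (wt_pos A).le (wt_pos B).le)]
  set R : Γ → Finset P → ℝ := fun x C => ∑ τ ∈ (sy.X x).powerset, w x τ C with hR
  have hmaj : Maj sy.X w R := by
    refine ⟨fun x A B => norm_nonneg _, fun x A B => ?_, fun x B => ?_, fun x τ C hτ => ?_⟩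
    · have hdis : Disjoint (A ∩ sy.X x) (A \ sy.X x) := (disjoint_sdiff_inter A (sy.X x)).symm
      have hc := hWc x (A \ sy.X x) sdiff_disjoint
      have h1 := struct hc (A ∩ sy.X x) B hdis
      have h2 : A ∩ sy.X x ∪ A \ sy.X x = A := by rw [union_comm, sdiff_union_inter]
      rw [h2] at h1
      rw [hwe, h1]
      split_ifs with h3
      · rw [hwe]
        congr 1
        rw [wt_split A (sy.X x)]
        have h4 : wt B = wt (B \ (A \ sy.X x)) * wt (A \ sy.X x) := by
          rw [← wt_union sdiff_disjoint, sdiff_union_of_subset h3]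
        rw [h4]
        have e1 := wt_pos (A \ sy.X x)
        have e2 := wt_pos (B \ (A \ sy.X x))
        field_simp
      · rw [norm_zero, mul_zero]
    · rw [hwe, hWv, norm_zero, mul_zero]
    · exact single_le_sum (f := fun τ => w x τ C) (fun τ _ => norm_nonneg _) (mem_powerset.2 hτ)
  have hρx : ∀ x, ∑ C : Finset P, R x C * 3 ^ C.card ≤
      6 ^ r * (2 * (Real.exp (2 * r) * v)) := by
    intro x
    have h1 : ∑ C : Finset P, R x C * 3 ^ C.card =
        ∑ τ ∈ (sy.X x).powerset, wt τ * ∑ C : Finset P, ‖W x τ C‖ := by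
      rw [hR]
      simp only [sum_mul]
      rw [sum_comm]
      refine sum_congr rfl fun τ _ => ?_
      rw [mul_sum]
      refine sum_congr rfl fun C _ => ?_
      rw [hwe]
      have h2 : (3 : ℝ) ^ C.card = wt C := rfl
      have h3 := wt_pos C
      rw [h2]
      field_simp
    rw [h1]
    calc ∑ τ ∈ (sy.X x).powerset, wt τ * ∑ C : Finset P, ‖W x τ C‖
        ≤ ∑ _τ ∈ (sy.X x).powerset, 3 ^ r * (2 * (Real.exp (2 * r) * v)) := by
          refine sum_le_sum fun τ hτ => ?_
          rw [mem_powerset] at hτ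
          refine mul_le_mul ?_ ((row_le_norm _ τ).trans (hWn x)) (sum_nonneg fun _ _ => norm_nonneg _)
            (by positivity)
          rw [wt]
          exact pow_le_pow_right₀ (by norm_num) ((card_le_card hτ).trans (hr x))
      _ = (2 ^ (sy.X x).card : ℕ) * (3 ^ r * (2 * (Real.exp (2 * r) * v))) := by
          rw [sum_const, card_powerset, nsmul_eq_mul]
      _ ≤ 2 ^ r * (3 ^ r * (2 * (Real.exp (2 * r) * v))) := by
          refine mul_le_mul_of_nonneg_right ?_ (by positivity)
          have := Nat.pow_le_pow_right (n := 2) (by norm_num) (hr x)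
          exact_mod_cast this
      _ = 6 ^ r * (2 * (Real.exp (2 * r) * v)) := by
          rw [← mul_assoc, ← mul_pow]; norm_num
  have hρ : ∀ a, |ε| * ∑ x ∈ univ.filter (fun x => a ∈ sy.X x), ∑ C : Finset P,
      R x C * 3 ^ C.card ≤ 1 / 2 := by
    intro a
    refine le_trans (mul_le_mul_of_nonneg_left ?_ (abs_nonneg _)) hK2
    calc ∑ x ∈ univ.filter (fun x => a ∈ sy.X x), ∑ C : Finset P, R x C * 3 ^ C.card
        ≤ ∑ _x ∈ univ.filter (fun x => a ∈ sy.X x), 6 ^ r * (2 * (Real.exp (2 * r) * v)) :=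
          sum_le_sum fun x _ => hρx x
      _ = (univ.filter (fun x => a ∈ sy.X x)).card * (6 ^ r * (2 * (Real.exp (2 * r) * v))) := by
          rw [sum_const, nsmul_eq_mul]
      _ ≤ r * (6 ^ r * (2 * (Real.exp (2 * r) * v))) := by
          refine mul_le_mul_of_nonneg_right ?_ (by positivity)
          exact_mod_cast card_filter_X sy hr a
  refine ⟨D * U * D', D * U' * D', E, hZZ', hZ'Z, ?_, ?_, ?_⟩
  · rw [hD, hD', Matrix.mul_diagonal, Matrix.diagonal_mul, hU1]
    have : wt (∅ : Finset P) = 1 := by rw [wt, card_empty, pow_zero]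
    rw [this]
    norm_num
  · intro B
    have h1 : D * U * D' * H = (num sy.e + E • (1 : Op P) + (ε : ℂ) • ∑ x, W' x) *
        (D * U * D') := by
      rw [← hZH, mul_assoc (D * U * D' * H) (D * U' * D') (D * U * D'), hZ'Z, mul_one]
    rw [h1, Matrix.mul_apply]
    have h2 : ∀ C, (num sy.e + E • (1 : Op P) + (ε : ℂ) • ∑ x, W' x) ∅ C =
        if ∅ = C then E else 0 := by
      intro C
      rw [Matrix.add_apply, Matrix.add_apply, Matrix.smul_apply, Matrix.smul_apply,
        Matrix.sum_apply]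
      have h3 : ∑ x, W' x ∅ C = 0 := sum_eq_zero fun x _ => by rw [hW'e, hWv, mul_zero]
      have h4 : num sy.e ∅ C = 0 := by
        rw [num, Matrix.diagonal_apply]
        split_ifs
        · simp [en]
        · rfl
      rw [h3, h4, Matrix.one_apply]
      split_ifs <;> simp
    simp only [h2, ite_mul, zero_mul]
    rw [sum_ite_eq univ ∅, if_pos (mem_univ _)]
  · intro s hs hs1 hsP hse m
    refine trace_bound hmaj (abs_nonneg ε) hρ hs hs1 hsP _ (fun A B => ?_) m
    have h1 : D * U * D' * ((1 : Op P) - (s : ℂ) • (H - E • (1 : Op P))) * (D * U' * D') =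
        (1 : Op P) - (s : ℂ) • (num sy.e + (ε : ℂ) • ∑ x, W' x) := by
      have h2 : D * U * D' * ((1 : Op P) - (s : ℂ) • (H - E • (1 : Op P))) * (D * U' * D') =
          D * U * D' * (D * U' * D') - (s : ℂ) • (D * U * D' * H * (D * U' * D') -
            E • (D * U * D' * (D * U' * D'))) := by
        simp only [mul_sub, sub_mul, mul_one, mul_smul_comm, smul_mul_assoc, smul_sub]
      rw [h2, hZZ', hZH]
      congr 2
      abel
    rw [h1, Matrix.sub_apply, Matrix.smul_apply, Matrix.add_apply, Matrix.smul_apply,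
      Matrix.sum_apply, Kh, num, Matrix.one_apply, Matrix.diagonal_apply]
    have hen : en sy.e A ≤ en sy.e univ := sum_le_sum_of_subset_of_nonneg (subset_univ _)
      fun a _ _ => by linarith [sy.e1 a]
    have hen1 := card_le_en sy.e1 A
    have hAc : (0 : ℝ) ≤ A.card := Nat.cast_nonneg _
    have h3 : ‖(if A = B then (1 : ℂ) else 0) - (s : ℂ) • ((if A = B then ((en sy.e A : ℝ) : ℂ)
        else 0) + (ε : ℂ) • ∑ x, W' x A B)‖ ≤
        ‖(if A = B then ((1 - s * en sy.e A : ℝ) : ℂ) else 0)‖ +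
          ‖((s * ε : ℝ) : ℂ) * ∑ x, W' x A B‖ := by
      refine le_trans (le_of_eq ?_) (norm_sub_le _ _)
      congr 1
      simp only [smul_eq_mul]
      push_cast
      split_ifs <;> ring
    refine h3.trans (add_le_add ?_ ?_)
    · split_ifs
      · rw [Complex.norm_real, Real.norm_eq_abs, abs_of_nonneg (by nlinarith)]
        nlinarith
      · rw [norm_zero]
    · rw [norm_mul, Complex.norm_real, Real.norm_eq_abs, abs_mul, abs_of_nonneg hs]
      refine mul_le_mul_of_nonneg_left ?_ (by positivity)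
      exact norm_sum_le _ _

end Pool.Agent.T6.H6.PE
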