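import Pool.Agent.T6.H6.PE.Comb

/-!
# The trace bound on the physical space
-/

set_option autoImplicit false
set_option linter.unusedSectionVars false

namespace Pool.Agent.T6.H6.PE

open Finset Pool.Agent.TH235.PP
open scoped Matrix

variable {P : Type} [Fintype P] [DecidableEq P] {n : Type} [Fintype n] [DecidableEq n]

lemma sub_pow {enc : n → Finset P} (hinj : Function.Injective enc) {T : Op P}
    (hT : ∀ i B, (∀ j, enc j ≠ B) → T (enc i) B = 0) (m : ℕ) (i j : n) :
    (T ^ m) (enc i) (enc j) = ((T.submatrix enc enc) ^ m) i j := by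
  induction m generalizing i with
  | zero =>
    rw [pow_zero, pow_zero, Matrix.one_apply, Matrix.one_apply]
    exact if_congr hinj.eq_iff rfl rfl
  | succ m ih =>
    rw [pow_succ', pow_succ', Matrix.mul_apply, Matrix.mul_apply]
    have h1 : ∑ B, T (enc i) B * (T ^ m) B (enc j) =
        ∑ B ∈ univ.image enc, T (enc i) B * (T ^ m) B (enc j) := by
      symm
      refine sum_subset (subset_univ _) fun B _ hB => ?_
      rw [hT i B, zero_mul]
      intro l hl
      exact hB (mem_image.2 ⟨l, mem_univ _, hl⟩)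
    rw [h1, sum_image fun a _ b _ h => hinj h]
    refine sum_congr rfl fun l _ => ?_
    rw [ih, Matrix.submatrix_apply]

lemma diag_sq_nonneg {K : Op P} (hK : K.IsHermitian) (m : ℕ) (A : Finset P) :
    0 ≤ ((K ^ (2 * m)) A A).re := by
  have h1 : K ^ (2 * m) = K ^ m * (K ^ m).conjTranspose := by
    rw [Matrix.conjTranspose_pow, hK.eq, ← pow_add, two_mul]
  rw [h1, Matrix.mul_apply, Complex.re_sum]
  refine sum_nonneg fun B _ => ?_
  rw [Matrix.conjTranspose_apply, RCLike.star_def, Complex.mul_conj]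
  rw [Complex.ofReal_re]
  exact Complex.normSq_nonneg _

/-- **The spectral consequences on the physical space.** -/
theorem comb1 {H Z Z' : Op P} {E : ℂ} (hH : H.IsHermitian) (hZZ : Z * Z' = 1) (hZZ' : Z' * Z = 1)
    (hZ1 : Z ∅ ∅ = 1) (hrow : ∀ B, (Z * H) ∅ B = E * Z ∅ B) {s₀ : ℝ} (hs0 : 0 < s₀) {M : ℕ}
    (htr : ∀ s : ℝ, 0 ≤ s → s ≤ s₀ → ∀ m : ℕ,
      ∑ A, ‖((Z * ((1 : Op P) - (s : ℂ) • (H - E • (1 : Op P))) * Z') ^ m) A A‖ ≤
        (1 + 2 * (1 - s / 2) ^ m) ^ M)
    {enc : n → Finset P} (hinj : Function.Injective enc) {i₀ : n} (hi₀ : enc i₀ = ∅)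
    (henc : ∀ i B, (∀ j, enc j ≠ B) → H (enc i) B = 0)
    (hp : (H.submatrix enc enc).IsHermitian) :
    ∃ (E₀ : ℝ) (φ : n → ℂ), φ ≠ 0 ∧ (H.submatrix enc enc) *ᵥ φ = (E₀ : ℂ) • φ ∧
      TB hp.eigenvalues E₀ s₀ M := by
  set Hp := H.submatrix enc enc with hHp
  have hHe : ∀ A B, (starRingEnd ℂ) (H A B) = H B A := by
    intro A B
    have := congrFun (congrFun hH B) A
    rw [Matrix.conjTranspose_apply] at this
    exact this
  set φ : n → ℂ := fun i => (starRingEnd ℂ) (Z ∅ (enc i)) with hφ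
  have hφ0 : φ i₀ = 1 := by
    rw [hφ]
    simp only
    rw [hi₀, hZ1, map_one]
  have hφne : φ ≠ 0 := fun h => by
    rw [h] at hφ0
    exact zero_ne_one hφ0
  have heig : Hp *ᵥ φ = (starRingEnd ℂ) E • φ := by
    funext i
    rw [Pi.smul_apply, smul_eq_mul, hφ]
    simp only
    rw [← map_mul, ← hrow, Matrix.mul_apply, map_sum, Matrix.mulVec, dotProduct]
    have h1 : ∑ B, (starRingEnd ℂ) (Z ∅ B * H B (enc i)) =
        ∑ B ∈ univ.image enc, (starRingEnd ℂ) (Z ∅ B * H B (enc i)) := by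
      symm
      refine sum_subset (subset_univ _) fun B _ hB => ?_
      rw [map_mul, hHe, henc i B, mul_zero]
      intro l hl
      exact hB (mem_image.2 ⟨l, mem_univ _, hl⟩)
    rw [h1, sum_image fun a _ b _ h => hinj h]
    refine sum_congr rfl fun l _ => ?_
    rw [map_mul, hHe, hHp, Matrix.submatrix_apply, mul_comm]
  have hHpe : ∀ i j, (starRingEnd ℂ) (Hp i j) = Hp j i := fun i j => hHe _ _
  have hreal : (starRingEnd ℂ) E = E := by
    set S : ℂ := ∑ i, (starRingEnd ℂ) (φ i) * φ i with hS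
    have hSr : (starRingEnd ℂ) S = S := by
      rw [hS, map_sum]
      refine sum_congr rfl fun i _ => ?_
      rw [map_mul, Complex.conj_conj, mul_comm]
    have hS0 : S ≠ 0 := by
      have h1 : S = ((∑ i, Complex.normSq (φ i) : ℝ) : ℂ) := by
        rw [hS]
        push_cast
        refine sum_congr rfl fun i _ => ?_
        rw [mul_comm, Complex.mul_conj]
      rw [h1]
      have h2 : 0 < ∑ i, Complex.normSq (φ i) := by
        refine sum_pos' (fun i _ => Complex.normSq_nonneg _) ⟨i₀, mem_univ _, ?_⟩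
        rw [hφ0]; simp
      exact_mod_cast h2.ne'
    have h1 : ∑ i, (starRingEnd ℂ) (φ i) * (Hp *ᵥ φ) i = (starRingEnd ℂ) E * S := by
      rw [heig, hS, mul_sum]
      refine sum_congr rfl fun i _ => ?_
      rw [Pi.smul_apply, smul_eq_mul]
      ring
    have h2 : (starRingEnd ℂ) (∑ i, (starRingEnd ℂ) (φ i) * (Hp *ᵥ φ) i) =
        ∑ i, (starRingEnd ℂ) (φ i) * (Hp *ᵥ φ) i := by
      simp only [Matrix.mulVec, dotProduct, mul_sum, map_sum, map_mul, Complex.conj_conj, hHpe]
      rw [sum_comm]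
      refine sum_congr rfl fun i _ => sum_congr rfl fun j _ => by ring
    rw [h1, map_mul, Complex.conj_conj, hSr] at h2
    exact (mul_right_cancel₀ hS0 h2).symm
  have hEr : ((E.re : ℝ) : ℂ) = E := Complex.conj_eq_iff_re.1 hreal
  refine ⟨E.re, φ, hφne, by rw [heig, hreal, hEr], ?_⟩
  intro s hs hss m
  set K : Op P := (1 : Op P) - (s : ℂ) • (H - E • (1 : Op P)) with hK
  have hKh : K.IsHermitian := by
    have h1 : (K.conjTranspose) = K := by
      rw [hK, Matrix.conjTranspose_sub, Matrix.conjTranspose_one, Matrix.conjTranspose_smul,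
        Matrix.conjTranspose_sub, Matrix.conjTranspose_smul, Matrix.conjTranspose_one, hH.eq]
      have h2 : star E = E := hreal
      have h3 : star (s : ℂ) = (s : ℂ) := Complex.conj_ofReal s
      rw [h2, h3]
    exact h1
  have hKe : ∀ i B, (∀ j, enc j ≠ B) → K (enc i) B = 0 := by
    intro i B hB
    rw [hK, Matrix.sub_apply, Matrix.smul_apply, Matrix.sub_apply, Matrix.smul_apply,
      henc i B hB, Matrix.one_apply, if_neg (hB i)]
    simp
  have hKp : K.submatrix enc enc =
      (1 : Matrix n n ℂ) - (s : ℂ) • (Hp - ((E.re : ℝ) : ℂ) • (1 : Matrix n n ℂ)) := by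
    ext i j
    rw [hEr, Matrix.submatrix_apply, hK]
    simp only [Matrix.sub_apply, Matrix.smul_apply, Matrix.one_apply, hHp,
      Matrix.submatrix_apply, hinj.eq_iff]
  have h1 := trace_pow hp E.re s (2 * m)
  rw [← hKp] at h1
  have h2 : ∑ j, (1 - s * (hp.eigenvalues j - E.re)) ^ (2 * m) =
      ∑ i, ((K ^ (2 * m)) (enc i) (enc i)).re := by
    have h3 := congrArg Complex.re h1
    rw [Complex.ofReal_re] at h3
    rw [← h3, Matrix.trace, Complex.re_sum]
    refine sum_congr rfl fun i _ => ?_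
    rw [Matrix.diag_apply, sub_pow hinj hKe]
  have h3 : ∑ i, ((K ^ (2 * m)) (enc i) (enc i)).re ≤ ∑ A, ((K ^ (2 * m)) A A).re := by
    rw [← sum_image (s := univ) (g := enc) (f := fun A => ((K ^ (2 * m)) A A).re)
      fun a _ b _ h => hinj h]
    exact sum_le_sum_of_subset_of_nonneg (subset_univ _) fun A _ _ => diag_sq_nonneg hKh m A
  have h4 : ∀ k : ℕ, (Z * K * Z') ^ k = Z * K ^ k * Z' := by
    intro k
    induction k with
    | zero => rw [pow_zero, pow_zero, mul_one, hZZ]
    | succ k ih =>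
      rw [pow_succ, ih, pow_succ]
      calc Z * K ^ k * Z' * (Z * K * Z') = Z * K ^ k * (Z' * Z) * K * Z' := by noncomm_ring
        _ = _ := by rw [hZZ', mul_one]; noncomm_ring
  have h5 : (K ^ (2 * m)).trace = ((Z * K * Z') ^ (2 * m)).trace := by
    rw [h4, Matrix.trace_mul_cycle, hZZ', one_mul]
  have h6 : ∑ A, ((K ^ (2 * m)) A A).re ≤ ∑ A, ‖((Z * K * Z') ^ (2 * m)) A A‖ := by
    have h7 : ∑ A, ((K ^ (2 * m)) A A).re = ∑ A, (((Z * K * Z') ^ (2 * m)) A A).re := by
      have := congrArg Complex.re h5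
      rw [Matrix.trace, Matrix.trace, Complex.re_sum, Complex.re_sum] at this
      exact this
    rw [h7]
    exact sum_le_sum fun A _ => Complex.re_le_norm _
  rw [h2]
  exact (h3.trans h6).trans (htr s hs hss (2 * m))

end Pool.Agent.T6.H6.PE
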