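import Pool.Agent.T6.H6.PE.Mm

/-!
# The dressing transformation of Kirkwood and Thomas
-/

set_option autoImplicit false
set_option linter.unusedSectionVars false

namespace Pool.Agent.T6.H6.PE

open NormedSpace Finset
open scoped Matrix.Norms.Operator

section Banach
variable {𝔸 : Type*} [NormedRing 𝔸] [NormedAlgebra ℂ 𝔸] [CompleteSpace 𝔸]

lemma conj_norm (h1 : ‖(1 : 𝔸)‖ ≤ 1) (X V : 𝔸) :
    ‖exp X * V * exp (-X)‖ ≤ Real.exp (2 * ‖X‖) * ‖V‖ := by
  have e1 := norm_exp_le h1 X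
  have e2 := norm_exp_le h1 (-X)
  rw [norm_neg] at e2
  calc ‖exp X * V * exp (-X)‖ ≤ ‖exp X * V‖ * ‖exp (-X)‖ := norm_mul_le _ _
    _ ≤ (‖exp X‖ * ‖V‖) * ‖exp (-X)‖ :=
        mul_le_mul_of_nonneg_right (norm_mul_le _ _) (norm_nonneg _)
    _ ≤ (Real.exp ‖X‖ * ‖V‖) * Real.exp ‖X‖ := by
        refine mul_le_mul (mul_le_mul_of_nonneg_right e1 (norm_nonneg _)) e2 (norm_nonneg _)
          (by positivity)
    _ = Real.exp (2 * ‖X‖) * ‖V‖ := by
        rw [two_mul, Real.exp_add]; ring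

lemma conj_sub_one (h1 : ‖(1 : 𝔸)‖ ≤ 1) (Z V : 𝔸) :
    ‖exp Z * V * exp (-Z) - V‖ ≤ ‖V‖ * (Real.exp (2 * ‖Z‖) - 1) := by
  have e1 := norm_exp_sub_one_le h1 Z
  have e2 := norm_exp_sub_one_le h1 (-Z)
  have e3 := norm_exp_le h1 (-Z)
  rw [norm_neg] at e2 e3
  have h : exp Z * V * exp (-Z) - V = (exp Z - 1) * V * exp (-Z) + V * (exp (-Z) - 1) := by
    noncomm_ring
  have hp : 0 ≤ Real.exp ‖Z‖ - 1 := by
    have := Real.add_one_le_exp ‖Z‖
    have := norm_nonneg Z
    linarith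
  rw [h]
  calc ‖(exp Z - 1) * V * exp (-Z) + V * (exp (-Z) - 1)‖
      ≤ ‖(exp Z - 1) * V * exp (-Z)‖ + ‖V * (exp (-Z) - 1)‖ := norm_add_le _ _
    _ ≤ ((Real.exp ‖Z‖ - 1) * ‖V‖) * Real.exp ‖Z‖ + ‖V‖ * (Real.exp ‖Z‖ - 1) := by
        refine add_le_add ((norm_mul_le _ _).trans ?_) ((norm_mul_le _ _).trans ?_)
        · refine mul_le_mul ((norm_mul_le _ _).trans
            (mul_le_mul_of_nonneg_right e1 (norm_nonneg _))) e3 (norm_nonneg _) (by positivity)
        · exact mul_le_mul_of_nonneg_left e2 (norm_nonneg _)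
    _ = ‖V‖ * (Real.exp (2 * ‖Z‖) - 1) := by
        rw [two_mul, Real.exp_add]; ring

lemma conj_sub (h1 : ‖(1 : 𝔸)‖ ≤ 1) {X Y : 𝔸} (hc : Commute X Y) (V : 𝔸) :
    ‖exp X * V * exp (-X) - exp Y * V * exp (-Y)‖ ≤
      Real.exp (2 * ‖Y‖) * (‖V‖ * (Real.exp (2 * ‖X - Y‖) - 1)) := by
  set Z := X - Y with hZ
  have hYZ : Commute Y Z := hc.symm.sub_right (Commute.refl Y)
  have e1 : exp X = exp Y * exp Z := by
    rw [← exp_add' hYZ, hZ, add_sub_cancel]
  have e2 : exp (-X) = exp (-Z) * exp (-Y) := by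
    have h2 : Commute (-Z) (-Y) := hYZ.symm.neg_left.neg_right
    rw [← exp_add' h2, hZ]
    congr 1
    abel
  have e3 : exp X * V * exp (-X) - exp Y * V * exp (-Y) =
      exp Y * (exp Z * V * exp (-Z) - V) * exp (-Y) := by
    rw [e1, e2]
    noncomm_ring
  rw [e3]
  refine (conj_norm h1 _ _).trans ?_
  exact mul_le_mul_of_nonneg_left (conj_sub_one h1 Z V) (Real.exp_nonneg _)

end Banach

variable {P : Type} [Fintype P] [DecidableEq P] {Γ : Type} [Fintype Γ] [AddGroup Γ]

/-- A translation invariant system of local operators. -/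
structure Sys (P Γ : Type) [Fintype P] [DecidableEq P] [Fintype Γ] [AddGroup Γ] where
  g : Γ → Equiv.Perm P
  X : Γ → Finset P
  V : Γ → Op P
  e : P → ℝ
  e1 : ∀ a, 1 ≤ e a
  eg : ∀ u a, e (g u a) = e a
  gX : ∀ u x, X (u + x) = (g u).finsetCongr (X x)
  gV : ∀ u x A B, V (u + x) ((g u).finsetCongr A) ((g u).finsetCongr B) = V x A B
  loc : ∀ x, IsLoc (X x) (V x)
  free : ∀ a, Function.Injective fun u => g u a

/-- translation invariance -/
def TI (g : Γ → Equiv.Perm P) (S : Finset P → ℂ) : Prop :=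
  ∀ u A, S ((g u).finsetCongr A) = S A

lemma sum_mem_le (g : Γ → Equiv.Perm P) (free : ∀ a, Function.Injective fun u => g u a)
    {S : Finset P → ℂ} (hS : TI g S) (a : P) :
    (Fintype.card Γ : ℝ) * ∑ A ∈ univ.filter (fun A : Finset P => a ∈ A), ‖S A‖ ≤
      ∑ A : Finset P, (A.card : ℝ) * ‖S A‖ := by
  classical
  have h1 : ∀ u : Γ, ∑ A ∈ univ.filter (fun A : Finset P => a ∈ A), ‖S A‖ =
      ∑ A ∈ univ.filter (fun A : Finset P => g u a ∈ A), ‖S A‖ := by
    intro u
    refine sum_nbij' (fun A => (g u).finsetCongr A) (fun A => (g u).finsetCongr.symm A) ?_ ?_ ?_ ?_ ?_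
    · intro A hA
      rw [mem_filter] at hA ⊢
      refine ⟨mem_univ _, ?_⟩
      rw [Equiv.finsetCongr_apply]
      exact mem_map_of_mem _ hA.2
    · intro A hA
      rw [mem_filter] at hA ⊢
      refine ⟨mem_univ _, ?_⟩
      rw [Equiv.finsetCongr_symm, Equiv.finsetCongr_apply, mem_map_equiv]
      simpa using hA.2
    · intro A _
      exact (g u).finsetCongr.symm_apply_apply A
    · intro A _
      exact (g u).finsetCongr.apply_symm_apply A
    · intro A _
      rw [hS]
  calc (Fintype.card Γ : ℝ) * ∑ A ∈ univ.filter (fun A : Finset P => a ∈ A), ‖S A‖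
      = ∑ _u : Γ, ∑ A ∈ univ.filter (fun A : Finset P => a ∈ A), ‖S A‖ := by
        rw [sum_const, card_univ, nsmul_eq_mul]
    _ = ∑ u : Γ, ∑ A ∈ univ.filter (fun A : Finset P => g u a ∈ A), ‖S A‖ :=
        sum_congr rfl fun u _ => h1 u
    _ = ∑ u : Γ, ∑ A : Finset P, if g u a ∈ A then ‖S A‖ else 0 := by
        refine sum_congr rfl fun u _ => ?_
        rw [sum_filter]
    _ = ∑ A : Finset P, ∑ u : Γ, if g u a ∈ A then ‖S A‖ else 0 := sum_comm
    _ ≤ ∑ A : Finset P, (A.card : ℝ) * ‖S A‖ := by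
        refine sum_le_sum fun A _ => ?_
        rw [← sum_filter, sum_const, nsmul_eq_mul]
        refine mul_le_mul_of_nonneg_right ?_ (norm_nonneg _)
        have h2 : ((univ.filter fun u : Γ => g u a ∈ A).image fun u => g u a) ⊆ A := by
          intro b hb
          obtain ⟨u, hu, rfl⟩ := mem_image.1 hb
          exact (mem_filter.1 hu).2
        have h3 := card_le_card h2
        rw [card_image_of_injective _ (free a)] at h3
        exact_mod_cast h3

variable (sy : Sys P Γ)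

/-- the size of `S` -/
noncomputable def size (Γ : Type) [Fintype Γ] (S : Finset P → ℂ) : ℝ :=
  (∑ A : Finset P, (A.card : ℝ) * ‖S A‖) / Fintype.card Γ

lemma norm_cut (g : Γ → Equiv.Perm P) (free : ∀ a, Function.Injective fun u => g u a)
    {S : Finset P → ℂ} (hS : TI g S) (X : Finset P) :
    ‖mm (cut X S)‖ ≤ X.card * size Γ S := by
  have hΓ : (0 : ℝ) < Fintype.card Γ := by
    have : Nonempty Γ := ⟨0⟩
    exact_mod_cast Fintype.card_pos
  refine (norm_mm_le _).trans ?_
  calc ∑ A, ‖cut X S A‖ ≤ ∑ A : Finset P, ∑ a ∈ X, (if a ∈ A then ‖S A‖ else 0) := by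
        refine sum_le_sum fun A _ => ?_
        have hnn : ∀ a ∈ X, (0 : ℝ) ≤ (if a ∈ A then ‖S A‖ else 0) := by
          intro a _
          split_ifs
          · exact norm_nonneg _
          · exact le_rfl
        unfold cut
        by_cases h : Disjoint A X
        · rw [if_pos h, norm_zero]
          exact sum_nonneg hnn
        · rw [if_neg h]
          obtain ⟨a, ha, hX⟩ := not_disjoint_iff.1 h
          have := single_le_sum hnn hX
          rwa [if_pos ha] at this
    _ = ∑ a ∈ X, ∑ A : Finset P, (if a ∈ A then ‖S A‖ else 0) := sum_comm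
    _ ≤ ∑ _a ∈ X, size Γ S := by
        refine sum_le_sum fun a _ => ?_
        rw [← sum_filter, size, le_div_iff₀ hΓ, mul_comm]
        exact sum_mem_le g free hS a
    _ = X.card * size Γ S := by rw [sum_const, nsmul_eq_mul]

/-- the dressed local operators -/
noncomputable def KK (x : Γ) (S : Finset P → ℂ) : Op P :=
  exp (mm (cut (sy.X x) S)) * sy.V x * exp (-(mm (cut (sy.X x) S)))

lemma mm_submatrix (e : Equiv.Perm P) (S : Finset P → ℂ) :
    (mm S).submatrix e.finsetCongr e.finsetCongr = mm fun A => S (e.finsetCongr A) := by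
  ext A B
  rw [Matrix.submatrix_apply, mm, mm]
  simp only [Equiv.finsetCongr_apply]
  rw [← Finset.map_sdiff]
  exact if_congr map_subset_map rfl rfl

lemma cut_congr (e : Equiv.Perm P) (X : Finset P) (S : Finset P → ℂ) (A : Finset P) :
    cut (e.finsetCongr X) S (e.finsetCongr A) = cut X (fun A => S (e.finsetCongr A)) A := by
  unfold cut
  simp only [Equiv.finsetCongr_apply, disjoint_map]

lemma exp_submatrix (e : Finset P ≃ Finset P) (M : Op P) :
    (exp M).submatrix e e = exp (M.submatrix e e) := by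
  have h := map_exp (𝔸 := Op P) (𝔹 := Op P) (Matrix.reindexAlgEquiv ℂ ℂ e.symm)
    (by
      have : Continuous fun M : Op P => M.submatrix e e :=
        continuous_id.matrix_submatrix e e
      exact this) M
  exact h

lemma KK_congr {S : Finset P → ℂ} (hS : TI sy.g S) (u x : Γ) (A B : Finset P) :
    KK sy (u + x) S ((sy.g u).finsetCongr A) ((sy.g u).finsetCongr B) = KK sy x S A B := by
  have hcut : (mm (cut (sy.X (u + x)) S)).submatrix (sy.g u).finsetCongr (sy.g u).finsetCongr =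
      mm (cut (sy.X x) S) := by
    rw [mm_submatrix]
    congr 1
    funext A
    rw [sy.gX, cut_congr]
    congr 1
    funext B
    exact hS u B
  have hV : (sy.V (u + x)).submatrix (sy.g u).finsetCongr (sy.g u).finsetCongr = sy.V x := by
    ext A B
    rw [Matrix.submatrix_apply, sy.gV]
  have hneg : (-(mm (cut (sy.X (u + x)) S))).submatrix (sy.g u).finsetCongr
      (sy.g u).finsetCongr = -(mm (cut (sy.X x) S)) := by
    rw [Matrix.submatrix_neg, Pi.neg_apply, Pi.neg_apply, hcut]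
  have h1 : (KK sy (u + x) S).submatrix (sy.g u).finsetCongr (sy.g u).finsetCongr =
      KK sy x S := by
    unfold KK
    rw [← Matrix.submatrix_mul_equiv _ _ _ (sy.g u).finsetCongr _,
      ← Matrix.submatrix_mul_equiv _ _ _ (sy.g u).finsetCongr _, exp_submatrix, exp_submatrix,
      hcut, hV, hneg]
  rw [← h1, Matrix.submatrix_apply]


/-- the space in which the fixed point is found -/
abbrev EE (P : Type) [Fintype P] : Type := PiLp 1 fun _ : Finset P => ℂ

/-- the amplitudes -/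
noncomputable def toS (sy : Sys P Γ) (y : EE P) : Finset P → ℂ := fun A =>
  (Fintype.card Γ : ℂ) * y A / (en sy.e A : ℂ)

lemma toS_sub (y y' : EE P) : toS sy (y - y') = toS sy y - toS sy y' := by
  funext A
  simp only [toS, PiLp.sub_apply, Pi.sub_apply]
  ring

lemma toS_empty (y : EE P) : toS sy y ∅ = 0 := by
  simp [toS, en]

lemma size_toS (y : EE P) : size Γ (toS sy y) ≤ ‖y‖ := by
  have hΓ : (0 : ℝ) < Fintype.card Γ := by
    have : Nonempty Γ := ⟨0⟩
    exact_mod_cast Fintype.card_pos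
  rw [size, div_le_iff₀ hΓ, PiLp.norm_eq_of_L1, sum_mul]
  refine sum_le_sum fun A _ => ?_
  have hen := card_le_en sy.e1 A
  have hA0 : (0 : ℝ) ≤ A.card := Nat.cast_nonneg _
  rw [toS, norm_div, norm_mul, Complex.norm_natCast, Complex.norm_real, Real.norm_eq_abs,
    abs_of_nonneg (hA0.trans hen)]
  rcases Nat.eq_zero_or_pos A.card with h | h
  · rw [h]
    simp only [Nat.cast_zero, zero_mul]
    positivity
  · have h1 : (0 : ℝ) < en sy.e A := lt_of_lt_of_le (by exact_mod_cast h) hen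
    rw [mul_div_assoc', div_le_iff₀ h1]
    nlinarith [mul_nonneg (norm_nonneg (y A)) hΓ.le]

/-- the map whose fixed point is wanted -/
noncomputable def FF (ε : ℂ) (y : EE P) : EE P := WithLp.toLp 1 fun A =>
  if A = ∅ then 0 else -(ε / Fintype.card Γ) * ∑ x, KK sy x (toS sy y) ∅ A

/-- invariance of `y` -/
def TY (g : Γ → Equiv.Perm P) (y : EE P) : Prop := ∀ u A, y ((g u).finsetCongr A) = y A

lemma TY.ti {sy : Sys P Γ} {y : EE P} (h : TY sy.g y) : TI sy.g (toS sy y) := by
  intro u A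
  simp only [toS]
  have h1 : en sy.e ((sy.g u).finsetCongr A) = en sy.e A := by
    rw [Equiv.finsetCongr_apply, en, sum_map]
    exact sum_congr rfl fun a _ => sy.eg u a
  rw [h u A, h1]

lemma TY.sub {g : Γ → Equiv.Perm P} {y y' : EE P} (h : TY g y) (h' : TY g y') :
    TY g (y - y') := by
  intro u A
  rw [PiLp.sub_apply, PiLp.sub_apply, h u A, h' u A]

lemma FF_ty (ε : ℂ) {y : EE P} (h : TY sy.g y) : TY sy.g (FF sy ε y) := by
  intro u A
  simp only [FF, PiLp.toLp_apply]
  have h1 : (sy.g u).finsetCongr A = ∅ ↔ A = ∅ := by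
    rw [Equiv.finsetCongr_apply, map_eq_empty]
  by_cases hA : A = ∅
  · rw [if_pos hA, if_pos (h1.2 hA)]
  · rw [if_neg hA, if_neg (fun h => hA (h1.1 h))]
    congr 1
    have h2 : (sy.g u).finsetCongr ∅ = (∅ : Finset P) := by
      rw [Equiv.finsetCongr_apply, map_empty]
    have h3 : ∀ x, KK sy (u + x) (toS sy y) ∅ ((sy.g u).finsetCongr A) =
        KK sy x (toS sy y) ∅ A := by
      intro x
      have := KK_congr sy h.ti u x ∅ A
      rwa [h2] at this
    rw [← Equiv.sum_comp (Equiv.addLeft u)]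
    exact sum_congr rfl fun x _ => h3 x

lemma FF_norm_le (ε : ℂ) (y y' : EE P) {c : ℝ}
    (h : ∀ x, ‖KK sy x (toS sy y) - KK sy x (toS sy y')‖ ≤ c) :
    ‖FF sy ε y - FF sy ε y'‖ ≤ ‖ε‖ * c := by
  have hΓ : (0 : ℝ) < Fintype.card Γ := by
    have : Nonempty Γ := ⟨0⟩
    exact_mod_cast Fintype.card_pos
  rw [PiLp.norm_eq_of_L1]
  have h1 : ∀ A : Finset P, ‖(FF sy ε y - FF sy ε y') A‖ ≤ ‖ε‖ / Fintype.card Γ *
      ∑ x, ‖(KK sy x (toS sy y) - KK sy x (toS sy y')) ∅ A‖ := by
    intro A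
    rw [PiLp.sub_apply]
    simp only [FF, PiLp.toLp_apply]
    split_ifs with hA
    · rw [sub_zero, norm_zero]
      positivity
    · rw [← mul_sub, norm_mul, norm_neg, norm_div, Complex.norm_natCast, ← sum_sub_distrib]
      refine mul_le_mul_of_nonneg_left ((norm_sum_le _ _).trans (le_of_eq ?_)) (by positivity)
      rfl
  calc ∑ A, ‖(FF sy ε y - FF sy ε y') A‖
      ≤ ∑ A : Finset P, ‖ε‖ / Fintype.card Γ *
        ∑ x, ‖(KK sy x (toS sy y) - KK sy x (toS sy y')) ∅ A‖ := sum_le_sum fun A _ => h1 A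
    _ = ‖ε‖ / Fintype.card Γ * ∑ x, ∑ A : Finset P,
        ‖(KK sy x (toS sy y) - KK sy x (toS sy y')) ∅ A‖ := by
        rw [← mul_sum, sum_comm]
    _ ≤ ‖ε‖ / Fintype.card Γ * ∑ _x : Γ, c := by
        refine mul_le_mul_of_nonneg_left (sum_le_sum fun x _ => ?_) (by positivity)
        exact (row_le_norm _ ∅).trans (h x)
    _ = ‖ε‖ * c := by
        rw [sum_const, card_univ, nsmul_eq_mul]
        field_simp

lemma FF_norm (ε : ℂ) (y : EE P) {c : ℝ} (h : ∀ x, ‖KK sy x (toS sy y)‖ ≤ c) :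
    ‖FF sy ε y‖ ≤ ‖ε‖ * c := by
  have hΓ : (0 : ℝ) < Fintype.card Γ := by
    have : Nonempty Γ := ⟨0⟩
    exact_mod_cast Fintype.card_pos
  rw [PiLp.norm_eq_of_L1]
  have h1 : ∀ A : Finset P, ‖(FF sy ε y) A‖ ≤ ‖ε‖ / Fintype.card Γ *
      ∑ x, ‖(KK sy x (toS sy y)) ∅ A‖ := by
    intro A
    simp only [FF, PiLp.toLp_apply]
    split_ifs with hA
    · rw [norm_zero]
      positivity
    · rw [norm_mul, norm_neg, norm_div, Complex.norm_natCast]
      exact mul_le_mul_of_nonneg_left (norm_sum_le _ _) (by positivity)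
  calc ∑ A, ‖(FF sy ε y) A‖
      ≤ ∑ A : Finset P, ‖ε‖ / Fintype.card Γ * ∑ x, ‖(KK sy x (toS sy y)) ∅ A‖ :=
        sum_le_sum fun A _ => h1 A
    _ = ‖ε‖ / Fintype.card Γ * ∑ x, ∑ A : Finset P, ‖(KK sy x (toS sy y)) ∅ A‖ := by
        rw [← mul_sum, sum_comm]
    _ ≤ ‖ε‖ / Fintype.card Γ * ∑ _x : Γ, c := by
        refine mul_le_mul_of_nonneg_left (sum_le_sum fun x _ => ?_) (by positivity)
        exact (row_le_norm _ ∅).trans (h x)
    _ = ‖ε‖ * c := by
        rw [sum_const, card_univ, nsmul_eq_mul]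
        field_simp

lemma exp_entry {S : Finset P → ℂ} (hS : S ∅ = 0) : exp (mm S) ∅ ∅ = 1 := by
  have h1 : ∀ n : ℕ, ((mm S) ^ (n + 1)) ∅ ∅ = 0 := by
    intro n
    rw [pow_succ, Matrix.mul_apply]
    refine sum_eq_zero fun C _ => ?_
    rw [mm]
    by_cases h : C ⊆ ∅
    · rw [subset_empty] at h
      subst h
      simp [hS]
    · rw [if_neg h, mul_zero]
  have h2 := (exp_series_hasSum_exp' (𝕂 := ℂ) (mm S)).map
    (Matrix.entryAddHom (m := Finset P) (n := Finset P) ℂ ∅ ∅) (by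
      exact continuous_id.matrix_elem ∅ ∅)
  have h3 := hasSum_single (f := fun n : ℕ => (((n.factorial : ℂ)⁻¹) • (mm S) ^ n) ∅ ∅) 0 (by
    intro n hn
    obtain ⟨m, rfl⟩ := Nat.exists_eq_succ_of_ne_zero hn
    rw [Matrix.smul_apply, Nat.succ_eq_add_one, h1, smul_zero])
  have h4 := h2.unique h3
  refine Eq.trans h4 ?_
  simp

/-- **The dressing transformation.** -/
theorem dress {r v : ℝ} (hr : ∀ x, ((sy.X x).card : ℝ) ≤ r) (hv : ∀ x, ‖sy.V x‖ ≤ v) {ε : ℂ}
    (hε : ‖ε‖ * (v * ((4 * r + 1) * Real.exp (6 * r))) ≤ 1) :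
    ∃ (U U' : Op P) (E : ℂ) (W : Γ → Op P), U * U' = 1 ∧ U' * U = 1 ∧ U ∅ ∅ = 1 ∧
      U * (num sy.e + ε • ∑ x, sy.V x) * U' = num sy.e + E • (1 : Op P) + ε • ∑ x, W x ∧
      (∀ x B, W x ∅ B = 0) ∧ (∀ x D, Disjoint D (sy.X x) → Commute (mm (del D)) (W x)) ∧
      ∀ x, ‖W x‖ ≤ 2 * (Real.exp (2 * r) * v) := by
  have hΓ : (0 : ℝ) < Fintype.card Γ := by
    have : Nonempty Γ := ⟨0⟩
    exact_mod_cast Fintype.card_pos
  have hr0 : 0 ≤ r := (Nat.cast_nonneg _).trans (hr 0)
  have hv0 : 0 ≤ v := (norm_nonneg _).trans (hv 0)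
  have hcut : ∀ y : EE P, TY sy.g y → ∀ x, ‖mm (cut (sy.X x) (toS sy y))‖ ≤ r * ‖y‖ := by
    intro y hy x
    refine (norm_cut sy.g sy.free hy.ti _).trans ?_
    exact mul_le_mul (hr x) (size_toS sy y) (by unfold size; positivity) hr0
  have hK : ∀ y : EE P, TY sy.g y → ‖y‖ ≤ 1 → ∀ x,
      ‖KK sy x (toS sy y)‖ ≤ Real.exp (2 * r) * v := by
    intro y hy hy1 x
    refine (conj_norm norm_one_le _ _).trans ?_
    refine mul_le_mul (Real.exp_le_exp.2 ?_) (hv x) (norm_nonneg _) (Real.exp_nonneg _)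
    have := hcut y hy x
    nlinarith
  have hcutsub : ∀ (y y' : EE P) x, mm (cut (sy.X x) (toS sy y)) - mm (cut (sy.X x) (toS sy y')) =
      mm (cut (sy.X x) (toS sy (y - y'))) := by
    intro y y' x
    rw [← mm_sub, toS_sub sy]
    congr 1
    funext A
    simp only [cut, Pi.sub_apply]
    split_ifs <;> simp
  have hL : ∀ y y' : EE P, TY sy.g y → TY sy.g y' → ‖y‖ ≤ 1 → ‖y'‖ ≤ 1 → ∀ x,
      ‖KK sy x (toS sy y) - KK sy x (toS sy y')‖ ≤
        v * (2 * r * Real.exp (6 * r)) * ‖y - y'‖ := by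
    intro y y' hy hy' h1 h1' x
    refine (conj_sub norm_one_le (mm_comm _ _) _).trans ?_
    rw [hcutsub]
    have e1 := hcut _ (hy.sub hy') x
    have e2 := hcut _ hy' x
    set z := ‖mm (cut (sy.X x) (toS sy (y - y')))‖ with hz
    have hz0 : 0 ≤ z := norm_nonneg _
    have hyy : ‖y - y'‖ ≤ 2 := (norm_sub_le _ _).trans (by linarith)
    have hz1 : z ≤ 2 * r := by nlinarith
    have e3 : Real.exp (2 * z) - 1 ≤ 2 * z * Real.exp (2 * z) := by
      have := Real.add_one_le_exp (-(2 * z))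
      have h2 : Real.exp (-(2 * z)) * Real.exp (2 * z) = 1 := by
        rw [← Real.exp_add]; simp
      nlinarith [Real.exp_pos (2 * z)]
    have e4 : Real.exp (2 * z) ≤ Real.exp (4 * r) := Real.exp_le_exp.2 (by linarith)
    have e5 : Real.exp (2 * ‖mm (cut (sy.X x) (toS sy y'))‖) ≤ Real.exp (2 * r) := by
      refine Real.exp_le_exp.2 ?_
      nlinarith
    have e6 : Real.exp (2 * z) - 1 ≤ 2 * (r * ‖y - y'‖) * Real.exp (4 * r) := by
      refine e3.trans ?_
      exact mul_le_mul (by linarith) e4 (Real.exp_nonneg _) (by positivity)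
    have e7 : 0 ≤ Real.exp (2 * z) - 1 := by
      have := Real.add_one_le_exp (2 * z)
      linarith
    calc Real.exp (2 * ‖mm (cut (sy.X x) (toS sy y'))‖) * (‖sy.V x‖ * (Real.exp (2 * z) - 1))
        ≤ Real.exp (2 * r) * (v * (2 * (r * ‖y - y'‖) * Real.exp (4 * r))) := by
          refine mul_le_mul e5 (mul_le_mul (hv x) e6 e7 hv0) (by positivity) (Real.exp_nonneg _)
      _ = v * (2 * r * Real.exp (6 * r)) * ‖y - y'‖ := by
          rw [show (6 : ℝ) * r = 2 * r + 4 * r by ring, Real.exp_add]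
          ring
  -- the fixed point
  set s : Set (EE P) := {y | ‖y‖ ≤ 1 ∧ TY sy.g y} with hs
  have hcl : IsClosed s := by
    have h1 : IsClosed {y : EE P | ‖y‖ ≤ 1} := isClosed_le continuous_norm continuous_const
    have h2 : IsClosed {y : EE P | TY sy.g y} := by
      have : {y : EE P | TY sy.g y} = ⋂ u : Γ, ⋂ A : Finset P,
          {y : EE P | y ((sy.g u).finsetCongr A) = y A} := by
        ext y
        simp only [TY, Set.mem_iInter, Set.mem_ofPred_eq]
      rw [this]
      refine isClosed_iInter fun u => isClosed_iInter fun A => isClosed_eq ?_ ?_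
      · exact PiLp.continuous_apply 1 _ _
      · exact PiLp.continuous_apply 1 _ _
    exact h1.inter h2
  have hev : ‖ε‖ * (v * ((4 * r + 1) * Real.exp (6 * r))) =
      2 * (‖ε‖ * (v * (2 * r * Real.exp (6 * r)))) + ‖ε‖ * (Real.exp (6 * r) * v) := by ring
  rw [hev] at hε
  have he1 : 0 ≤ ‖ε‖ * (v * (2 * r * Real.exp (6 * r))) := by positivity
  have he2 : 0 ≤ ‖ε‖ * (Real.exp (6 * r) * v) := by positivity
  have hmaps : Set.MapsTo (FF sy ε) s s := by
    intro y hy
    refine ⟨?_, FF_ty sy ε hy.2⟩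
    refine (FF_norm sy ε y (hK y hy.2 hy.1)).trans ?_
    have h1 : Real.exp (2 * r) ≤ Real.exp (6 * r) := Real.exp_le_exp.2 (by linarith)
    have h2 : ‖ε‖ * (Real.exp (2 * r) * v) ≤ ‖ε‖ * (Real.exp (6 * r) * v) :=
      mul_le_mul_of_nonneg_left (mul_le_mul_of_nonneg_right h1 hv0) (norm_nonneg _)
    linarith
  have hcon : ContractingWith (1 / 2) (hmaps.restrict (FF sy ε) s s) := by
    refine ⟨by
      rw [← NNReal.coe_lt_coe]
      push_cast
      norm_num, ?_⟩
    refine LipschitzWith.of_dist_le_mul fun y y' => ?_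
    rw [Subtype.dist_eq, Subtype.dist_eq, Set.MapsTo.val_restrict_apply,
      Set.MapsTo.val_restrict_apply, dist_eq_norm, dist_eq_norm]
    refine (FF_norm_le sy ε y.1 y'.1 (hL y.1 y'.1 y.2.2 y'.2.2 y.2.1 y'.2.1)).trans ?_
    push_cast
    have := norm_nonneg (y.1 - y'.1)
    nlinarith
  obtain ⟨y, hys, hy, -⟩ := hcon.exists_fixedPoint' hcl.isComplete hmaps (x := (0 : EE P))
    ⟨by rw [norm_zero]; norm_num, fun u A => rfl⟩ (edist_ne_top _ _)
  have hy' : FF sy ε y = y := hy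
  set S := toS sy y with hS
  have hST : TI sy.g S := hys.2.ti
  set T : Γ → Finset P → ℂ := fun x A => KK sy x S ∅ A with hT
  set E : ℂ := ε * ∑ x, T x ∅ with hE
  have hNS : (fun A : Finset P => (en sy.e A : ℂ) * S A) = E • del ∅ - ε • ∑ x, T x := by
    funext A
    simp only [Pi.sub_apply, Pi.smul_apply, smul_eq_mul, Finset.sum_apply, del]
    by_cases hA : A = ∅
    · subst hA
      have h0 : en sy.e ∅ = 0 := by simp [en]
      rw [if_pos rfl, h0, Complex.ofReal_zero, zero_mul, mul_one, hE, sub_self]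
    · rw [if_neg hA, mul_zero, zero_sub]
      have h1 : y A = -(ε / Fintype.card Γ) * ∑ x, T x A := by
        conv_lhs => rw [← hy']
        simp only [FF, PiLp.toLp_apply]
        rw [if_neg hA]
      have h2 : (en sy.e A : ℂ) ≠ 0 := by
        have h0 : (0 : ℝ) < A.card := by
          exact_mod_cast card_pos.2 (nonempty_iff_ne_empty.2 hA)
        exact_mod_cast (h0.trans_le (card_le_en sy.e1 A)).ne'
      have h3 : (Fintype.card Γ : ℂ) ≠ 0 := by exact_mod_cast hΓ.ne'
      rw [hS]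
      simp only [toS]
      rw [h1]
      field_simp
  have hconj : ∀ x, exp (mm S) * sy.V x * exp (-(mm S)) = KK sy x S := by
    intro x
    have h1 : mm S = mm (cut (sy.X x) S) + mm (off (sy.X x) S) := by
      rw [← mm_add, cut_add_off]
    have hc := mm_comm (cut (sy.X x) S) (off (sy.X x) S)
    have h2 : exp (mm S) = exp (mm (cut (sy.X x) S)) * exp (mm (off (sy.X x) S)) :=
      (congrArg exp h1).trans (exp_add' hc)
    have h1' : -(mm S) = -(mm (off (sy.X x) S)) + -(mm (cut (sy.X x) S)) := by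
      rw [h1]
      abel
    have h3 : exp (-(mm S)) = exp (-(mm (off (sy.X x) S))) * exp (-(mm (cut (sy.X x) S))) :=
      (congrArg exp h1').trans (exp_add' hc.symm.neg_left.neg_right)
    have h6 : exp (mm (off (sy.X x) S)) * exp (-(mm (off (sy.X x) S))) = 1 := exp_mul_neg _
    have h4 : Commute (mm (off (sy.X x) S)) (sy.V x) := by
      refine comm_loc (sy.loc x) _ fun A hA => ?_
      unfold off at hA
      by_contra h
      rw [if_neg h] at hA
      exact hA rfl
    have h5 : Commute (exp (mm (off (sy.X x) S))) (sy.V x) := by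
      let _ : NormedAlgebra ℚ (Op P) := NormedAlgebra.restrictScalars ℚ ℂ (Op P)
      exact h4.exp_left
    rw [h2, h3, KK]
    calc exp (mm (cut (sy.X x) S)) * exp (mm (off (sy.X x) S)) * sy.V x *
        (exp (-(mm (off (sy.X x) S))) * exp (-(mm (cut (sy.X x) S))))
        = exp (mm (cut (sy.X x) S)) * (exp (mm (off (sy.X x) S)) * sy.V x) *
          exp (-(mm (off (sy.X x) S))) * exp (-(mm (cut (sy.X x) S))) := by noncomm_ring
      _ = exp (mm (cut (sy.X x) S)) * sy.V x * (exp (mm (off (sy.X x) S)) *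
          exp (-(mm (off (sy.X x) S)))) * exp (-(mm (cut (sy.X x) S))) := by
          rw [h5.eq]; noncomm_ring
      _ = _ := by rw [h6, mul_one]
  refine ⟨exp (mm S), exp (-(mm S)), E, fun x => KK sy x S - mm (T x), exp_mul_neg _,
    exp_neg_mul _, exp_entry (toS_empty sy y), ?_, ?_, ?_, ?_⟩
  · have h1 : exp (mm S) * num sy.e * exp (-(mm S)) =
        num sy.e + mm (fun A => (en sy.e A : ℂ) * S A) :=
      exp_conj_eq (mm_num sy.e S) (mm_comm _ _)
    rw [mul_add, add_mul, h1, hNS, mm_sub, mm_smul, mm_smul, mm_sum, mm_del_empty,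
      mul_smul_comm, smul_mul_assoc, mul_sum, sum_mul, sum_congr rfl fun x _ => hconj x,
      sum_sub_distrib, smul_sub]
    abel
  · intro x B
    simp only [Matrix.sub_apply, mm, hT]
    rw [if_pos (empty_subset B), sdiff_empty, sub_self]
  · intro x D hD
    have hc : ∀ R : Finset P → ℂ, Commute (mm (del D)) (mm R) := fun R => mm_comm _ _
    refine Commute.sub_right ?_ (hc _)
    unfold KK
    let _ : NormedAlgebra ℚ (Op P) := NormedAlgebra.restrictScalars ℚ ℂ (Op P)
    refine Commute.mul_right (Commute.mul_right (hc _).exp_right ?_) (hc _).neg_right.exp_right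
    refine comm_loc (sy.loc x) _ fun A hA => ?_
    unfold del at hA
    by_contra h
    rw [if_neg (by rintro rfl; exact h hD)] at hA
    exact hA rfl
  · intro x
    refine (norm_sub_le _ _).trans ?_
    have h1 := hK y hys.2 hys.1 x
    have h2 : ‖mm (T x)‖ ≤ ‖KK sy x S‖ := (norm_mm_le _).trans (row_le_norm _ ∅)
    linarith

end Pool.Agent.T6.H6.PE
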