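import Pool.Agent.T6.H6.PE.Comb2

/-!
# Spin systems on the torus as systems of particles
-/

set_option autoImplicit false
set_option linter.unusedSectionVars false

namespace Pool.Agent.T6.H6.PE

open Finset Pool.Agent.TH235.PP
open scoped Matrix

section Enc
variable {k R L : ℕ} [NeZero L]

/-- the particles: an excited level at a site -/
abbrev Pt (k L : ℕ) : Type := Site L × Fin k

/-- the set of the excitations of a configuration -/
def enc (σ : Site L → Fin (k + 1)) : Finset (Pt k L) := univ.filter fun a => σ a.1 = a.2.succ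

lemma mem_enc (σ : Site L → Fin (k + 1)) (a : Pt k L) : a ∈ enc σ ↔ σ a.1 = a.2.succ := by
  simp [enc]

lemma enc_inj : Function.Injective (enc : (Site L → Fin (k + 1)) → Finset (Pt k L)) := by
  intro σ τ h
  have h1 : ∀ a : Pt k L, σ a.1 = a.2.succ ↔ τ a.1 = a.2.succ := by
    intro a
    rw [← mem_enc, ← mem_enc, h]
  funext v
  rcases Fin.eq_zero_or_eq_succ (σ v) with h2 | ⟨j, h2⟩
  · rcases Fin.eq_zero_or_eq_succ (τ v) with h3 | ⟨j, h3⟩
    · rw [h2, h3]
    · have := (h1 (v, j)).2 h3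
      rw [h3]
      exact this
  · have := (h1 (v, j)).1 h2
    rw [h2]
    exact this.symm

lemma enc_zero : enc (fun _ => 0 : Site L → Fin (k + 1)) = ∅ := by
  ext a
  rw [mem_enc]
  simp only [notMem_empty, iff_false]
  exact (Fin.succ_ne_zero _).symm

/-- the sets of excitations which come from configurations -/
def Phys (A : Finset (Pt k L)) : Prop := ∃ σ, enc σ = A

open Classical in
/-- the configuration -/
noncomputable def dc (A : Finset (Pt k L)) : Site L → Fin (k + 1) :=
  if h : Phys A then h.choose else fun _ => 0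

lemma dc_enc (σ : Site L → Fin (k + 1)) : dc (enc σ) = σ := by
  unfold dc
  have h : Phys (enc σ) := ⟨σ, rfl⟩
  rw [dif_pos h]
  exact enc_inj h.choose_spec

lemma enc_dc {A : Finset (Pt k L)} (h : Phys A) : enc (dc A) = A := by
  obtain ⟨σ, rfl⟩ := h
  rw [dc_enc]

open Classical in
/-- the particles at the sites of the box at `u` -/
noncomputable def XX (k R : ℕ) {L : ℕ} [NeZero L] (u : Site L) : Finset (Pt k L) :=
  univ.filter fun a => ∃ x : Fin R × Fin R, sh u x = a.1

lemma mem_XX (u : Site L) (a : Pt k L) :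
    a ∈ XX k R u ↔ ∃ x : Fin R × Fin R, sh u x = a.1 := by
  simp [XX]

open Classical in
/-- the local operators on the space of all sets of particles -/
noncomputable def VV (h : BoxOp (k + 1) R) (u : Site L) : Op (Pt k L) := fun A B =>
  if A \ XX k R u = B \ XX k R u ∧ Phys (A ∩ XX k R u) ∧ Phys (B ∩ XX k R u) then
    h (fun x => dc (A ∩ XX k R u) (sh u x)) (fun x => dc (B ∩ XX k R u) (sh u x)) else 0

/-- translations -/
def gg (k : ℕ) {L : ℕ} (u : Site L) : Equiv.Perm (Pt k L) :=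
  (Equiv.addLeft u).prodCongr (Equiv.refl (Fin k))

lemma gg_apply (u : Site L) (a : Pt k L) : gg k u a = (u + a.1, a.2) := rfl

lemma gg_symm (u : Site L) (a : Pt k L) : (gg k u).symm a = (-u + a.1, a.2) := rfl

lemma mem_gg (u : Site L) (A : Finset (Pt k L)) (a : Pt k L) :
    a ∈ (gg k u).finsetCongr A ↔ (-u + a.1, a.2) ∈ A := by
  rw [Equiv.finsetCongr_apply, mem_map_equiv, gg_symm]

lemma sh_add (u w : Site L) (x : Fin R × Fin R) : sh (u + w) x = u + sh w x := by
  unfold sh
  ext
  · simp only [Prod.fst_add]; ring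
  · simp only [Prod.snd_add]; ring

lemma gg_X (u w : Site L) : XX k R (u + w) = (gg k u).finsetCongr (XX k R w) := by
  ext a
  rw [mem_gg, mem_XX, mem_XX]
  constructor
  · rintro ⟨x, hx⟩
    refine ⟨x, ?_⟩
    rw [← hx, sh_add]
    exact (neg_add_cancel_left u _).symm
  · rintro ⟨x, hx⟩
    refine ⟨x, ?_⟩
    rw [sh_add, hx]
    exact add_neg_cancel_left u _

lemma gg_enc (u : Site L) (σ : Site L → Fin (k + 1)) :
    (gg k u).finsetCongr (enc σ) = enc fun v => σ (-u + v) := by
  ext a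
  rw [mem_gg, mem_enc, mem_enc]

lemma gg_enc' (u : Site L) (σ : Site L → Fin (k + 1)) :
    (gg k u).finsetCongr (enc fun v => σ (u + v)) = enc σ := by
  rw [gg_enc]
  congr 1
  funext v
  rw [add_neg_cancel_left]

lemma gg_phys (u : Site L) (A : Finset (Pt k L)) : Phys ((gg k u).finsetCongr A) ↔ Phys A := by
  constructor
  · rintro ⟨σ, hσ⟩
    refine ⟨fun v => σ (u + v), ?_⟩
    rw [← gg_enc' u σ] at hσ
    exact (gg k u).finsetCongr.injective hσ
  · rintro ⟨σ, rfl⟩
    exact ⟨_, (gg_enc u σ).symm⟩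

lemma gg_dc (u w : Site L) {A : Finset (Pt k L)} (h : Phys A) :
    dc ((gg k u).finsetCongr A) (u + w) = dc A w := by
  obtain ⟨σ, rfl⟩ := h
  rw [gg_enc, dc_enc, dc_enc]
  congr 1
  abel

lemma gg_inter (u : Site L) (A B : Finset (Pt k L)) :
    (gg k u).finsetCongr A ∩ (gg k u).finsetCongr B = (gg k u).finsetCongr (A ∩ B) := by
  simp only [Equiv.finsetCongr_apply]
  exact (map_inter _ _).symm

lemma gg_sdiff (u : Site L) (A B : Finset (Pt k L)) :
    (gg k u).finsetCongr A \ (gg k u).finsetCongr B = (gg k u).finsetCongr (A \ B) := by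
  simp only [Equiv.finsetCongr_apply]
  exact (Finset.map_sdiff _ _).symm

/-- the spin system as a system of particles -/
noncomputable def tsys (h : BoxOp (k + 1) R) (ep : Fin (k + 1) → ℝ)
    (hep : ∀ s : Fin k, 1 ≤ ep s.succ) (L : ℕ) [NeZero L] : Sys (Pt k L) (Site L) where
  g := gg k
  X := XX k R
  V := VV h
  e := fun a => ep a.2.succ
  e1 := fun a => hep a.2
  eg := fun _ _ => rfl
  gX := gg_X
  gV := fun u x A B => by
    classical
    unfold VV
    simp only [gg_X, gg_inter, gg_sdiff, gg_phys, (gg k u).finsetCongr.injective.eq_iff]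
    by_cases hc : A \ XX k R x = B \ XX k R x ∧ Phys (A ∩ XX k R x) ∧ Phys (B ∩ XX k R x)
    · rw [if_pos hc, if_pos hc]
      congr 1
      · funext y
        rw [sh_add, gg_dc u _ hc.2.1]
      · funext y
        rw [sh_add, gg_dc u _ hc.2.2]
    · rw [if_neg hc, if_neg hc]
  loc := fun x A B => by
    classical
    unfold VV
    have e1 : ∀ A : Finset (Pt k L), (A ∩ XX k R x) ∩ XX k R x = A ∩ XX k R x := fun A => by
      rw [inter_assoc, inter_self]
    have e2 : ∀ A : Finset (Pt k L), (A ∩ XX k R x) \ XX k R x = ∅ := fun A => by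
      rw [sdiff_eq_empty_iff_subset]
      exact inter_subset_right
    by_cases hc : A \ XX k R x = B \ XX k R x
    · simp only [e1, e2, hc, if_true, true_and]
    · rw [if_neg hc, if_neg fun h' => hc h'.1]
  free := fun a u w huw => by
    simp only [gg_apply, Prod.mk.injEq, and_true] at huw
    exact add_right_cancel huw

lemma card_XX (u : Site L) : (XX k R u).card ≤ R ^ 2 * k := by
  have h1 : XX k R u ⊆ (univ : Finset ((Fin R × Fin R) × Fin k)).image
      fun p => (sh u p.1, p.2) := by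
    intro a ha
    obtain ⟨x, hx⟩ := (mem_XX u a).1 ha
    exact mem_image.2 ⟨(x, a.2), mem_univ _, by rw [hx]⟩
  refine (card_le_card h1).trans (card_image_le.trans (le_of_eq ?_))
  rw [card_univ, Fintype.card_prod, Fintype.card_prod, Fintype.card_fin, Fintype.card_fin, sq]

lemma norm_VV (h : BoxOp (k + 1) R) {v₀ : ℝ} (hv0 : 0 ≤ v₀) (hv : ∀ s t, ‖h s t‖ ≤ v₀)
    (u : Site L) (A B : Finset (Pt k L)) : ‖VV h u A B‖ ≤ v₀ := by
  unfold VV
  split_ifs
  · exact hv _ _
  · rw [norm_zero]; exact hv0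

lemma VV_herm {h : BoxOp (k + 1) R} (hh : h.IsHermitian) (u : Site L) :
    (VV h u : Op (Pt k L)).IsHermitian := by
  classical
  ext A B
  rw [Matrix.conjTranspose_apply]
  unfold VV
  have h1 : ∀ s t, star (h t s) = h s t := fun s t => by
    have := congrFun (congrFun hh s) t
    rwa [Matrix.conjTranspose_apply] at this
  by_cases hc : A \ XX k R u = B \ XX k R u ∧ Phys (A ∩ XX k R u) ∧ Phys (B ∩ XX k R u)
  · have hc' : B \ XX k R u = A \ XX k R u ∧ Phys (B ∩ XX k R u) ∧ Phys (A ∩ XX k R u) :=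
      ⟨hc.1.symm, hc.2.2, hc.2.1⟩
    rw [if_pos hc, if_pos hc', h1]
  · have hc' : ¬ (B \ XX k R u = A \ XX k R u ∧ Phys (B ∩ XX k R u) ∧ Phys (A ∩ XX k R u)) :=
      fun h => hc ⟨h.1.symm, h.2.2, h.2.1⟩
    rw [if_neg hc, if_neg hc', star_zero]

open Classical in
lemma enc_inter (σ : Site L → Fin (k + 1)) (u : Site L) : enc σ ∩ XX k R u =
    enc fun v => if ∃ x : Fin R × Fin R, sh u x = v then σ v else 0 := by
  ext a
  rw [mem_inter, mem_enc, mem_XX, mem_enc]
  by_cases h : ∃ x : Fin R × Fin R, sh u x = a.1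
  · rw [if_pos h]
    exact ⟨fun h' => h'.1, fun h' => ⟨h', h⟩⟩
  · rw [if_neg h]
    exact ⟨fun h' => absurd h'.2 h, fun h' => absurd h'.symm (Fin.succ_ne_zero _)⟩

open Classical in
lemma enc_sdiff (σ : Site L → Fin (k + 1)) (u : Site L) : enc σ \ XX k R u =
    enc fun v => if ∃ x : Fin R × Fin R, sh u x = v then 0 else σ v := by
  ext a
  rw [mem_sdiff, mem_enc, mem_XX, mem_enc]
  by_cases h : ∃ x : Fin R × Fin R, sh u x = a.1
  · rw [if_pos h]
    exact ⟨fun h' => absurd h h'.2, fun h' => absurd h'.symm (Fin.succ_ne_zero _)⟩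
  · rw [if_neg h]
    exact ⟨fun h' => h'.1, fun h' => ⟨h', h⟩⟩

lemma VV_enc (h : BoxOp (k + 1) R) (u : Site L) (σ τ : Site L → Fin (k + 1)) :
    VV h u (enc σ) (enc τ) = term h u σ τ := by
  classical
  unfold VV term
  have h1 : enc σ \ XX k R u = enc τ \ XX k R u ↔
      ∀ v, (∀ x : Fin R × Fin R, sh u x ≠ v) → σ v = τ v := by
    rw [enc_sdiff, enc_sdiff, enc_inj.eq_iff]
    constructor
    · intro h v hv
      have h2 := congrFun h v
      have h3 : ¬ ∃ x : Fin R × Fin R, sh u x = v := fun ⟨x, hx⟩ => hv x hx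
      simpa only [if_neg h3] using h2
    · intro h
      funext v
      by_cases h3 : ∃ x : Fin R × Fin R, sh u x = v
      · rw [if_pos h3, if_pos h3]
      · rw [if_neg h3, if_neg h3]
        exact h v fun x hx => h3 ⟨x, hx⟩
  have h2 : ∀ σ : Site L → Fin (k + 1), Phys (enc σ ∩ XX k R u) := fun σ => by
    rw [enc_inter]
    exact ⟨_, rfl⟩
  have h3 : ∀ (σ : Site L → Fin (k + 1)) (x : Fin R × Fin R),
      dc (enc σ ∩ XX k R u) (sh u x) = σ (sh u x) := by
    intro σ x
    rw [enc_inter, dc_enc, if_pos ⟨x, rfl⟩]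
  by_cases hc : enc σ \ XX k R u = enc τ \ XX k R u
  · rw [if_pos ⟨hc, h2 σ, h2 τ⟩, if_pos (h1.1 hc)]
    simp only [h3]
  · rw [if_neg fun h' => hc h'.1, if_neg fun h' => hc (h1.2 h')]

lemma VV_row (h : BoxOp (k + 1) R) (u : Site L) (σ : Site L → Fin (k + 1))
    (B : Finset (Pt k L)) (hB : ∀ τ, enc τ ≠ B) : VV h u (enc σ) B = 0 := by
  classical
  unfold VV
  rw [if_neg]
  rintro ⟨h1, -, ρ, hρ⟩
  rw [enc_sdiff] at h1
  apply hB fun v => if ∃ x : Fin R × Fin R, sh u x = v then ρ v else σ v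
  ext a
  rw [mem_enc]
  by_cases h3 : ∃ x : Fin R × Fin R, sh u x = a.1
  · rw [if_pos h3]
    have h4 : a ∈ enc ρ ↔ a ∈ B ∩ XX k R u := by rw [hρ]
    rw [mem_enc, mem_inter, mem_XX] at h4
    rw [h4]
    exact ⟨fun h => h.1, fun h => ⟨h, h3⟩⟩
  · rw [if_neg h3]
    have h4 := Finset.ext_iff.1 h1 a
    rw [mem_enc, mem_sdiff, mem_XX, if_neg h3] at h4
    rw [h4]
    exact ⟨fun h => h.1, fun h => ⟨h, h3⟩⟩

/-- the energy of the one-site levels at the corner of the box -/
noncomputable def site (ep : Fin (k + 1) → ℝ) (R : ℕ) [NeZero R] : BoxOp (k + 1) R :=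
  Matrix.diagonal fun s => (ep (s (0, 0)) : ℂ)

lemma term_site (ep : Fin (k + 1) → ℝ) [NeZero R] (u : Site L) (σ τ : Site L → Fin (k + 1)) :
    term (site ep R) u σ τ = if σ = τ then (ep (σ u) : ℂ) else 0 := by
  classical
  unfold term site
  have hu : sh u ((0, 0) : Fin R × Fin R) = u := by
    unfold sh
    ext <;> simp
  by_cases h : σ = τ
  · subst h
    rw [if_pos fun _ _ => rfl, if_pos rfl, Matrix.diagonal_apply_eq]
    simp only [hu]
  · rw [if_neg h]
    split_ifs with h1
    · rw [Matrix.diagonal_apply_ne]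
      intro h2
      apply h
      funext v
      by_cases h3 : ∃ x : Fin R × Fin R, sh u x = v
      · obtain ⟨x, rfl⟩ := h3
        exact congrFun h2 x
      · exact h1 v fun x hx => h3 ⟨x, hx⟩
    · rfl

lemma en_enc (ep : Fin (k + 1) → ℝ) (h0 : ep 0 = 0) (σ : Site L → Fin (k + 1)) :
    en (fun a : Pt k L => ep a.2.succ) (enc σ) = ∑ v, ep (σ v) := by
  rw [en, enc, sum_filter, Fintype.sum_prod_type]
  refine sum_congr rfl fun v _ => ?_
  simp only
  rcases Fin.eq_zero_or_eq_succ (σ v) with h | ⟨j, h⟩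
  · rw [h, h0]
    refine sum_eq_zero fun s _ => ?_
    rw [if_neg (Fin.succ_ne_zero s).symm]
  · rw [h]
    rw [sum_eq_single j]
    · rw [if_pos rfl]
    · intro s _ hs
      rw [if_neg]
      intro h'
      exact hs (Fin.succ_injective _ h').symm
    · intro h'
      exact absurd (mem_univ _) h'

lemma term_add (h h' : BoxOp (k + 1) R) (c : ℂ) (u : Site L) :
    term (h + c • h') u = term h u + c • term h' u := by
  classical
  ext s t
  simp only [term, Matrix.add_apply, Matrix.smul_apply]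
  split_ifs <;> simp

/-- the Hamiltonian -/
lemma ham_enc (h : BoxOp (k + 1) R) [NeZero R] (ep : Fin (k + 1) → ℝ) (h0 : ep 0 = 0)
    (hep : ∀ s : Fin k, 1 ≤ ep s.succ) (c : ℂ) :
    (num (tsys h ep hep L).e + c • ∑ x, (tsys h ep hep L).V x).submatrix enc enc =
      ham (site ep R + c • h) L := by
  classical
  ext σ τ
  have h1 : (tsys h ep hep L).V = VV h := rfl
  have h2 : (tsys h ep hep L).e = fun a : Pt k L => ep a.2.succ := rfl
  rw [Matrix.submatrix_apply, Matrix.add_apply, Matrix.smul_apply, Matrix.sum_apply, h1, h2, ham,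
    Matrix.sum_apply]
  simp only [term_add, Matrix.add_apply, Matrix.smul_apply, sum_add_distrib, ← smul_sum]
  congr 1
  · simp only [term_site]
    rw [num, Matrix.diagonal_apply]
    by_cases hc : σ = τ
    · subst hc
      rw [if_pos rfl, en_enc ep h0]
      simp
    · rw [if_neg (fun h' => hc (enc_inj h'))]
      simp [hc]
  · congr 1
    exact sum_congr rfl fun u _ => VV_enc h u σ τ

lemma ham_row (h : BoxOp (k + 1) R) (ep : Fin (k + 1) → ℝ)
    (hep : ∀ s : Fin k, 1 ≤ ep s.succ) (c : ℂ) (σ : Site L → Fin (k + 1))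
    (B : Finset (Pt k L)) (hB : ∀ τ, enc τ ≠ B) :
    (num (tsys h ep hep L).e + c • ∑ x, (tsys h ep hep L).V x) (enc σ) B = 0 := by
  have h1 : (tsys h ep hep L).V = VV h := rfl
  rw [Matrix.add_apply, Matrix.smul_apply, Matrix.sum_apply, h1, num,
    Matrix.diagonal_apply_ne _ (hB σ), sum_eq_zero fun u _ => VV_row h u σ B hB, smul_zero,
    add_zero]

lemma ext_herm {h : BoxOp (k + 1) R} (hh : h.IsHermitian) (ep : Fin (k + 1) → ℝ)
    (hep : ∀ s : Fin k, 1 ≤ ep s.succ) (ε : ℝ) :
    (num (tsys h ep hep L).e + (ε : ℂ) • ∑ x, (tsys h ep hep L).V x).IsHermitian := by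
  have h1 : (tsys h ep hep L).V = VV h := rfl
  rw [h1]
  have h2 : (num (tsys h ep hep L).e).IsHermitian := by
    unfold num
    ext A B
    rw [Matrix.conjTranspose_apply, Matrix.diagonal_apply, Matrix.diagonal_apply]
    by_cases hc : A = B
    · subst hc
      rw [if_pos rfl]
      exact Complex.conj_ofReal _
    · rw [if_neg (fun h' => hc h'.symm), if_neg hc, star_zero]
  have h3 : (∑ x, VV h x : Op (Pt k L)).IsHermitian := by
    change (∑ x, VV h x : Op (Pt k L)).conjTranspose = _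
    rw [Matrix.conjTranspose_sum]
    exact sum_congr rfl fun x _ => VV_herm hh x
  refine h2.add ?_
  change ((ε : ℂ) • (∑ x, VV h x : Op (Pt k L))).conjTranspose = _
  rw [Matrix.conjTranspose_smul, h3.eq]
  congr 1
  exact Complex.conj_ofReal ε

end Enc

end Pool.Agent.T6.H6.PE
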