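import Mathlib

/-!
# Exponentials in Banach algebras and creation operators
-/

set_option autoImplicit false
set_option linter.unusedSectionVars false

namespace Pool.Agent.T6.H6.PE

open NormedSpace Finset

section Ex
variable {𝔸 : Type*} [NormedRing 𝔸] [NormedAlgebra ℂ 𝔸] [CompleteSpace 𝔸]

lemma norm_pow_div (h1 : ‖(1 : 𝔸)‖ ≤ 1) (x : 𝔸) (n : ℕ) :
    ‖((n.factorial : ℂ)⁻¹) • x ^ n‖ ≤ ‖x‖ ^ n / n.factorial := by
  rw [norm_smul, norm_inv, Complex.norm_natCast, div_eq_inv_mul]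
  refine mul_le_mul_of_nonneg_left ?_ (by positivity)
  induction n with
  | zero => simpa using h1
  | succ n ih =>
    rw [pow_succ, pow_succ]
    exact (norm_mul_le _ _).trans (mul_le_mul_of_nonneg_right ih (norm_nonneg _))

lemma real_hasSum (r : ℝ) : HasSum (fun n : ℕ => r ^ n / n.factorial) (Real.exp r) := by
  rw [Real.exp_eq_exp_ℝ]
  exact expSeries_div_hasSum_exp r

lemma norm_exp_le (h1 : ‖(1 : 𝔸)‖ ≤ 1) (x : 𝔸) : ‖exp x‖ ≤ Real.exp ‖x‖ :=
  (exp_series_hasSum_exp' (𝕂 := ℂ) x).norm_le_of_bounded (real_hasSum ‖x‖) (norm_pow_div h1 x)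

lemma norm_exp_sub_one_le (h1 : ‖(1 : 𝔸)‖ ≤ 1) (x : 𝔸) :
    ‖exp x - 1‖ ≤ Real.exp ‖x‖ - 1 := by
  have h2 := (hasSum_nat_add_iff' 1).2 (exp_series_hasSum_exp' (𝕂 := ℂ) x)
  have h3 := (hasSum_nat_add_iff' 1).2 (real_hasSum ‖x‖)
  simp only [range_one, sum_singleton, Nat.factorial_zero, Nat.cast_one, inv_one, pow_zero,
    one_smul, div_one] at h2 h3
  exact h2.norm_le_of_bounded h3 fun n => norm_pow_div h1 x (n + 1)

lemma exp_neg_mul (x : 𝔸) : exp (-x) * exp x = 1 := by
  let _ : NormedAlgebra ℚ 𝔸 := NormedAlgebra.restrictScalars ℚ ℂ 𝔸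
  rw [← exp_add_of_commute (Commute.neg_left (Commute.refl x)), neg_add_cancel, exp_zero]

lemma exp_mul_neg (x : 𝔸) : exp x * exp (-x) = 1 := by
  let _ : NormedAlgebra ℚ 𝔸 := NormedAlgebra.restrictScalars ℚ ℂ 𝔸
  rw [← exp_add_of_commute (Commute.neg_right (Commute.refl x)), add_neg_cancel, exp_zero]

lemma exp_add' {x y : 𝔸} (h : Commute x y) : exp (x + y) = exp x * exp y := by
  let _ : NormedAlgebra ℚ 𝔸 := NormedAlgebra.restrictScalars ℚ ℂ 𝔸
  exact exp_add_of_commute h

/-- conjugation of an operator by the exponential of an operator which commutes with their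
commutator -/
lemma exp_conj_eq {X N D : 𝔸} (hD : X * N - N * X = D) (hc : X * D = D * X) :
    exp X * N * exp (-X) = N + D := by
  have hXN : X * N = N * X + D := by rw [← hD]; abel
  have h1 : ∀ n : ℕ, X ^ n * N = N * X ^ n + (n : ℂ) • (X ^ (n - 1) * D) := by
    intro n
    induction n with
    | zero => simp
    | succ n ih =>
      rw [pow_succ', mul_assoc, ih, mul_add, ← mul_assoc, hXN, add_mul, mul_assoc N,
        mul_smul_comm, ← mul_assoc X]
      have hDn : D * X ^ n = X ^ n * D := by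
        have : Commute X D := hc
        exact (this.pow_left n).eq.symm
      rw [hDn]
      rcases n with _ | n
      · simp
      · have : X * X ^ (n + 1 - 1) = X ^ (n + 1) := by
          rw [Nat.add_sub_cancel, pow_succ']
        rw [this, ← pow_succ', Nat.add_sub_cancel (n + 1) 1]
        push_cast
        rw [add_assoc]
        congr 1
        rw [add_smul ((n : ℂ) + 1) 1, one_smul, add_comm]
  have hs := exp_series_hasSum_exp' (𝕂 := ℂ) X
  have h2 : HasSum (fun n : ℕ => ((n.factorial : ℂ)⁻¹) • X ^ n * N) (exp X * N) := hs.mul_right N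
  have h3 : HasSum (fun n : ℕ => N * (((n.factorial : ℂ)⁻¹) • X ^ n)) (N * exp X) :=
    hs.mul_left N
  have h4 : HasSum (fun n : ℕ => ((n.factorial : ℂ)⁻¹) • ((n : ℂ) • (X ^ (n - 1) * D)))
      (exp X * D) := by
    rw [← hasSum_nat_add_iff' 1]
    simp only [range_one, sum_singleton, Nat.cast_zero, zero_smul, smul_zero, sub_zero,
      Nat.add_sub_cancel]
    have h5 : HasSum (fun n : ℕ => ((n.factorial : ℂ)⁻¹) • X ^ n * D) (exp X * D) :=
      hs.mul_right D
    have h6 : (fun n : ℕ => (((n + 1).factorial : ℂ)⁻¹) • (((n + 1 : ℕ) : ℂ) • (X ^ n * D))) =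
        fun n : ℕ => ((n.factorial : ℂ)⁻¹) • X ^ n * D := by
      funext n
      rw [smul_smul, smul_mul_assoc]
      congr 1
      have h7 : ((n + 1 : ℕ) : ℂ) ≠ 0 := by exact_mod_cast Nat.succ_ne_zero n
      have h8 : (n.factorial : ℂ) ≠ 0 := by exact_mod_cast Nat.factorial_ne_zero n
      rw [Nat.factorial_succ]
      push_cast at h7 ⊢
      field_simp
    rw [h6]
    exact h5
  have h7 : (fun n : ℕ => ((n.factorial : ℂ)⁻¹) • X ^ n * N) = fun n : ℕ =>
      N * (((n.factorial : ℂ)⁻¹) • X ^ n) +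
        ((n.factorial : ℂ)⁻¹) • ((n : ℂ) • (X ^ (n - 1) * D)) := by
    funext n
    rw [smul_mul_assoc, h1, smul_add, mul_smul_comm]
  rw [h7] at h2
  have h8 : exp X * N = N * exp X + exp X * D := h2.unique (h3.add h4)
  have h9 : D * exp (-X) = exp (-X) * D := by
    let _ : NormedAlgebra ℚ 𝔸 := NormedAlgebra.restrictScalars ℚ ℂ 𝔸
    have : Commute D (-X) := (Commute.neg_right (hc : Commute X D).symm)
    exact this.exp_right.eq
  rw [h8, add_mul, mul_assoc N, exp_mul_neg, mul_one, mul_assoc, h9, ← mul_assoc, exp_mul_neg,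
    one_mul]

end Ex

end Pool.Agent.T6.H6.PE
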