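import Pool.Agent.T6.H6.PE.Main

/-!
# Weakly interacting spin systems: assembly
-/

set_option autoImplicit false
set_option linter.unusedSectionVars false

namespace Pool.Agent.T6.H6.PE

open Finset Pool.Agent.TH235.PP Pool.Agent.Results.MP_953b23_mp.ThermalCriterion
  Pool.Agent.Results.MP_953b23_mp.OverlapBoosting
open scoped Matrix

section Conj
variable {n : Type} [Fintype n] [DecidableEq n]

lemma TB_scale {H G U : Matrix n n ℂ} (hH : H.IsHermitian) (hG : G.IsHermitian)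
    (hU : Uᴴ * U = 1) (hU' : U * Uᴴ = 1) {γ a : ℝ} (hγ : 0 < γ)
    (hc : G = U * ((γ : ℂ) • H + (a : ℂ) • (1 : Matrix n n ℂ)) * Uᴴ) {E s₀ : ℝ} {M : ℕ}
    (h : TB hH.eigenvalues E s₀ M) :
    TB (fun j => hG.eigenvalues j / γ) ((γ * E + a) / γ) s₀ M := by
  intro s hs hss m
  have hγ' : (γ : ℂ) ≠ 0 := by exact_mod_cast hγ.ne'
  have h1 := trace_pow hG (γ * E + a) (s / γ) (2 * m)
  have h2 := trace_pow hH E s (2 * m)
  set K : Matrix n n ℂ := 1 - (s : ℂ) • (H - (E : ℂ) • (1 : Matrix n n ℂ)) with hK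
  have h3 : (1 : Matrix n n ℂ) - ((s / γ : ℝ) : ℂ) •
      (G - ((γ * E + a : ℝ) : ℂ) • (1 : Matrix n n ℂ)) = U * K * Uᴴ := by
    rw [hK, hc]
    simp only [mul_sub, sub_mul, mul_one, mul_smul_comm, smul_mul_assoc, smul_sub, hU', mul_add,
      add_mul, smul_add, smul_smul]
    have e1 : ((s / γ : ℝ) : ℂ) * (γ : ℂ) = s := by
      push_cast
      field_simp
    have e2 : ((s / γ : ℝ) : ℂ) * ((γ * E + a : ℝ) : ℂ) = s * E + ((s / γ : ℝ) : ℂ) * a := by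
      push_cast
      field_simp
    rw [e1, e2, add_smul]
    abel
  have h4 : ∀ k : ℕ, (U * K * Uᴴ) ^ k = U * K ^ k * Uᴴ := by
    intro k
    induction k with
    | zero => rw [pow_zero, pow_zero, mul_one, hU']
    | succ k ih =>
      rw [pow_succ, ih, pow_succ]
      calc U * K ^ k * Uᴴ * (U * K * Uᴴ) = U * K ^ k * (Uᴴ * U) * K * Uᴴ := by noncomm_ring
        _ = _ := by rw [hU, mul_one]; noncomm_ring
  rw [h3, h4, Matrix.trace_mul_cycle, hU, one_mul, h2] at h1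
  have h5 : ∑ j, (1 - (s / γ) * (hG.eigenvalues j - (γ * E + a))) ^ (2 * m) =
      ∑ j, (1 - s * (hH.eigenvalues j - E)) ^ (2 * m) := by exact_mod_cast h1.symm
  have h6 : ∀ j, 1 - s * (hG.eigenvalues j / γ - (γ * E + a) / γ) =
      1 - (s / γ) * (hG.eigenvalues j - (γ * E + a)) := by
    intro j
    field_simp
  simp only [h6]
  rw [h5]
  exact h s hs hss m

lemma ground_scale {H G U : Matrix n n ℂ} (hU : Uᴴ * U = 1) (hU' : U * Uᴴ = 1) {γ a : ℝ}
    (hγ : 0 < γ) (hc : G = U * ((γ : ℂ) • H + (a : ℂ) • (1 : Matrix n n ℂ)) * Uᴴ)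
    {Δ : ℝ} {φ : n → ℂ} (h : IsGappedGround H Δ φ) :
    IsGappedGround G (γ * Δ) (U *ᵥ φ) := by
  have hγ' : (γ : ℂ) ≠ 0 := by exact_mod_cast hγ.ne'
  obtain ⟨E, hE, hs, hg⟩ := h
  have key : ∀ (E' : ℝ) (x : n → ℂ), G *ᵥ x = (E' : ℂ) • x →
      H *ᵥ (Uᴴ *ᵥ x) = (((E' - a) / γ : ℝ) : ℂ) • (Uᴴ *ᵥ x) := by
    intro E' x hx
    have e1 : Uᴴ * G = ((γ : ℂ) • H + (a : ℂ) • (1 : Matrix n n ℂ)) * Uᴴ := by
      rw [hc]
      calc Uᴴ * (U * ((γ : ℂ) • H + (a : ℂ) • (1 : Matrix n n ℂ)) * Uᴴ) =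
            Uᴴ * U * (((γ : ℂ) • H + (a : ℂ) • (1 : Matrix n n ℂ)) * Uᴴ) := by noncomm_ring
        _ = _ := by rw [hU, one_mul]
    have e2 : Uᴴ *ᵥ (G *ᵥ x) = (γ : ℂ) • (H *ᵥ (Uᴴ *ᵥ x)) + (a : ℂ) • (Uᴴ *ᵥ x) := by
      rw [Matrix.mulVec_mulVec, e1, ← Matrix.mulVec_mulVec, Matrix.add_mulVec, Matrix.smul_mulVec,
        Matrix.smul_mulVec, Matrix.one_mulVec]
    rw [hx, Matrix.mulVec_smul] at e2
    have e3 : (γ : ℂ) • (H *ᵥ (Uᴴ *ᵥ x)) = ((E' : ℂ) - a) • (Uᴴ *ᵥ x) := by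
      rw [sub_smul, e2, add_sub_cancel_right]
    have e4 : H *ᵥ (Uᴴ *ᵥ x) = (γ : ℂ)⁻¹ • ((γ : ℂ) • (H *ᵥ (Uᴴ *ᵥ x))) := by
      rw [smul_smul, inv_mul_cancel₀ hγ', one_smul]
    rw [e4, e3, smul_smul]
    congr 1
    push_cast
    field_simp
  have back : ∀ x : n → ℂ, U *ᵥ (Uᴴ *ᵥ x) = x := by
    intro x
    rw [Matrix.mulVec_mulVec, hU', Matrix.one_mulVec]
  refine ⟨γ * E + a, ?_, ?_, ?_⟩
  · rw [Matrix.mulVec_mulVec, hc]
    have e1 : U * ((γ : ℂ) • H + (a : ℂ) • (1 : Matrix n n ℂ)) * Uᴴ * U =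
        U * ((γ : ℂ) • H + (a : ℂ) • (1 : Matrix n n ℂ)) := by
      rw [mul_assoc, hU, mul_one]
    rw [e1, ← Matrix.mulVec_mulVec, Matrix.add_mulVec, Matrix.smul_mulVec, Matrix.smul_mulVec,
      Matrix.one_mulVec, hE, smul_smul, ← add_smul, Matrix.mulVec_smul]
    push_cast
    rfl
  · intro x hx
    have h1 := key _ x hx
    have e : ((γ * E + a - a) / γ : ℝ) = E := by field_simp; ring
    rw [e] at h1
    obtain ⟨c, hc'⟩ := hs _ h1
    exact ⟨c, by rw [← back x, hc', Matrix.mulVec_smul]⟩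
  · intro E' x hx0 hx
    have h1 := key _ x hx
    have h2 : Uᴴ *ᵥ x ≠ 0 := by
      intro h2
      apply hx0
      rw [← back x, h2, Matrix.mulVec_zero]
    rcases hg _ _ h2 h1 with h3 | h3
    · left
      rw [div_eq_iff hγ.ne'] at h3
      linarith
    · right
      rw [le_div_iff₀ hγ] at h3
      linarith

lemma ground_smul {H : Matrix n n ℂ} {Δ : ℝ} {φ : n → ℂ} (h : IsGappedGround H Δ φ) {c : ℂ}
    (hc : c ≠ 0) : IsGappedGround H Δ (c • φ) := by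
  obtain ⟨E, hE, hs, hg⟩ := h
  refine ⟨E, by rw [Matrix.mulVec_smul, hE, smul_comm], fun x hx => ?_, hg⟩
  obtain ⟨b, hb⟩ := hs x hx
  exact ⟨b / c, by rw [hb, smul_smul, div_mul_cancel₀ _ hc]⟩

/-- number of states from the partition function -/
lemma numStates_le {H : Matrix n n ℂ} (hH : H.IsHermitian) (E M β : ℝ) (hβ : 0 ≤ β) :
    (numStates hH (E + M) : ℝ) ≤ Real.exp (β * M) * partition hH E β := by
  unfold numStates partition
  rw [mul_sum]
  have h1 : ((univ.filter fun j => hH.eigenvalues j ≤ E + M).card : ℝ) =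
      ∑ j ∈ univ.filter fun j => hH.eigenvalues j ≤ E + M, (1 : ℝ) := by simp
  rw [h1]
  refine (sum_le_sum fun j hj => ?_).trans (sum_le_sum_of_subset_of_nonneg (subset_univ _)
    fun j _ _ => by positivity)
  rw [mem_filter] at hj
  rw [← Real.exp_add]
  apply Real.one_le_exp
  have := mul_le_mul_of_nonneg_left hj.2 hβ
  linarith

end Conj

/-- the strength of the interaction for which the theorem holds -/
noncomputable def eps1 (k R : ℕ) : ℝ := 1 / (1 + Kr (R ^ 2 * k))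

lemma eps1_pos (k R : ℕ) : 0 < eps1 k R := by
  unfold eps1
  have := Kr_nonneg (R ^ 2 * k)
  positivity

/-- the spectrum of the weakly interacting system, with a bound that depends only on the size of
the interaction -/
theorem main1 {k R : ℕ} [NeZero R] {ep : Fin (k + 1) → ℝ} (h0 : ep 0 = 0)
    (hep : ∀ s : Fin k, 1 ≤ ep s.succ) {V : BoxOp (k + 1) R} (hV : V.IsHermitian)
    (hε : ∑ s, ∑ t, ‖V s t‖ ≤ eps1 k R) (L : ℕ) [NeZero L]
    (hH : (ham (site ep R + V) L).IsHermitian) :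
    ∃ (s₀ E₀ : ℝ) (φ : (Site L → Fin (k + 1)) → ℂ), 0 < s₀ ∧ φ ≠ 0 ∧
      ham (site ep R + V) L *ᵥ φ = (E₀ : ℂ) • φ ∧
      TB hH.eigenvalues E₀ s₀ (k * L ^ 2) := by
  -- rescale the interaction: `V = ε W` with `ε` small
  set v : ℝ := ∑ s, ∑ t, ‖V s t‖ with hv
  have hv0 : 0 ≤ v := sum_nonneg fun s _ => sum_nonneg fun t _ => norm_nonneg _
  have hK := Kr_nonneg (R ^ 2 * k)
  have he : eps1 k R * (1 + Kr (R ^ 2 * k)) = 1 := by
    unfold eps1
    rw [one_div, inv_mul_cancel₀]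
    positivity
  have he0 := eps1_pos k R
  set ε : ℝ := eps1 k R with hε'
  set W : BoxOp (k + 1) R := ((ε : ℂ)⁻¹) • V with hW
  have hWh : W.IsHermitian := by
    rw [hW]
    unfold Matrix.IsHermitian
    rw [Matrix.conjTranspose_smul, hV.eq]
    congr 1
    simp
  have hWV : (ε : ℂ) • W = V := by
    rw [hW, smul_smul, mul_inv_cancel₀ (by exact_mod_cast he0.ne'), one_smul]
  have hWn : ∑ s, ∑ t, ‖W s t‖ ≤ 1 := by
    have h1 : ∀ s t, ‖W s t‖ = ε⁻¹ * ‖V s t‖ := by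
      intro s t
      rw [hW, Matrix.smul_apply, norm_smul, norm_inv, Complex.norm_real, Real.norm_eq_abs,
        abs_of_pos he0]
    simp only [h1, ← mul_sum]
    rw [← hv, inv_mul_le_iff₀ he0, mul_one]
    exact hε
  have hle : |ε| ≤ eps0 W := by
    rw [abs_of_pos he0]
    unfold eps0
    rw [le_div_iff₀ (by
      have : 0 ≤ ∑ s, ∑ t, ‖W s t‖ := sum_nonneg fun s _ => sum_nonneg fun t _ => norm_nonneg _
      positivity)]
    rw [← he]
    refine mul_le_mul_of_nonneg_left ?_ he0.le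
    have := mul_le_mul_of_nonneg_right hWn hK
    linarith
  have hfin : ∀ (V' : BoxOp (k + 1) R) (h : (ε : ℂ) • W = V')
      (hH : (ham (site ep R + V') L).IsHermitian),
      ∃ (s₀ E₀ : ℝ) (φ : (Site L → Fin (k + 1)) → ℂ), 0 < s₀ ∧ φ ≠ 0 ∧
      ham (site ep R + V') L *ᵥ φ = (E₀ : ℂ) • φ ∧
      TB hH.eigenvalues E₀ s₀ (k * L ^ 2) := by
    intro V' h hH
    subst h
    exact main0 h0 hep hWh hle L hH
  exact hfin V hWV hH

end Pool.Agent.T6.H6.PE
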