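import Pool.Agent.T6.H6.PE.Enc
import Pool.Agent.Y159.PepsScale

/-!
# Weakly interacting spin systems: gap, partition function and PEPS approximation
-/

set_option autoImplicit false
set_option linter.unusedSectionVars false

namespace Pool.Agent.T6.H6.PE

open Finset Pool.Agent.TH235.PP Pool.Agent.Results.MP_953b23_mp.ThermalCriterion
open scoped Matrix

section Conj
variable {n : Type} [Fintype n] [DecidableEq n]

lemma TB_conj {H G U : Matrix n n ℂ} (hH : H.IsHermitian) (hG : G.IsHermitian)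
    (hU : Uᴴ * U = 1) (hU' : U * Uᴴ = 1) (hc : G = U * H * Uᴴ) {E s₀ : ℝ} {M : ℕ}
    (h : TB hH.eigenvalues E s₀ M) : TB hG.eigenvalues E s₀ M := by
  intro s hs hss m
  have h1 := trace_pow hG E s (2 * m)
  have h2 := trace_pow hH E s (2 * m)
  set K : Matrix n n ℂ := 1 - (s : ℂ) • (H - (E : ℂ) • (1 : Matrix n n ℂ)) with hK
  have h3 : (1 : Matrix n n ℂ) - (s : ℂ) • (G - (E : ℂ) • (1 : Matrix n n ℂ)) = U * K * Uᴴ := by
    rw [hK, hc]
    simp only [mul_sub, sub_mul, mul_one, mul_smul_comm, smul_mul_assoc, smul_sub, hU']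
  have h4 : ∀ k : ℕ, (U * K * Uᴴ) ^ k = U * K ^ k * Uᴴ := by
    intro k
    induction k with
    | zero => rw [pow_zero, pow_zero, mul_one, hU']
    | succ k ih =>
      rw [pow_succ, ih, pow_succ]
      calc U * K ^ k * Uᴴ * (U * K * Uᴴ) = U * K ^ k * (Uᴴ * U) * K * Uᴴ := by noncomm_ring
        _ = _ := by rw [hU, mul_one]; noncomm_ring
  rw [h3, h4, Matrix.trace_mul_cycle, hU, one_mul, h2] at h1
  have h5 : ∑ j, (1 - s * (hG.eigenvalues j - E)) ^ (2 * m) =
      ∑ j, (1 - s * (hH.eigenvalues j - E)) ^ (2 * m) := by exact_mod_cast h1.symm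
  rw [h5]
  exact h s hs hss m

end Conj

/-- the strength of the interaction for which the theorem holds -/
noncomputable def eps0 {k R : ℕ} (V : BoxOp (k + 1) R) : ℝ :=
  1 / (1 + (∑ s, ∑ t, ‖V s t‖) * Kr (R ^ 2 * k))

lemma Kr_nonneg (r : ℕ) : 0 ≤ Kr r := by unfold Kr; positivity

lemma eps0_pos {k R : ℕ} (V : BoxOp (k + 1) R) : 0 < eps0 V := by
  unfold eps0
  have := Kr_nonneg (R ^ 2 * k)
  positivity

/-- the spectrum of the weakly interacting system -/
theorem main0 {k R : ℕ} [NeZero R] {ep : Fin (k + 1) → ℝ} (h0 : ep 0 = 0)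
    (hep : ∀ s : Fin k, 1 ≤ ep s.succ) {V : BoxOp (k + 1) R} (hV : V.IsHermitian) {ε : ℝ}
    (hε : |ε| ≤ eps0 V) (L : ℕ) [NeZero L]
    (hH : (ham (site ep R + (ε : ℂ) • V) L).IsHermitian) :
    ∃ (s₀ E₀ : ℝ) (φ : (Site L → Fin (k + 1)) → ℂ), 0 < s₀ ∧ φ ≠ 0 ∧
      ham (site ep R + (ε : ℂ) • V) L *ᵥ φ = (E₀ : ℂ) • φ ∧
      TB hH.eigenvalues E₀ s₀ (k * L ^ 2) := by
  classical
  set v₀ : ℝ := ∑ s, ∑ t, ‖V s t‖ with hv₀
  have hv0 : 0 ≤ v₀ := sum_nonneg fun s _ => sum_nonneg fun t _ => norm_nonneg _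
  have hv : ∀ s t, ‖V s t‖ ≤ v₀ := by
    intro s t
    have h1 : ‖V s t‖ ≤ ∑ t, ‖V s t‖ :=
      single_le_sum (f := fun t => ‖V s t‖) (fun t _ => norm_nonneg _) (mem_univ t)
    exact h1.trans (single_le_sum (f := fun s => ∑ t, ‖V s t‖)
      (fun s _ => sum_nonneg fun t _ => norm_nonneg _) (mem_univ s))
  have hK := Kr_nonneg (R ^ 2 * k)
  have hcond : |ε| * (v₀ * Kr (R ^ 2 * k)) ≤ 1 := by
    have h1 : eps0 V * (1 + v₀ * Kr (R ^ 2 * k)) = 1 := by
      unfold eps0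
      rw [one_div, inv_mul_cancel₀]
      positivity
    have h2 : |ε| * (1 + v₀ * Kr (R ^ 2 * k)) ≤ 1 :=
      calc |ε| * (1 + v₀ * Kr (R ^ 2 * k)) ≤ eps0 V * (1 + v₀ * Kr (R ^ 2 * k)) :=
            mul_le_mul_of_nonneg_right hε (by positivity)
        _ = 1 := h1
    nlinarith [abs_nonneg ε]
  set sy := tsys V ep hep L with hsy
  obtain ⟨Z, Z', E, hZZ, hZZ', hZ1, hrow, htr⟩ := comb0 sy (r := R ^ 2 * k)
    (fun x => card_XX x) hv0 (fun x A B => norm_VV V hv0 hv x A B) hcond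
  set H : Op (Pt k L) := num sy.e + (ε : ℂ) • ∑ x, sy.V x with hHdef
  have hHe : H.submatrix enc enc = ham (site ep R + (ε : ℂ) • V) L :=
    ham_enc V ep h0 hep (ε : ℂ)
  have hcard : Fintype.card (Pt k L) = k * L ^ 2 := by
    rw [Fintype.card_prod, Fintype.card_prod, ZMod.card, Fintype.card_fin]
    ring
  have hen0 : 0 ≤ en sy.e univ := sum_nonneg fun a _ => by linarith [sy.e1 a]
  set s₀ : ℝ := 1 / (1 + Fintype.card (Pt k L) + en sy.e univ) with hs₀
  have hden : 0 < 1 + (Fintype.card (Pt k L) : ℝ) + en sy.e univ := by positivity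
  have hs0 : 0 < s₀ := by rw [hs₀]; positivity
  have hs1 : s₀ * (1 + (Fintype.card (Pt k L) : ℝ) + en sy.e univ) = 1 := by
    rw [hs₀, one_div, inv_mul_cancel₀ hden.ne']
  have hp : (H.submatrix enc enc).IsHermitian := by rw [hHe]; exact hH
  have hc0 : (0 : ℝ) ≤ Fintype.card (Pt k L) := Nat.cast_nonneg _
  obtain ⟨E₀, φ, hφ, hE, hTB⟩ := comb1 (s₀ := s₀) (M := k * L ^ 2)
    (H := H) (Z := Z) (Z' := Z') (E := E) (ext_herm hV ep hep ε) hZZ hZZ' hZ1 hrow hs0 (by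
      intro s hs hss m
      have h1 : s * (1 + (Fintype.card (Pt k L) : ℝ) + en sy.e univ) ≤ 1 :=
        calc s * (1 + (Fintype.card (Pt k L) : ℝ) + en sy.e univ) ≤
              s₀ * (1 + (Fintype.card (Pt k L) : ℝ) + en sy.e univ) :=
              mul_le_mul_of_nonneg_right hss hden.le
          _ = 1 := hs1
      have h2 : 0 ≤ s * (Fintype.card (Pt k L) : ℝ) := mul_nonneg hs hc0
      have h3 : 0 ≤ s * en sy.e univ := mul_nonneg hs hen0
      have h4 := htr s hs (by linarith) (by linarith) (by linarith) m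
      rw [hcard] at h4
      exact h4) (enc := enc) enc_inj (i₀ := fun _ => 0) enc_zero
    (fun σ B hB => ham_row V ep hep (ε : ℂ) σ B hB) hp
  refine ⟨s₀, E₀, φ, hs0, hφ, ?_, ?_⟩
  · rw [← hHe]
    exact hE
  · have : ∀ (G : Matrix (Site L → Fin (k + 1)) (Site L → Fin (k + 1)) ℂ)
        (hG : G.IsHermitian) (hg : G = H.submatrix enc enc),
        TB hG.eigenvalues E₀ s₀ (k * L ^ 2) := by
      intro G hG hg
      subst hg
      exact hTB
    exact this _ hH hHe.symm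

end Pool.Agent.T6.H6.PE
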