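import Pool.Agent.T6.H6.PE.Ex

/-!
# Creation operators on the subsets of a finite set
-/

set_option autoImplicit false
set_option linter.unusedSectionVars false

namespace Pool.Agent.T6.H6.PE

open NormedSpace Finset
open scoped Matrix.Norms.Operator

variable {P : Type} [Fintype P] [DecidableEq P]

/-- Operators on the Hilbert space with basis the subsets of `P`. -/
abbrev Op (P : Type) : Type := Matrix (Finset P) (Finset P) ℂ

/-- creation of a set with amplitude `S` -/
def mm (S : Finset P → ℂ) : Op P := fun A B => if A ⊆ B then S (B \ A) else 0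

/-- the energy of the noninteracting particles in `A` -/
def en (e : P → ℝ) (A : Finset P) : ℝ := ∑ a ∈ A, e a

/-- the Hamiltonian of the noninteracting particles -/
noncomputable def num (e : P → ℝ) : Op P := Matrix.diagonal fun A => (en e A : ℂ)

lemma card_le_en {e : P → ℝ} (he : ∀ a, 1 ≤ e a) (A : Finset P) : (A.card : ℝ) ≤ en e A := by
  have := card_nsmul_le_sum A e 1 fun a _ => he a
  simpa [en] using this

/-- `S` on the sets which meet `X` -/
def cut (X : Finset P) (S : Finset P → ℂ) : Finset P → ℂ := fun A =>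
  if Disjoint A X then 0 else S A

/-- `S` on the sets disjoint from `X` -/
def off (X : Finset P) (S : Finset P → ℂ) : Finset P → ℂ := fun A =>
  if Disjoint A X then S A else 0

/-- an operator acting on the part of the configuration in `X` -/
def IsLoc (X : Finset P) (V : Op P) : Prop :=
  ∀ A B, V A B = if A \ X = B \ X then V (A ∩ X) (B ∩ X) else 0

lemma mm_add (S S' : Finset P → ℂ) : mm (S + S') = mm S + mm S' := by
  ext A B
  simp only [mm, Matrix.add_apply, Pi.add_apply]
  split_ifs <;> simp

lemma mm_sub (S S' : Finset P → ℂ) : mm (S - S') = mm S - mm S' := by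
  ext A B
  simp only [mm, Matrix.sub_apply, Pi.sub_apply]
  split_ifs <;> simp

lemma mm_smul (c : ℂ) (S : Finset P → ℂ) : mm (c • S) = c • mm S := by
  ext A B
  simp only [mm, Matrix.smul_apply, Pi.smul_apply, smul_eq_mul]
  split_ifs <;> simp

lemma mm_sum {ι : Type} (s : Finset ι) (S : ι → Finset P → ℂ) :
    mm (∑ i ∈ s, S i) = ∑ i ∈ s, mm (S i) := by
  ext A B
  rw [Matrix.sum_apply]
  simp only [mm, Finset.sum_apply]
  split_ifs <;> simp

lemma cut_add_off (X : Finset P) (S : Finset P → ℂ) : cut X S + off X S = S := by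
  funext A
  simp only [cut, off, Pi.add_apply]
  split_ifs <;> simp

lemma mm_comm (S S' : Finset P → ℂ) : Commute (mm S) (mm S') := by
  unfold Commute SemiconjBy
  ext A C
  simp only [Matrix.mul_apply, mm]
  have h1 : ∀ (f g : Finset P → ℂ), ∑ B : Finset P, (if A ⊆ B then f (B \ A) else 0) *
      (if B ⊆ C then g (C \ B) else 0) =
      ∑ B ∈ univ.filter (fun B => A ⊆ B ∧ B ⊆ C), f (B \ A) * g (C \ B) := by
    intro f g
    rw [sum_filter]
    refine sum_congr rfl fun B _ => ?_
    by_cases h1 : A ⊆ B <;> by_cases h2 : B ⊆ C <;> simp [h1, h2]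
  rw [h1, h1]
  have h2 : ∀ B, A ⊆ B → B ⊆ C → (A ∪ C \ B) \ A = C \ B ∧ C \ (A ∪ C \ B) = B \ A ∧
      A ∪ C \ (A ∪ C \ B) = B := by
    intro B hA hB
    refine ⟨?_, ?_, ?_⟩
    · ext a
      simp only [mem_sdiff, mem_union]
      constructor
      · rintro ⟨h | h, h'⟩
        · exact absurd h h'
        · exact h
      · rintro ⟨h, h'⟩
        exact ⟨Or.inr ⟨h, h'⟩, fun h => h' (hA h)⟩
    · ext a
      simp only [mem_sdiff, mem_union, not_or, not_and, not_not]
      constructor
      · rintro ⟨h, h', h''⟩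
        exact ⟨h'' h, h'⟩
      · rintro ⟨h, h'⟩
        exact ⟨hB h, h', fun _ => h⟩
    · ext a
      simp only [mem_sdiff, mem_union, not_or, not_and, not_not]
      constructor
      · rintro (h | ⟨h, h', h''⟩)
        · exact hA h
        · exact h'' h
      · intro h
        by_cases h' : a ∈ A
        · exact Or.inl h'
        · exact Or.inr ⟨hB h, h', fun _ => h⟩
  refine sum_nbij' (fun B => A ∪ C \ B) (fun B => A ∪ C \ B) ?_ ?_ ?_ ?_ ?_
  · intro B hB
    rw [mem_filter] at hB ⊢
    exact ⟨mem_univ _, subset_union_left, union_subset (hB.2.1.trans hB.2.2) sdiff_subset⟩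
  · intro B hB
    rw [mem_filter] at hB ⊢
    exact ⟨mem_univ _, subset_union_left, union_subset (hB.2.1.trans hB.2.2) sdiff_subset⟩
  · intro B hB
    rw [mem_filter] at hB
    exact (h2 B hB.2.1 hB.2.2).2.2
  · intro B hB
    rw [mem_filter] at hB
    exact (h2 B hB.2.1 hB.2.2).2.2
  · intro B hB
    rw [mem_filter] at hB
    rw [(h2 B hB.2.1 hB.2.2).1, (h2 B hB.2.1 hB.2.2).2.1, mul_comm]

lemma mm_num (e : P → ℝ) (S : Finset P → ℂ) :
    mm S * num e - num e * mm S = mm fun A => (en e A : ℂ) * S A := by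
  ext A B
  rw [num, Matrix.sub_apply, Matrix.mul_diagonal, Matrix.diagonal_mul]
  simp only [mm]
  split_ifs with h
  · have : en e (B \ A) = en e B - en e A := by
      rw [en, en, en, sum_sdiff_eq_sub h]
    rw [this]
    push_cast
    ring
  · simp

lemma norm_le_of_rows (M : Op P) {c : ℝ} (hc : 0 ≤ c) (h : ∀ A, ∑ B, ‖M A B‖ ≤ c) : ‖M‖ ≤ c := by
  rw [Matrix.linfty_opNorm_def]
  lift c to NNReal using hc
  rw [NNReal.coe_le_coe]
  refine Finset.sup_le fun A _ => ?_
  rw [← NNReal.coe_le_coe]
  push_cast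
  exact h A

lemma row_le_norm (M : Op P) (A : Finset P) : ∑ B, ‖M A B‖ ≤ ‖M‖ := by
  rw [Matrix.linfty_opNorm_def]
  have h := Finset.le_sup (f := fun i => ∑ j, ‖M i j‖₊) (mem_univ A)
  rw [← NNReal.coe_le_coe] at h
  push_cast at h
  exact h

lemma norm_one_le : ‖(1 : Op P)‖ ≤ 1 := by
  rw [norm_one]

lemma norm_mm_le (S : Finset P → ℂ) : ‖mm S‖ ≤ ∑ A, ‖S A‖ := by
  refine norm_le_of_rows _ (by positivity) fun A => ?_
  simp only [mm]
  have h1 : ∑ B : Finset P, ‖(if A ⊆ B then S (B \ A) else 0)‖ =
      ∑ B ∈ univ.filter (fun B => A ⊆ B), ‖S (B \ A)‖ := by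
    rw [sum_filter]
    refine sum_congr rfl fun B _ => ?_
    split_ifs <;> simp
  rw [h1]
  have h2 : ∑ B ∈ univ.filter (fun B => A ⊆ B), ‖S (B \ A)‖ =
      ∑ D ∈ (univ.filter (fun B => A ⊆ B)).image (fun B => B \ A), ‖S D‖ := by
    rw [sum_image]
    intro B hB B' hB' h
    rw [coe_filter, Set.mem_ofPred_eq] at hB hB'
    simp only at h
    have h3 : B = B \ A ∪ A := (sdiff_union_of_subset hB.2).symm
    have h4 : B' = B' \ A ∪ A := (sdiff_union_of_subset hB'.2).symm
    rw [h3, h, ← h4]
  rw [h2]
  exact sum_le_sum_of_subset_of_nonneg (subset_univ _) fun _ _ _ => norm_nonneg _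

lemma mm_mul_loc {X : Finset P} {V : Op P} (hV : IsLoc X V) (S : Finset P → ℂ)
    (hS : ∀ A, S A ≠ 0 → Disjoint A X) (A B : Finset P) :
    (mm S * V) A B = if A \ X ⊆ B \ X then S ((B \ X) \ (A \ X)) * V (A ∩ X) (B ∩ X) else 0 := by
  rw [Matrix.mul_apply]
  split_ifs with h
  · set D := (B \ X) \ (A \ X) with hD
    have hDX : Disjoint D X := by
      rw [hD]
      exact disjoint_left.2 fun a ha hX => (mem_sdiff.1 (mem_sdiff.1 ha).1).2 hX
    have hDA : Disjoint D A := by
      refine disjoint_left.2 fun a ha hA => ?_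
      rw [hD, mem_sdiff, mem_sdiff, mem_sdiff] at ha
      exact ha.2 ⟨hA, ha.1.2⟩
    rw [sum_eq_single (A ∪ D)]
    · have e1 : (A ∪ D) \ A = D := by
        rw [union_sdiff_left]
        exact sdiff_eq_self_of_disjoint hDA
      have e2 : (A ∪ D) \ X = B \ X := by
        rw [union_sdiff_distrib, sdiff_eq_self_of_disjoint hDX, hD, union_sdiff_of_subset h]
      have e3 : (A ∪ D) ∩ X = A ∩ X := by
        rw [union_inter_distrib_right, disjoint_iff_inter_eq_empty.1 hDX, union_empty]
      rw [mm, if_pos subset_union_left, e1, hV, if_pos e2, e3]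
    · intro C _ hC
      rw [mm, hV C B]
      by_cases h1 : A ⊆ C
      · rw [if_pos h1]
        by_cases h2 : S (C \ A) = 0
        · rw [h2, zero_mul]
        · have h3 := hS _ h2
          rw [if_neg, mul_zero]
          intro h4
          apply hC
          have h5 : C \ A = D := by
            rw [hD, ← h4]
            ext a
            simp only [mem_sdiff]
            constructor
            · rintro ⟨ha, hb⟩
              have : a ∉ X := fun hX => disjoint_left.1 h3 (mem_sdiff.2 ⟨ha, hb⟩) hX
              exact ⟨⟨ha, this⟩, fun h => hb h.1⟩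
            · rintro ⟨⟨ha, hb⟩, hc⟩
              exact ⟨ha, fun h => hc ⟨h, hb⟩⟩
          rw [← h5, union_sdiff_of_subset h1]
      · rw [if_neg h1, zero_mul]
    · intro h
      exact absurd (mem_univ _) h
  · refine sum_eq_zero fun C _ => ?_
    rw [mm, hV C B]
    by_cases h1 : A ⊆ C
    · rw [if_neg (c := C \ X = B \ X), mul_zero]
      intro h2
      exact h (h2 ▸ sdiff_subset_sdiff h1 subset_rfl)
    · rw [if_neg h1, zero_mul]

lemma loc_mul_mm {X : Finset P} {V : Op P} (hV : IsLoc X V) (S : Finset P → ℂ)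
    (hS : ∀ A, S A ≠ 0 → Disjoint A X) (A B : Finset P) :
    (V * mm S) A B = if A \ X ⊆ B \ X then S ((B \ X) \ (A \ X)) * V (A ∩ X) (B ∩ X) else 0 := by
  rw [Matrix.mul_apply]
  split_ifs with h
  · have e0 : A \ X ⊆ B := h.trans sdiff_subset
    rw [sum_eq_single (A \ X ∪ B ∩ X)]
    · have e1 : (A \ X ∪ B ∩ X) \ X = A \ X := by
        ext a
        simp only [mem_sdiff, mem_union, mem_inter]
        tauto
      have e2 : (A \ X ∪ B ∩ X) ∩ X = B ∩ X := by
        rw [union_inter_distrib_right, sdiff_inter_self, empty_union, inter_assoc, inter_self]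
      have e3 : A \ X ∪ B ∩ X ⊆ B := union_subset e0 inter_subset_left
      have e4 : B \ (A \ X ∪ B ∩ X) = (B \ X) \ (A \ X) := by
        ext a
        simp only [mem_sdiff, mem_union, mem_inter]
        tauto
      rw [hV, if_pos e1.symm, e2, mm, if_pos e3, e4, mul_comm]
    · intro C _ hC
      rw [mm, hV A C]
      by_cases h1 : A \ X = C \ X
      · rw [if_pos h1]
        by_cases h2 : C ⊆ B
        · rw [if_pos h2]
          by_cases h3 : S (B \ C) = 0
          · rw [h3, mul_zero]
          · exfalso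
            have h4 := hS _ h3
            apply hC
            rw [h1]
            ext a
            simp only [mem_union, mem_sdiff, mem_inter]
            constructor
            · intro ha
              by_cases hX : a ∈ X
              · exact Or.inr ⟨h2 ha, hX⟩
              · exact Or.inl ⟨ha, hX⟩
            · rintro (⟨ha, _⟩ | ⟨hb, hX⟩)
              · exact ha
              · by_contra hc
                exact disjoint_left.1 h4 (mem_sdiff.2 ⟨hb, hc⟩) hX
        · rw [if_neg h2, mul_zero]
      · rw [if_neg h1, zero_mul]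
    · intro h
      exact absurd (mem_univ _) h
  · refine sum_eq_zero fun C _ => ?_
    rw [mm, hV A C]
    by_cases h1 : C ⊆ B
    · rw [if_neg (c := A \ X = C \ X), zero_mul]
      intro h2
      exact h (h2 ▸ sdiff_subset_sdiff h1 subset_rfl)
    · rw [if_neg h1, mul_zero]

lemma comm_loc {X : Finset P} {V : Op P} (hV : IsLoc X V) (S : Finset P → ℂ)
    (hS : ∀ A, S A ≠ 0 → Disjoint A X) : Commute (mm S) V := by
  unfold Commute SemiconjBy
  ext A B
  rw [mm_mul_loc hV S hS, loc_mul_mm hV S hS]

/-- creation of the set `D` -/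
def del (D : Finset P) : Finset P → ℂ := fun A => if A = D then 1 else 0

lemma mm_del_empty : mm (del (∅ : Finset P)) = 1 := by
  ext A B
  rw [mm, del, Matrix.one_apply]
  by_cases h : A = B
  · subst h; simp
  · rw [if_neg h]
    by_cases h1 : A ⊆ B
    · rw [if_pos h1, if_neg]
      intro h2
      rw [sdiff_eq_empty_iff_subset] at h2
      exact h (subset_antisymm h1 h2)
    · rw [if_neg h1]

lemma struct {W : Op P} {D : Finset P} (hW : Commute (mm (del D)) W) (τ B : Finset P)
    (h : Disjoint τ D) : W (τ ∪ D) B = if D ⊆ B then W τ (B \ D) else 0 := by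
  have h1 : (mm (del D) * W) τ B = W (τ ∪ D) B := by
    rw [Matrix.mul_apply, sum_eq_single (τ ∪ D)]
    · rw [mm, if_pos subset_union_left, del, if_pos, one_mul]
      rw [union_sdiff_left]
      exact sdiff_eq_self_of_disjoint h.symm
    · intro C _ hC
      rw [mm, del]
      by_cases h1 : τ ⊆ C
      · rw [if_pos h1, if_neg, zero_mul]
        intro h2
        exact hC (by rw [← h2, union_sdiff_of_subset h1])
      · rw [if_neg h1, zero_mul]
    · intro h
      exact absurd (mem_univ _) h
  rw [← h1, hW.eq, Matrix.mul_apply]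
  split_ifs with h2
  · rw [sum_eq_single (B \ D)]
    · rw [mm, if_pos sdiff_subset, del, if_pos, mul_one]
      rw [Finset.sdiff_sdiff_eq_self h2]
    · intro C _ hC
      rw [mm, del]
      by_cases h3 : C ⊆ B
      · rw [if_pos h3, if_neg, mul_zero]
        intro h4
        apply hC
        rw [← h4, Finset.sdiff_sdiff_eq_self h3]
      · rw [if_neg h3, mul_zero]
    · intro h
      exact absurd (mem_univ _) h
  · refine sum_eq_zero fun C _ => ?_
    rw [mm, del]
    by_cases h3 : C ⊆ B
    · rw [if_pos h3, if_neg, mul_zero]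
      intro h4
      exact h2 (h4 ▸ sdiff_subset)
    · rw [if_neg h3, mul_zero]

end Pool.Agent.T6.H6.PE
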