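import Pool.Agent.T6.H6.PE.Alg

/-!
# A supersolution of the evolution of the configurations
-/

set_option autoImplicit false
set_option linter.unusedSectionVars false

namespace Pool.Agent.T6.H6.PE

open Finset Alg Filter Topology

variable {P : Type} [Fintype P] [DecidableEq P] {Γ : Type} [Fintype Γ]

/-- the product of the `1 + l k a`, `a ∈ A` -/
def QQ (k : P → Alg P) (l : ℝ) (A : Finset P) : Alg P := ∏ a ∈ A, (1 + l • k a)

lemma one_add_nonneg {k : P → Alg P} (hk : ∀ a, 0 ≤ k a) {l : ℝ} (hl : 0 ≤ l) (a : P) :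
    0 ≤ 1 + l • k a := add_nonneg zero_le_one (smul_nonneg' hl (hk a))

lemma one_le_one_add {k : P → Alg P} (hk : ∀ a, 0 ≤ k a) {l : ℝ} (hl : 0 ≤ l) (a : P) :
    1 ≤ 1 + l • k a := le_add_of_nonneg_right (smul_nonneg' hl (hk a))

lemma QQ_nonneg {k : P → Alg P} (hk : ∀ a, 0 ≤ k a) {l : ℝ} (hl : 0 ≤ l) (A : Finset P) :
    0 ≤ QQ k l A := prod_nonneg fun a _ => one_add_nonneg hk hl a

lemma QQ_mono_l {k : P → Alg P} (hk : ∀ a, 0 ≤ k a) {l l' : ℝ} (hl : 0 ≤ l) (h : l ≤ l')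
    (A : Finset P) : QQ k l A ≤ QQ k l' A :=
  prod_le_prod (fun a _ => one_add_nonneg hk hl a) fun a _ =>
    add_le_add le_rfl (smul_le_smul_r h (hk a))

lemma QQ_mono_k {k k' : P → Alg P} (hk : ∀ a, 0 ≤ k a) (h : ∀ a, k a ≤ k' a) {l : ℝ}
    (hl : 0 ≤ l) (A : Finset P) : QQ k l A ≤ QQ k' l A :=
  prod_le_prod (fun a _ => one_add_nonneg hk hl a) fun a _ =>
    add_le_add le_rfl (smul_le_smul' hl (h a))

lemma QQ_mono_A {k : P → Alg P} (hk : ∀ a, 0 ≤ k a) {l : ℝ} (hl : 0 ≤ l) {A B : Finset P}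
    (h : A ⊆ B) : QQ k l A ≤ QQ k l B := by
  unfold QQ
  rw [← prod_sdiff h]
  have h1 : (1 : Alg P) ≤ ∏ a ∈ B \ A, (1 + l • k a) := by
    have := prod_le_prod (s := B \ A) (f := fun _ => (1 : Alg P)) (g := fun a => 1 + l • k a)
      (fun a _ => zero_le_one) fun a _ => one_le_one_add hk hl a
    rwa [prod_const_one] at this
  have h2 := mul_le_mul_of_nonneg_right h1 (QQ_nonneg hk hl A)
  rwa [one_mul] at h2

lemma one_le_QQ {k : P → Alg P} (hk : ∀ a, 0 ≤ k a) {l : ℝ} (hl : 0 ≤ l) (A : Finset P) :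
    1 ≤ QQ k l A := by
  have := QQ_mono_A hk hl (empty_subset A)
  rwa [QQ, prod_empty] at this

lemma QQ_sub_one {k : P → Alg P} (hk : ∀ a, 0 ≤ k a) {l : ℝ} (hl : 0 ≤ l) (hl1 : l ≤ 1)
    (C : Finset P) : QQ k l C - 1 ≤ l • (QQ k 1 C - 1) := by
  induction C using Finset.induction_on with
  | empty => simp [QQ]
  | insert c C hc ih =>
    have e1 : QQ k l (insert c C) = (1 + l • k c) * QQ k l C := prod_insert hc
    have e2 : QQ k 1 (insert c C) = (1 + (1 : ℝ) • k c) * QQ k 1 C := prod_insert hc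
    have h1 := QQ_mono_l hk hl hl1 C
    have h2 : l • k c * QQ k l C ≤ l • k c * QQ k 1 C :=
      mul_le_mul_of_nonneg_left h1 (smul_nonneg' hl (hk c))
    rw [e1, e2]
    calc (1 + l • k c) * QQ k l C - 1 = (QQ k l C - 1) + l • k c * QQ k l C := by ring
      _ ≤ l • (QQ k 1 C - 1) + l • k c * QQ k 1 C := add_le_add ih h2
      _ = l • ((1 + (1 : ℝ) • k c) * QQ k 1 C - 1) := by
          rw [one_smul, smul_mul_assoc, ← smul_add]
          congr 1
          ring

lemma bern (x y : P → Alg P) {s : ℝ} (hs : 0 ≤ s) (hy : ∀ a, 0 ≤ y a)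
    (hx : ∀ a, 0 ≤ x a - s • y a) (A : Finset P) :
    ∏ a ∈ A, x a - s • ∑ a ∈ A, y a * ∏ b ∈ A.erase a, x b ≤ ∏ a ∈ A, (x a - s • y a) := by
  have hx0 : ∀ a, 0 ≤ x a := fun a => by
    have := add_nonneg (hx a) (smul_nonneg' hs (hy a))
    rwa [sub_add_cancel] at this
  induction A using Finset.induction_on with
  | empty => simp
  | insert c A hc ih =>
    set D := ∑ a ∈ A, y a * ∏ b ∈ A.erase a, x b with hD
    set G := ∏ a ∈ A, x a with hG
    have hD0 : 0 ≤ D := sum_nonneg fun a _ => mul_nonneg (hy a) (prod_nonneg fun b _ => hx0 b)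
    have e1 : ∑ a ∈ insert c A, y a * ∏ b ∈ (insert c A).erase a, x b = y c * G + x c * D := by
      rw [sum_insert hc, erase_insert hc, hD, mul_sum]
      congr 1
      refine sum_congr rfl fun a ha => ?_
      have hne : c ≠ a := by rintro rfl; exact hc ha
      rw [erase_insert_of_ne hne, prod_insert (by
        intro h
        exact hc (mem_of_mem_erase h))]
      ring
    rw [e1, prod_insert hc, prod_insert hc]
    have h1 := mul_le_mul_of_nonneg_left ih (hx c)
    have h2 : 0 ≤ s • y c * (s • D) := mul_nonneg (smul_nonneg' hs (hy c)) (smul_nonneg' hs hD0)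
    calc x c * G - s • (y c * G + x c * D)
        = (x c - s • y c) * (G - s • D) - s • y c * (s • D) := by
          rw [smul_add, ← smul_mul_assoc, ← mul_smul_comm]
          ring
      _ ≤ (x c - s • y c) * (G - s • D) := sub_le_self _ h2
      _ ≤ _ := h1

/-- the map whose fixed point is wanted -/
noncomputable def PhiK (X : Γ → Finset P) (R : Γ → Finset P → ℝ) (ε : ℝ) (k : P → Alg P) :
    P → Alg P := fun a =>
  dl {a} + (2 * ε) • ∑ x ∈ univ.filter (fun x => a ∈ X x), ∑ C, R x C • (QQ k 1 C - 1)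

lemma QQ_continuous (C : Finset P) : Continuous fun k : P → Alg P => QQ k 1 C := by
  unfold QQ
  refine continuous_finsetProd _ fun a _ => ?_
  exact continuous_const.add ((continuous_apply a).const_smul (1 : ℝ))

lemma PhiK_continuous (X : Γ → Finset P) (R : Γ → Finset P → ℝ) (ε : ℝ) :
    Continuous (PhiK X R ε) := by
  refine continuous_pi fun a => ?_
  have h : Continuous fun k : P → Alg P => ∑ x ∈ univ.filter (fun x => a ∈ X x),
      ∑ C, R x C • (QQ k 1 C - 1) := by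
    refine continuous_finsetSum _ fun x _ => continuous_finsetSum _ fun C _ => ?_
    exact ((QQ_continuous C).sub continuous_const).const_smul (R x C)
  exact continuous_const.add (h.const_smul (2 * ε))

lemma PhiK_mono {X : Γ → Finset P} {R : Γ → Finset P → ℝ} {ε : ℝ} (hε : 0 ≤ ε)
    (hR : ∀ x C, 0 ≤ R x C) {k k' : P → Alg P} (hk : ∀ a, 0 ≤ k a) (h : ∀ a, k a ≤ k' a) (a : P) :
    PhiK X R ε k a ≤ PhiK X R ε k' a := by
  refine add_le_add le_rfl (smul_le_smul' (by positivity) ?_)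
  refine sum_le_sum fun x _ => sum_le_sum fun C _ => smul_le_smul' (hR x C) ?_
  exact sub_le_sub_right (QQ_mono_k hk h zero_le_one C) 1

lemma PhiK_nonneg {X : Γ → Finset P} {R : Γ → Finset P → ℝ} {ε : ℝ} (hε : 0 ≤ ε)
    (hR : ∀ x C, 0 ≤ R x C) {k : P → Alg P} (hk : ∀ a, 0 ≤ k a) (a : P) :
    0 ≤ PhiK X R ε k a := by
  refine add_nonneg (dl_nonneg _) (smul_nonneg' (by positivity) ?_)
  refine sum_nonneg fun x _ => sum_nonneg fun C _ => smul_nonneg' (hR x C) ?_
  exact sub_nonneg.2 (one_le_QQ hk zero_le_one C)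

lemma PhiK_tot {X : Γ → Finset P} {R : Γ → Finset P → ℝ} {ε : ℝ} (hε : 0 ≤ ε)
    (hR : ∀ x C, 0 ≤ R x C)
    (hρ : ∀ a, ε * ∑ x ∈ univ.filter (fun x => a ∈ X x), ∑ C : Finset P, R x C * 3 ^ C.card ≤ 1 / 2)
    {k : P → Alg P} (hk : ∀ a, 0 ≤ k a) (ht : ∀ a, tot (k a) ≤ 2) (a : P) :
    tot (PhiK X R ε k a) ≤ 2 := by
  rw [PhiK, tot_add, tot_dl, tot_smul, tot_sum]
  have h1 : ∀ C : Finset P, tot (QQ k 1 C - 1) ≤ 3 ^ C.card := by
    intro C
    rw [tot_sub, tot_one]
    have h2 : tot (QQ k 1 C) ≤ ∏ a ∈ C, tot (1 + (1 : ℝ) • k a) :=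
      tot_prod_le C fun a => one_add_nonneg hk zero_le_one a
    have h3 : ∏ a ∈ C, tot (1 + (1 : ℝ) • k a) ≤ ∏ _a ∈ C, (3 : ℝ) := by
      refine prod_le_prod (fun a _ => tot_nonneg (one_add_nonneg hk zero_le_one a)) fun a _ => ?_
      rw [tot_add, tot_one, tot_smul, one_mul]
      linarith [ht a]
    rw [prod_const] at h3
    linarith
  have h2 : ∑ x ∈ univ.filter (fun x => a ∈ X x), tot (∑ C, R x C • (QQ k 1 C - 1)) ≤
      ∑ x ∈ univ.filter (fun x => a ∈ X x), ∑ C : Finset P, R x C * 3 ^ C.card := by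
    refine sum_le_sum fun x _ => ?_
    rw [tot_sum]
    refine sum_le_sum fun C _ => ?_
    rw [tot_smul]
    exact mul_le_mul_of_nonneg_left (h1 C) (hR x C)
  have h3 := mul_le_mul_of_nonneg_left h2 hε
  linarith [hρ a]

lemma exists_k {X : Γ → Finset P} {R : Γ → Finset P → ℝ} {ε : ℝ} (hε : 0 ≤ ε)
    (hR : ∀ x C, 0 ≤ R x C)
    (hρ : ∀ a, ε * ∑ x ∈ univ.filter (fun x => a ∈ X x), ∑ C : Finset P, R x C * 3 ^ C.card ≤
      1 / 2) :
    ∃ k : P → Alg P, (∀ a, 0 ≤ k a) ∧ (∀ a, tot (k a) ≤ 2) ∧ PhiK X R ε k = k := by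
  set K : ℕ → P → Alg P := fun n => (PhiK X R ε)^[n] 0 with hK
  have hsucc : ∀ n, K (n + 1) = PhiK X R ε (K n) := fun n =>
    Function.iterate_succ_apply' (PhiK X R ε) n 0
  have h1 : ∀ n, (∀ a, 0 ≤ K n a) ∧ (∀ a, tot (K n a) ≤ 2) ∧ ∀ a, K n a ≤ K (n + 1) a := by
    intro n
    induction n with
    | zero =>
      have h0 : ∀ a, (0 : Alg P) ≤ K 0 a := fun a => le_rfl
      refine ⟨h0, fun a => ?_, fun a => ?_⟩
      · have : tot (K 0 a) = 0 := by
          have : K 0 a = 0 := rfl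
          rw [this]
          simp only [tot, zero_co, sum_const_zero]
        rw [this]; norm_num
      · rw [hsucc]
        exact PhiK_nonneg hε hR h0 a
    | succ n ih =>
      obtain ⟨i1, i2, i3⟩ := ih
      refine ⟨fun a => ?_, fun a => ?_, fun a => ?_⟩
      · exact (i1 a).trans (i3 a)
      · rw [hsucc]
        exact PhiK_tot hε hR hρ i1 i2 a
      · rw [hsucc (n + 1)]
        conv_lhs => rw [hsucc]
        exact PhiK_mono hε hR i1 i3 a
  have hmono : ∀ a A, Monotone fun n => co (K n a) A := fun a A =>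
    monotone_nat_of_le_succ fun n => le_def.1 ((h1 n).2.2 a) A
  have hbdd : ∀ a A, BddAbove (Set.range fun n => co (K n a) A) := by
    intro a A
    refine ⟨2, ?_⟩
    rintro _ ⟨n, rfl⟩
    exact (co_le_tot ((h1 n).1 a) A).trans ((h1 n).2.1 a)
  set k : P → Alg P := fun a => (fun A => ⨆ n, co (K n a) A : Finset P → ℝ) with hk
  have hlim : Tendsto K atTop (𝓝 k) := by
    refine tendsto_pi_nhds.2 fun a => ?_
    refine tendsto_pi_nhds.2 fun A => ?_
    exact tendsto_atTop_ciSup (hmono a A) (hbdd a A)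
  have hlim' : ∀ a A, Tendsto (fun n => co (K n a) A) atTop (𝓝 (co (k a) A)) := fun a A =>
    tendsto_atTop_ciSup (hmono a A) (hbdd a A)
  refine ⟨k, fun a => le_def.2 fun A => ?_, fun a => ?_, ?_⟩
  · exact ge_of_tendsto' (hlim' a A) fun n => le_def.1 ((h1 n).1 a) A
  · have : Tendsto (fun n => tot (K n a)) atTop (𝓝 (tot (k a))) :=
      tendsto_finsetSum _ fun A _ => hlim' a A
    exact le_of_tendsto' this fun n => (h1 n).2.1 a
  · have h2 : Tendsto (fun n => PhiK X R ε (K n)) atTop (𝓝 (PhiK X R ε k)) :=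
      ((PhiK_continuous X R ε).tendsto k).comp hlim
    have h3 : Tendsto (fun n => K (n + 1)) atTop (𝓝 k) := (tendsto_add_atTop_iff_nat 1).2 hlim
    have h4 : (fun n => K (n + 1)) = fun n => PhiK X R ε (K n) := funext hsucc
    rw [h4] at h3
    exact tendsto_nhds_unique h2 h3

end Pool.Agent.T6.H6.PE
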